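import Pool.Agent.P.MP_1206ce_ag.JO.Defs

/-! Polynomial bookkeeping for the Jordan theorem. -/

open scoped Topology
open Filter Set

noncomputable section

namespace Pool.Agent.HK

namespace HD

variable {β I Ar τ Λ Λ' : Type} [Fintype β] [DecidableEq β] [Fintype I] [DecidableEq I] [Fintype Ar]
  [DecidableEq Ar] [Fintype τ] [DecidableEq τ] [DecidableEq Λ] [DecidableEq Λ'] (D : HD β I Ar τ)

theorem j_PY_le (sl : β → Λ) (ρ : β → ℕ) : (D.PY sl ρ).card ≤ (D.PU sl).card :=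
  Finset.card_le_card (Finset.filter_subset _ _)
theorem j_JE_hom (sl : β → Λ) (ρ : β → ℕ) :
    (D.JE sl ρ).IsHomogeneous ((D.PU sl).card - (D.PY sl ρ).card) := by
  have h : D.PY sl ρ ⊆ D.PU sl := Finset.filter_subset _ _
  rw [← Finset.card_sdiff_of_subset h, Finset.card_eq_sum_ones]
  exact MvPolynomial.IsHomogeneous.prod _ _ (fun _ => 1) fun p _ => linF_isHomogeneous _
theorem j_top_hom (sl : β → Λ) (ρ : β → ℕ) :
    (D.Jtop sl ρ).IsHomogeneous (npos (D.labr sl ρ)) := by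
  rw [← degI_topI]
  exact xI_isHomogeneous _ _
theorem j_alt_E (sl : β → Λ) (ρ : β → ℕ) (p : MvPolynomial (β ⊕ τ) ℂ) :
    Alt (D.lab sl) (p * D.JE sl ρ) = D.hb ^ Fintype.card β *
      ((-1 : ℂ) ^ Fintype.card β • Alt (D.lab sl) (p * D.erho sl ρ)) := by
  have h1 : D.hb ^ Fintype.card β ∈ Rinv (D.lab sl) := pow_mem (D.X_inr_mem_Rinv sl D.hh) _
  rw [← map_smul, ← Alt_mul h1, JE, D.euler_PY]
  congr 1
  rw [MvPolynomial.smul_eq_C_mul, map_pow, map_neg, map_one, neg_pow]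
  ring
theorem j_alt_gen (sl : β → Λ) (ρ : β → ℕ) : ∃ z : ℂ, z ≠ 0 ∧ ∀ g ∈ Rinv (D.labr sl ρ),
    Alt (D.lab sl) (g * D.Jtop sl ρ * D.JE sl ρ) =
      D.hb ^ Fintype.card β * (z • D.gen sl ρ g) := by
  obtain ⟨ε, hε, e⟩ := Alt_xI_top (D.labr sl ρ)
  have hc := card_Wl_ne_zero (D.labr sl ρ)
  have hε0 : ε ≠ 0 := by rcases hε with h | h <;> simp [h]
  refine ⟨(-1) ^ Fintype.card β * ((((Wl (D.labr sl ρ)).card : ℂ))⁻¹ * ε),
    mul_ne_zero (pow_ne_zero _ (by simp)) (mul_ne_zero (inv_ne_zero hc) hε0), fun g hg => ?_⟩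
  have hr : Refines (D.labr sl ρ) (D.lab sl) := D.refines_lab fun _ _ h => congrArg Prod.fst h
  have h1 := Alt_Alt hr (g * D.erho sl ρ * D.Jtop sl ρ)
  rw [Alt_mul (mul_mem hg (D.erho_mem_Rinv sl ρ)), e, mul_smul_comm, map_smul] at h1
  rw [j_alt_E, mul_smul, mul_smul, gen, mul_right_comm g (Dl _), h1, inv_smul_smul₀ hc,
    mul_right_comm g]
/-- Homogeneous form of `mem_Ylt_succ`. -/
theorem j_split {sl : β → Λ} {kr : (β → ℕ) → ℕ} (hk : D.IsKr sl kr) {ρ : β → ℕ}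
    {f y : MvPolynomial (β ⊕ τ) ℂ} {d : ℕ} (hf : f.IsHomogeneous d)
    (hy : y ∈ D.Ylt sl kr (kr ρ + 1)) (h : Alt (D.lab sl) f = D.hb ^ Fintype.card β * y) :
    ∃ g ∈ Rinv (D.labr sl ρ), (g = 0 ∨ ∃ e : ℕ, g.IsHomogeneous e ∧
      d = e + npos (D.labr sl ρ) + ((D.PU sl).card - (D.PY sl ρ).card)) ∧
      ∃ y' ∈ D.Ylt sl kr (kr ρ),
        Alt (D.lab sl) (f - g * D.Jtop sl ρ * D.JE sl ρ) = D.hb ^ Fintype.card β * y' := by
  obtain ⟨z, hz, hgen⟩ := D.j_alt_gen sl ρ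
  obtain ⟨g₀, hg₀, hy₀⟩ := D.mem_Ylt_succ hk hy
  have hg₁ : z⁻¹ • g₀ ∈ Rinv (D.labr sl ρ) := Subalgebra.smul_mem _ hg₀ _
  have h1 : Alt (D.lab sl) (f - z⁻¹ • g₀ * (D.Jtop sl ρ * D.JE sl ρ)) =
      (y - D.gen sl ρ g₀) * D.hb ^ Fintype.card β := by
    rw [map_sub, h, ← mul_assoc, hgen _ hg₁, EV_gen_smul, smul_inv_smul₀ hz]
    ring
  have hq := (D.j_top_hom sl ρ).mul (D.j_JE_hom sl ρ)
  have hh : (D.hb ^ Fintype.card β).IsHomogeneous (Fintype.card β) :=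
    MvPolynomial.isHomogeneous_X_pow _ _
  have h2 := congrArg (MvPolynomial.homogeneousComponent d) h1
  rw [homogeneousComponent_Alt, map_sub, MvPolynomial.homogeneousComponent_eq_self hf,
    Artin_hc_mul _ hq, Artin_hc_mul _ hh, ← mul_assoc, mul_comm _ (D.hb ^ _)] at h2
  refine ⟨_, ?_, ?_, _, ?_, h2⟩
  · split_ifs
    · exact zero_mem _
    · exact homogeneousComponent_mem_Rinv hg₁ _
  · split_ifs with hd
    · exact Or.inl rfl
    · exact Or.inr ⟨_, MvPolynomial.homogeneousComponent_isHomogeneous _ _, by omega⟩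
  · split_ifs
    · exact zero_mem _
    · exact D.hom_mem_Ylt sl kr _ hy₀ _
theorem j_gen_mem {sl : β → Λ} (kr : (β → ℕ) → ℕ) {ρ : β → ℕ} (hρ : D.Decr sl ρ)
    {g : MvPolynomial (β ⊕ τ) ℂ} (hg : g ∈ Rinv (D.labr sl ρ)) :
    D.gen sl ρ g ∈ D.Ylt sl kr (kr ρ + 1) :=
  Submodule.subset_span ⟨ρ, g, hρ, Nat.lt_succ_self _, hg, rfl⟩
theorem j_Ylt_mono (sl : β → Λ) (kr : (β → ℕ) → ℕ) {c c' : ℕ} (h : c ≤ c') :
    D.Ylt sl kr c ≤ D.Ylt sl kr c' :=
  Submodule.span_mono fun _ ⟨ρ, g, hρ, hlt, hg, e⟩ => ⟨ρ, g, hρ, hlt.trans_le h, hg, e⟩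
theorem JAlg_hc_ev (ρ : β → ℕ) (bot : β → β) (g : MvPolynomial (β ⊕ τ) ℂ) (d : ℕ) :
    MvPolynomial.homogeneousComponent d (D.ev ρ bot g) =
      D.ev ρ bot (MvPolynomial.homogeneousComponent d g) := by
  conv_lhs => rw [← MvPolynomial.sum_homogeneousComponent g]
  rw [map_sum, map_sum, Finset.sum_eq_single d]
  · exact MvPolynomial.homogeneousComponent_eq_self
      (D.ev_isHomogeneous ρ bot (MvPolynomial.homogeneousComponent_isHomogeneous d g))
  · intro i _ hi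
    rw [MvPolynomial.homogeneousComponent_of_mem
      (D.ev_isHomogeneous ρ bot (MvPolynomial.homogeneousComponent_isHomogeneous i g)),
      if_neg hi.symm]
  · intro hd
    rw [MvPolynomial.homogeneousComponent_eq_zero d g
      (by rw [Finset.mem_range] at hd; omega), map_zero, map_zero]
theorem j_low_red {sl : β → Λ} {ρ : β → ℕ} {bot : β → β}
    {Y : Submodule ℂ (MvPolynomial (β ⊕ τ) ℂ)}
    (h : ∀ d, ∀ g ∈ Rinv (D.labr sl ρ), g.IsHomogeneous d → D.ev ρ bot g = 0 → D.gen sl ρ g ∈ Y)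
    {g : MvPolynomial (β ⊕ τ) ℂ} (hg : g ∈ Rinv (D.labr sl ρ)) (h0 : D.ev ρ bot g = 0) :
    D.gen sl ρ g ∈ Y := by
  rw [← MvPolynomial.sum_homogeneousComponent g, gen, Finset.sum_mul, Finset.sum_mul, map_sum]
  refine Submodule.sum_mem _ fun d _ => h d _ (homogeneousComponent_mem_Rinv hg d)
    (MvPolynomial.homogeneousComponent_isHomogeneous d g) ?_
  rw [← JAlg_hc_ev, h0, map_zero]
theorem j_sp_red {sl : β → Λ} {Y : Submodule ℂ (MvPolynomial (β ⊕ τ) ℂ)}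
    (h : ∀ ρ d, ∀ p : MvPolynomial (β ⊕ τ) ℂ, p.IsHomogeneous d →
      Alt (D.lab sl) (p * D.erho sl ρ) ∈ Y) : D.Y sl ≤ Y := by
  have key : ∀ x ∈ D.J sl, ∀ p, Alt (D.lab sl) (p * x) ∈ Y := by
    intro x hx
    induction hx using Submodule.span_induction with
    | mem x hx =>
      obtain ⟨ρ, rfl⟩ := hx
      intro p
      rw [← MvPolynomial.sum_homogeneousComponent p, Finset.sum_mul, map_sum]
      exact Submodule.sum_mem _ fun d _ =>
        h ρ d _ (MvPolynomial.homogeneousComponent_isHomogeneous d p)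
    | zero =>
      intro p
      rw [mul_zero, map_zero]
      exact zero_mem _
    | add a b _ _ ha hb =>
      intro p
      rw [mul_add, map_add]
      exact add_mem (ha p) (hb p)
    | smul t a _ ha =>
      intro p
      rw [smul_eq_mul, ← mul_assoc]
      exact ha _
  rintro _ ⟨x, hx, rfl⟩
  simpa using key x hx 1

end HD

end Pool.Agent.HK
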