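import Pool.Agent.P.MP_1206ce_ag.JO.Orb

/-! The stabiliser of the standard nilpotent. -/

open scoped Topology
open Filter Set

noncomputable section

namespace Pool.Agent.HK

namespace HD

variable {β I Ar τ Λ Λ' : Type} [Fintype β] [DecidableEq β] [Fintype I] [DecidableEq I] [Fintype Ar]
  [DecidableEq Ar] [Fintype τ] [DecidableEq τ] [DecidableEq Λ] [DecidableEq Λ'] (D : HD β I Ar τ)

section helpers

omit [Fintype I] [DecidableEq I] [Fintype Ar] [DecidableEq Ar] [Fintype τ] [DecidableEq τ]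
  [DecidableEq Λ] [DecidableEq Λ']

variable {D} {sl : β → Λ} {ρ : β → ℕ} {bot : β → β}

theorem JGrp_ga (hs : D.IsStr sl ρ bot) (g : Matrix β β ℂ) {j k : β} (hb : bot j = bot k)
    (hr : ρ k = ρ j + 1) (l : β) : (g * Ja0 ρ bot) l k = g l j := by
  rw [Matrix.mul_apply, Finset.sum_eq_single j]
  · simp [Ja0, hb, hr]
  · intro i _ hi
    have h : ¬(bot i = bot k ∧ ρ k = ρ i + 1) := fun h =>
      hi (hs.inj i j (h.1.trans hb.symm) (by have := h.2; omega))
    simp [Ja0, h]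
  · intro h
    exact absurd (Finset.mem_univ _) h

theorem JGrp_ga0 (g : Matrix β β ℂ) {k : β} (hr : ρ k = 0) (l : β) :
    (g * Ja0 ρ bot) l k = 0 := by
  rw [Matrix.mul_apply]
  refine Finset.sum_eq_zero fun i _ => ?_
  simp [Ja0, hr]

theorem JGrp_ag (hs : D.IsStr sl ρ bot) (g : Matrix β β ℂ) {l j : β} (hb : bot l = bot j)
    (hr : ρ j = ρ l + 1) (k : β) : (Ja0 ρ bot * g) l k = g j k := by
  rw [Matrix.mul_apply, Finset.sum_eq_single j]
  · simp [Ja0, hb, hr]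
  · intro i _ hi
    have h : ¬(bot l = bot i ∧ ρ i = ρ l + 1) := fun h =>
      hi (hs.inj i j (h.1.symm.trans hb) (by have := h.2; omega))
    simp [Ja0, h]
  · intro h
    exact absurd (Finset.mem_univ _) h

theorem JGrp_ag0 (g : Matrix β β ℂ) {l : β} (h : ¬∃ j, bot l = bot j ∧ ρ j = ρ l + 1) (k : β) :
    (Ja0 ρ bot * g) l k = 0 := by
  rw [Matrix.mul_apply]
  refine Finset.sum_eq_zero fun i _ => ?_
  have h' : ¬(bot l = bot i ∧ ρ i = ρ l + 1) := fun h' => h ⟨i, h'⟩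
  simp [Ja0, h']

omit [Fintype β] [DecidableEq β] in
theorem JGrp_bot (hs : D.IsStr sl ρ bot) {k : β} (h : ρ k = 0) : bot k = k :=
  hs.inj _ _ (hs.idem k) ((hs.lev k).trans h.symm)

omit [Fintype β] [DecidableEq β] in
theorem JGrp_lev (hs : D.IsStr sl ρ bot) {k : β} (h : bot k = k) : ρ k = 0 := by
  rw [← h]
  exact hs.lev k

theorem JGrp_rel (hs : D.IsStr sl ρ bot) {g : Matrix β β ℂ} {c : ℂ}
    (h : g * Ja0 ρ bot = c • (Ja0 ρ bot * g)) (m : ℕ) :
    ∀ k l, ρ k = m → ρ l = m → c ^ m * g k l = g (bot k) (bot l) := by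
  induction m with
  | zero =>
    intro k l hk hl
    rw [JGrp_bot hs hk, JGrp_bot hs hl, pow_zero, one_mul]
  | succ m ih =>
    intro k l hk hl
    obtain ⟨k', hk1, hk2⟩ := hs.gap k m (by omega)
    obtain ⟨l', hl1, hl2⟩ := hs.gap l m (by omega)
    have h1 := congrFun (congrFun h k') l
    rw [JGrp_ga hs g hl1 (by omega), Matrix.smul_apply, JGrp_ag hs g hk1 (by omega),
      smul_eq_mul] at h1
    rw [← hk1, ← hl1, ← ih k' l' hk2 hl2, h1]
    ring

theorem JGrp_up (hs : D.IsStr sl ρ bot) {g : Matrix β β ℂ} {c : ℂ}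
    (h : g * Ja0 ρ bot = c • (Ja0 ρ bot * g)) {b b' : β} (hb : bot b = b) (hb' : bot b' = b')
    (hg : g b b' ≠ 0) (m : ℕ) :
    ∀ l, bot l = b' → ρ l = m → ∃ k, bot k = b ∧ ρ k = m ∧ g k l ≠ 0 := by
  induction m with
  | zero =>
    intro l hl hm
    have : l = b' := (JGrp_bot hs hm).symm.trans hl
    exact ⟨b, hb, JGrp_lev hs hb, this ▸ hg⟩
  | succ m ih =>
    intro l hl hm
    obtain ⟨l', hl1, hl2⟩ := hs.gap l m (by omega)
    obtain ⟨k', hk1, hk2, hk3⟩ := ih l' (hl1.trans hl) hl2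
    have h1 := congrFun (congrFun h k') l
    rw [JGrp_ga hs g hl1 (by omega), Matrix.smul_apply, smul_eq_mul] at h1
    by_cases hn : ∃ j, bot k' = bot j ∧ ρ j = ρ k' + 1
    · obtain ⟨j, hj1, hj2⟩ := hn
      rw [JGrp_ag hs g hj1 hj2] at h1
      refine ⟨j, hj1.symm.trans hk1, by omega, fun h0 => hk3 ?_⟩
      rw [h1, h0, mul_zero]
    · rw [JGrp_ag0 g hn, mul_zero] at h1
      exact absurd h1 hk3

theorem JGrp_card (hs : D.IsStr sl ρ bot) (b : β) :
    (Finset.univ.filter fun l => bot l = b).card =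
      ((Finset.univ.filter fun l => bot l = b).image ρ).card := by
  refine (Finset.card_image_of_injOn fun k hk l hl e => ?_).symm
  rw [Finset.mem_coe, Finset.mem_filter] at hk hl
  exact hs.inj k l (hk.2.trans hl.2.symm) e

theorem JGrp_len_le (hs : D.IsStr sl ρ bot) {g : Matrix β β ℂ} {c : ℂ}
    (h : g * Ja0 ρ bot = c • (Ja0 ρ bot * g)) {b b' : β} (hb : bot b = b) (hb' : bot b' = b')
    (hg : g b b' ≠ 0) : (Finset.univ.filter fun l => bot l = b').card ≤
      (Finset.univ.filter fun l => bot l = b).card := by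
  rw [JGrp_card hs, JGrp_card hs]
  refine Finset.card_le_card fun m hm => ?_
  obtain ⟨l, hl, rfl⟩ := Finset.mem_image.1 hm
  obtain ⟨k, hk1, hk2, -⟩ := JGrp_up hs h hb hb' hg (ρ l) l (Finset.mem_filter.1 hl).2 rfl
  exact Finset.mem_image.2 ⟨k, Finset.mem_filter.2 ⟨Finset.mem_univ _, hk1⟩, hk2⟩

theorem JGrp_len_ex (hs : D.IsStr sl ρ bot) {b k : β}
    (h : (Finset.univ.filter fun l => bot l = bot k).card =
      (Finset.univ.filter fun l => bot l = b).card) : ∃ l, bot l = b ∧ ρ l = ρ k := by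
  by_contra hn
  have h1 : (Finset.univ.filter fun l => bot l = b).card ≤ ρ k := by
    rw [JGrp_card hs]
    refine (Finset.card_le_card (t := Finset.range (ρ k)) fun m hm => ?_).trans (by simp)
    obtain ⟨l, hl, rfl⟩ := Finset.mem_image.1 hm
    rw [Finset.mem_range]
    by_contra hlt
    obtain ⟨l', h1, h2⟩ := hs.gap l (ρ k) (by omega)
    exact hn ⟨l', h1.trans (Finset.mem_filter.1 hl).2, h2⟩
  have h2 : ρ k + 1 ≤ (Finset.univ.filter fun l => bot l = bot k).card := by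
    rw [JGrp_card hs]
    refine le_trans (by simp) (Finset.card_le_card (s := Finset.range (ρ k + 1)) fun m hm => ?_)
    obtain ⟨l, h1, h2⟩ := hs.gap k m (by have := Finset.mem_range.1 hm; omega)
    exact Finset.mem_image.2 ⟨l, Finset.mem_filter.2 ⟨Finset.mem_univ _, h1⟩, h2⟩
  omega

theorem JGrp_sub_unit {V V' : Type} [Fintype V] [DecidableEq V] [Fintype V'] [DecidableEq V']
    {ι : V' → V} (hι : Function.Injective ι) {u : Matrix V V ℂ} (hu : u ∈ Matrix.unitaryGroup V ℂ)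
    (hoff : ∀ k l, l ∉ Set.range ι → u (ι k) l = 0) :
    u.submatrix ι ι ∈ Matrix.unitaryGroup V' ℂ := by
  rw [Matrix.mem_unitaryGroup_iff] at hu ⊢
  ext k k'
  have h1 := congrFun (congrFun hu (ι k)) (ι k')
  rw [Matrix.mul_apply] at h1 ⊢
  rw [Fintype.sum_of_injective ι hι _ (fun l => u (ι k) l * star u l (ι k')), h1]
  · simp [Matrix.one_apply, hι.eq_iff]
  · intro l hl
    rw [hoff k l hl, zero_mul]
  · intro l
    simp [Matrix.star_apply]

theorem JGrp_blocks {V V' : Type} [Fintype V] [DecidableEq V] [Fintype V'] [DecidableEq V']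
    {g : Matrix V V ℂ} (hg : g ∈ Matrix.unitaryGroup V ℂ) {B : Matrix V' V' ℂ}
    (hB : B ∈ Matrix.unitaryGroup V' ℂ) :
    Matrix.fromBlocks g 0 0 B ∈ Matrix.unitaryGroup (V ⊕ V') ℂ := by
  have h1 : g * g.conjTranspose = 1 := Matrix.mem_unitaryGroup_iff.1 hg
  have h2 : B * B.conjTranspose = 1 := Matrix.mem_unitaryGroup_iff.1 hB
  rw [Matrix.mem_unitaryGroup_iff, Matrix.star_eq_conjTranspose, Matrix.fromBlocks_conjTranspose,
    Matrix.fromBlocks_multiply]
  simp [h1, h2]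

omit [Fintype β] [DecidableEq β] in
theorem JGrp_ib_inj (τ : Type) (bot : β → β) : Function.Injective (Jib τ bot) :=
  Subtype.val_injective.sumMap Function.injective_id

theorem JGrp_chr_zsmul {V : Type} [Fintype V] [DecidableEq V] (n : ℤ) (k : V) (u : Matrix V V ℂ) :
    chr (n • Pi.single k (1 : ℤ)) u = u k k ^ n := by
  rw [chr, Finset.prod_eq_single k]
  · simp
  · intro m _ hm
    simp [Pi.single_eq_of_ne hm]
  · intro h
    exact absurd (Finset.mem_univ _) h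

theorem JGrp_linF_zsmul {V : Type} [Fintype V] [DecidableEq V] (n : ℤ) (k : V) :
    linF (n • Pi.single k (1 : ℤ)) = MvPolynomial.C (n : ℂ) * MvPolynomial.X k := by
  rw [linF, Finset.sum_eq_single k]
  · simp
  · intro m _ hm
    simp [Pi.single_eq_of_ne hm]
  · intro h
    exact absurd (Finset.mem_univ _) h

end helpers

/-- The matrix on `β` that extends a matrix on the bottoms. -/
def JGrp_ext {sl : β → Λ} {ρ : β → ℕ} {bot : β → β} (hs : D.IsStr sl ρ bot)
    (u' : Matrix ({k // bot k = k} ⊕ τ) ({k // bot k = k} ⊕ τ) ℂ) : Matrix β β ℂ :=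
  Matrix.of fun k l => if ρ k = ρ l then (u' (Sum.inr D.hh) (Sum.inr D.hh))⁻¹ ^ ρ k *
    u' (Sum.inl ⟨bot k, hs.idem k⟩) (Sum.inl ⟨bot l, hs.idem l⟩) else 0

section ext

omit [Fintype I] [DecidableEq I] [Fintype Ar] [DecidableEq Ar] [DecidableEq Λ] [DecidableEq Λ']

variable {D} {sl : β → Λ} {ρ : β → ℕ} {bot : β → β}
  {u' : Matrix ({k // bot k = k} ⊕ τ) ({k // bot k = k} ⊕ τ) ℂ}

theorem JGrp_lab (hu : u' ∈ KG (D.labb sl bot)) {b b' : {k // bot k = k}}
    (h : u' (Sum.inl b) (Sum.inl b') ≠ 0) : D.v b.1 = D.v b'.1 ∧ sl b.1 = sl b'.1 ∧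
      (Finset.univ.filter fun l => bot l = b.1).card =
        (Finset.univ.filter fun l => bot l = b'.1).card := by
  by_contra hn
  refine h (hu.2 _ _ fun he => hn ?_)
  simpa [labb] using he

theorem JGrp_tau (hu : u' ∈ KG (D.labb sl bot)) :
    u'.submatrix Sum.inr Sum.inr ∈ Matrix.unitaryGroup τ ℂ := by
  refine JGrp_sub_unit Sum.inr_injective hu.1 ?_
  rintro a (l | b) h
  · exact hu.2 _ _ (by simp [labb])
  · exact absurd ⟨b, rfl⟩ h

theorem JGrp_cc (hu : u' ∈ KG (D.labb sl bot)) (a : τ) :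
    u' (Sum.inr a) (Sum.inr a) * star (u' (Sum.inr a) (Sum.inr a)) = 1 := by
  have h1 := congrFun (congrFun (Matrix.mem_unitaryGroup_iff.1 hu.1) (Sum.inr a)) (Sum.inr a)
  rw [Matrix.mul_apply, Finset.sum_eq_single (Sum.inr a), Matrix.one_apply_eq,
    Matrix.star_apply] at h1
  · exact h1
  · rintro (l | b) - h
    · rw [hu.2 _ _ (by simp [labb]), zero_mul]
    · rw [hu.2 _ _ (by simpa [labb] using fun e : a = b => h (by rw [e])), zero_mul]
  · intro h
    exact absurd (Finset.mem_univ _) h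

theorem JGrp_ext_unit (hs : D.IsStr sl ρ bot) (hu : u' ∈ KG (D.labb sl bot)) :
    D.JGrp_ext hs u' ∈ Matrix.unitaryGroup β ℂ := by
  rw [Matrix.mem_unitaryGroup_iff]
  ext k k'
  rw [Matrix.mul_apply]
  by_cases hkk : ρ k = ρ k'
  · have h1 := congrFun (congrFun (Matrix.mem_unitaryGroup_iff.1 hu.1)
      (Sum.inl ⟨bot k, hs.idem k⟩)) (Sum.inl ⟨bot k', hs.idem k'⟩)
    have hc : (u' (Sum.inr D.hh) (Sum.inr D.hh))⁻¹ ^ ρ k *
        star ((u' (Sum.inr D.hh) (Sum.inr D.hh))⁻¹ ^ ρ k) = 1 := by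
      rw [star_pow, ← mul_pow, star_inv₀, ← mul_inv, JGrp_cc hu, inv_one, one_pow]
    rw [Matrix.mul_apply] at h1
    rw [← Finset.sum_filter_add_sum_filter_not Finset.univ (fun l => ρ l = ρ k),
      Finset.sum_eq_zero (s := Finset.univ.filter fun l => ¬ρ l = ρ k), add_zero,
      Finset.sum_of_injOn (t := Finset.univ)
        (g := fun j => u' (Sum.inl ⟨bot k, hs.idem k⟩) j *
          star u' j (Sum.inl ⟨bot k', hs.idem k'⟩))
        (fun l => Sum.inl ⟨bot l, hs.idem l⟩), h1]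
    · by_cases e : k = k'
      · subst e
        simp
      · rw [Matrix.one_apply_ne e, Matrix.one_apply_ne]
        intro e'
        exact e (hs.inj k k' (by simpa using e') hkk)
    · intro l hl l' hl' e
      rw [Finset.mem_coe, Finset.mem_filter] at hl hl'
      exact hs.inj l l' (by simpa using e) (hl.2.trans hl'.2.symm)
    · intro l _
      exact Finset.mem_univ _
    · rintro (b | a) - hb
      · by_cases h0 : u' (Sum.inl ⟨bot k, hs.idem k⟩) (Sum.inl b) = 0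
        · rw [h0, zero_mul]
        · obtain ⟨l, h2, h3⟩ := JGrp_len_ex hs (JGrp_lab hu h0).2.2
          refine absurd ⟨l, ?_, ?_⟩ hb
          · simpa using h3
          · exact congrArg Sum.inl (Subtype.ext h2)
      · rw [hu.2 _ _ (by simp [labb]), zero_mul]
    · intro l hl
      have hl' := (Finset.mem_filter.1 hl).2
      simp only [JGrp_ext, Matrix.star_apply, Matrix.of_apply]
      rw [if_pos hl'.symm, if_pos (hkk.symm.trans hl'.symm), ← hkk, star_mul']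
      calc _ = ((u' (Sum.inr D.hh) (Sum.inr D.hh))⁻¹ ^ ρ k *
            star ((u' (Sum.inr D.hh) (Sum.inr D.hh))⁻¹ ^ ρ k)) *
            (u' (Sum.inl ⟨bot k, hs.idem k⟩) (Sum.inl ⟨bot l, hs.idem l⟩) *
              star (u' (Sum.inl ⟨bot k', hs.idem k'⟩) (Sum.inl ⟨bot l, hs.idem l⟩))) := by ring
        _ = _ := by rw [hc, one_mul]
    · intro l hl
      have hl' := (Finset.mem_filter.1 hl).2
      simp only [JGrp_ext, Matrix.of_apply]
      rw [if_neg fun e => hl' e.symm, zero_mul]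
  · rw [Matrix.one_apply_ne fun e => hkk (by rw [e])]
    refine Finset.sum_eq_zero fun l _ => ?_
    simp only [JGrp_ext, Matrix.star_apply, Matrix.of_apply]
    by_cases h1 : ρ k = ρ l
    · rw [if_neg (fun e : ρ k' = ρ l => hkk (h1.trans e.symm)), star_zero, mul_zero]
    · rw [if_neg h1, zero_mul]

theorem JGrp_ext_rel (hs : D.IsStr sl ρ bot) (hu : u' ∈ KG (D.labb sl bot)) :
    D.JGrp_ext hs u' * Ja0 ρ bot =
      u' (Sum.inr D.hh) (Sum.inr D.hh) • (Ja0 ρ bot * D.JGrp_ext hs u') := by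
  have hc : u' (Sum.inr D.hh) (Sum.inr D.hh) ≠ 0 := left_ne_zero_of_mul_eq_one (JGrp_cc hu D.hh)
  ext l k
  rw [Matrix.smul_apply, smul_eq_mul]
  rcases Nat.eq_zero_or_pos (ρ k) with hk | hk
  · rw [JGrp_ga0 _ hk]
    by_cases hn : ∃ j, bot l = bot j ∧ ρ j = ρ l + 1
    · obtain ⟨j, hj1, hj2⟩ := hn
      rw [JGrp_ag hs _ hj1 hj2]
      simp only [JGrp_ext, Matrix.of_apply]
      rw [if_neg (by omega), mul_zero]
    · rw [JGrp_ag0 _ hn, mul_zero]
  · obtain ⟨k', hk1, hk2⟩ := hs.gap k (ρ k - 1) (by omega)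
    rw [JGrp_ga hs _ hk1 (by omega)]
    have e1 : (⟨bot k', hs.idem k'⟩ : {k // bot k = k}) = ⟨bot k, hs.idem k⟩ := Subtype.ext hk1
    by_cases hn : ∃ j, bot l = bot j ∧ ρ j = ρ l + 1
    · obtain ⟨j, hj1, hj2⟩ := hn
      have e2 : (⟨bot l, hs.idem l⟩ : {k // bot k = k}) = ⟨bot j, hs.idem j⟩ := Subtype.ext hj1
      rw [JGrp_ag hs _ hj1 hj2]
      simp only [JGrp_ext, Matrix.of_apply]
      by_cases h1 : ρ l = ρ k'
      · rw [if_pos h1, if_pos (by omega), e1, e2, hj2, pow_succ]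
        field_simp
      · rw [if_neg h1, if_neg (by omega), mul_zero]
    · rw [JGrp_ag0 _ hn, mul_zero]
      simp only [JGrp_ext, Matrix.of_apply]
      by_cases h1 : ρ l = ρ k'
      · rw [if_pos h1, e1]
        by_cases h0 : u' (Sum.inl ⟨bot l, hs.idem l⟩) (Sum.inl ⟨bot k, hs.idem k⟩) = 0
        · rw [h0, mul_zero]
        · obtain ⟨j, h2, h3⟩ := JGrp_len_ex hs (JGrp_lab hu h0).2.2.symm
          exact absurd ⟨j, h2.symm, by omega⟩ hn
      · rw [if_neg h1]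

end ext

/-- Membership in the stabiliser. -/
theorem j_mem_JL {sl : β → Λ} {ρ : β → ℕ} {bot : β → β} {u : Matrix (β ⊕ τ) (β ⊕ τ) ℂ} :
    u ∈ D.JL sl ρ bot ↔ u ∈ D.JK sl ρ ∧
      gau u * Ja0 ρ bot = u (Sum.inr D.hh) (Sum.inr D.hh) • (Ja0 ρ bot * gau u) := by
  refine and_congr_right fun hu => ?_
  have hu1 : u ∈ D.K (one β) := D.K_subset _ hu
  have hc : u (Sum.inr D.hh) (Sum.inr D.hh) ≠ 0 := D.Basic_rr_ne hu D.hh
  have h1 : chr (Sum.elim 0 (D.w3 none)) u = (u (Sum.inr D.hh) (Sum.inr D.hh))⁻¹ := by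
    have h2 := D.Basic_chr_add hu (Pi.single D.hh 1) (-Pi.single D.hh 1)
    rw [add_neg_cancel, Basic_chr_zero, Basic_chr_single] at h2
    exact eq_inv_of_mul_eq_one_right h2.symm
  have h3 : star (gau u) * gau u = 1 := D.Basic_star_gau hu1
  have h4 : gau u * star (gau u) = 1 := Matrix.mem_unitaryGroup_iff.1 (D.gau_unitary hu1)
  constructor
  · intro h
    have h5 : (u (Sum.inr D.hh) (Sum.inr D.hh))⁻¹ • (gau u * Ja0 ρ bot * star (gau u)) =
        Ja0 ρ bot := by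
      rw [← h1]
      exact congrFun h none
    calc gau u * Ja0 ρ bot = u (Sum.inr D.hh) (Sum.inr D.hh) •
          (((u (Sum.inr D.hh) (Sum.inr D.hh))⁻¹ • (gau u * Ja0 ρ bot * star (gau u))) *
            gau u) := by
          rw [Matrix.smul_mul, smul_smul, mul_inv_cancel₀ hc, one_smul, Matrix.mul_assoc, h3,
            Matrix.mul_one]
      _ = _ := by rw [h5]
  · intro h
    funext γ
    rcases γ with _ | γ
    · change chr (Sum.elim 0 (D.w3 none)) u • (gau u * Ja0 ρ bot * star (gau u)) = Ja0 ρ bot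
      rw [h1, h, Matrix.smul_mul, smul_smul, inv_mul_cancel₀ hc, one_smul, Matrix.mul_assoc, h4,
        Matrix.mul_one]
    · simp [act, Jx0]
theorem j_JL_off {sl : β → Λ} {ρ : β → ℕ} {bot : β → β} (hs : D.IsStr sl ρ bot)
    {u : Matrix (β ⊕ τ) (β ⊕ τ) ℂ} (hu : u ∈ D.JL sl ρ bot) (k : {k // bot k = k} ⊕ τ)
    (l : β ⊕ τ) (hl : l ∉ Set.range (Jib τ bot)) : u (Jib τ bot k) l = 0 := by
  rcases l with l | b
  · rcases k with k | a
    · refine hu.1.2 _ _ fun he => hl ⟨Sum.inl ⟨l, JGrp_bot hs ?_⟩, rfl⟩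
      have h1 : ρ k.1 = ρ l := by
        have h2 : D.v k.1 = D.v l ∧ sl k.1 = sl l ∧ ρ k.1 = ρ l := by simpa [lab] using he
        exact h2.2.2
      rw [← h1]
      exact JGrp_lev hs k.2
    · exact D.Basic_rl hu.1 a l
  · exact absurd ⟨Sum.inr b, rfl⟩ hl
theorem j_JL_sub {sl : β → Λ} {ρ : β → ℕ} {bot : β → β} (hs : D.IsStr sl ρ bot)
    {u : Matrix (β ⊕ τ) (β ⊕ τ) ℂ} (hu : u ∈ D.JL sl ρ bot) :
    u.submatrix (Jib τ bot) (Jib τ bot) ∈ KG (D.labb sl bot) := by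
  refine ⟨JGrp_sub_unit (JGrp_ib_inj τ bot) hu.1.1 (D.j_JL_off hs hu), ?_⟩
  rintro (k | a) (l | b) h
  · by_contra hn
    have h0 : gau u k.1 l.1 ≠ 0 := hn
    obtain ⟨h1, h2⟩ := D.gau_block hu.1 h0
    have h3 := JGrp_len_le hs (D.j_mem_JL.1 hu).2 k.2 l.2 h0
    have h4 := JGrp_len_le hs (D.j_mem_JL.1 ((D.j_isGrp_JL sl ρ bot).star u hu)).2 l.2 k.2 (by
      rw [gau_star, Matrix.star_apply]
      exact star_ne_zero.2 h0)
    refine h ?_
    simp only [labb, Sum.map_inl, h1, (Prod.mk.inj h2).1, le_antisymm h4 h3]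
  · exact D.Basic_lr hu.1 _ _
  · exact D.Basic_rl hu.1 _ _
  · exact D.Basic_rr hu.1 fun e : a = b => h (by rw [e])
theorem j_JL_onto {sl : β → Λ} {ρ : β → ℕ} {bot : β → β} (hs : D.IsStr sl ρ bot)
    {u' : Matrix ({k // bot k = k} ⊕ τ) ({k // bot k = k} ⊕ τ) ℂ} (hu : u' ∈ KG (D.labb sl bot)) :
    ∃ u ∈ D.JL sl ρ bot, u.submatrix (Jib τ bot) (Jib τ bot) = u' ∧
      (u' ∈ TT ({k // bot k = k} ⊕ τ) → u ∈ TT (β ⊕ τ)) := by
  have hU := JGrp_blocks (JGrp_ext_unit hs hu) (JGrp_tau hu)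
  have hg : gau (Matrix.fromBlocks (D.JGrp_ext hs u') 0 0 (u'.submatrix Sum.inr Sum.inr)) =
      D.JGrp_ext hs u' := by
    ext k l
    simp [gau]
  refine ⟨Matrix.fromBlocks (D.JGrp_ext hs u') 0 0 (u'.submatrix Sum.inr Sum.inr),
    D.j_mem_JL.2 ⟨⟨hU, ?_⟩, ?_⟩, ?_, fun hT => ⟨hU, ?_⟩⟩
  · rintro (k | a) (l | b) h
    · rw [Matrix.fromBlocks_apply₁₁]
      simp only [JGrp_ext, Matrix.of_apply]
      by_cases h1 : ρ k = ρ l
      · rw [if_pos h1]
        by_cases h0 : u' (Sum.inl ⟨bot k, hs.idem k⟩) (Sum.inl ⟨bot l, hs.idem l⟩) = 0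
        · rw [h0, mul_zero]
        · obtain ⟨h2, h3, -⟩ := JGrp_lab hu h0
          simp only [hs.vx, hs.slot] at h2 h3
          exact absurd (by simp only [lab, Sum.map_inl, h1, h2, h3]) h
      · rw [if_neg h1]
    · simp
    · simp
    · exact hu.2 _ _ (by simpa [labb] using fun e : a = b => h (by rw [e]))
  · rw [hg]
    exact JGrp_ext_rel hs hu
  · ext p q
    rcases p with k | a <;> rcases q with l | b
    · have e1 : (⟨bot k.1, hs.idem k.1⟩ : {k // bot k = k}) = k := Subtype.ext k.2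
      have e2 : (⟨bot l.1, hs.idem l.1⟩ : {k // bot k = k}) = l := Subtype.ext l.2
      change D.JGrp_ext hs u' k.1 l.1 = _
      simp only [JGrp_ext, Matrix.of_apply]
      rw [JGrp_lev hs k.2, JGrp_lev hs l.2, if_pos rfl, pow_zero, one_mul, e1, e2]
    · exact (hu.2 _ _ (by simp [labb])).symm
    · exact (hu.2 _ _ (by simp [labb])).symm
    · rfl
  · rintro (k | a) (l | b) h
    · rw [Matrix.fromBlocks_apply₁₁]
      simp only [JGrp_ext, Matrix.of_apply]
      by_cases h1 : ρ k = ρ l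
      · rw [if_pos h1, hT.2 (Sum.inl ⟨bot k, hs.idem k⟩) (Sum.inl ⟨bot l, hs.idem l⟩) fun e =>
          h (congrArg Sum.inl (hs.inj k l (by simpa using e) h1)), mul_zero]
      · rw [if_neg h1]
    · simp
    · simp
    · exact hT.2 _ _ (by simpa using fun e : a = b => h (by rw [e]))
theorem j_JL_inj {sl : β → Λ} {ρ : β → ℕ} {bot : β → β} (hs : D.IsStr sl ρ bot)
    {u : Matrix (β ⊕ τ) (β ⊕ τ) ℂ} (hu : u ∈ D.JL sl ρ bot)
    (h : u.submatrix (Jib τ bot) (Jib τ bot) = 1) : u = 1 := by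
  have hr : ∀ a, u (Sum.inr a) (Sum.inr a) = 1 := fun a => by
    have h1 := congrFun (congrFun h (Sum.inr a)) (Sum.inr a)
    rw [Matrix.one_apply_eq] at h1
    exact h1
  ext p q
  rcases p with k | a <;> rcases q with l | b
  · by_cases h1 : ρ k = ρ l
    · have h2 := JGrp_rel hs (D.j_mem_JL.1 hu).2 (ρ k) k l rfl h1.symm
      have h3 := congrFun (congrFun h (Sum.inl ⟨bot k, hs.idem k⟩)) (Sum.inl ⟨bot l, hs.idem l⟩)
      rw [hr, one_pow, one_mul] at h2
      refine (h2.trans h3).trans ?_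
      by_cases e : k = l
      · subst e
        simp
      · rw [Matrix.one_apply_ne (fun e' => e (hs.inj k l (by simpa using e') h1)),
          Matrix.one_apply_ne (by simpa using e)]
    · rw [Matrix.one_apply_ne fun e => h1 (by rw [Sum.inl.inj e])]
      exact hu.1.2 _ _ fun he => h1 (by
        have h2 : D.v k = D.v l ∧ sl k = sl l ∧ ρ k = ρ l := by simpa [lab] using he
        exact h2.2.2)
  · rw [D.Basic_lr hu.1, Matrix.one_apply_ne (by simp)]
  · rw [D.Basic_rl hu.1, Matrix.one_apply_ne (by simp)]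
  · by_cases e : a = b
    · subst e
      rw [hr, Matrix.one_apply_eq]
    · rw [D.Basic_rr hu.1 e, Matrix.one_apply_ne (by simpa using e)]
theorem j_JL_chr {sl : β → Λ} {ρ : β → ℕ} {bot : β → β} (hs : D.IsStr sl ρ bot)
    {u : Matrix (β ⊕ τ) (β ⊕ τ) ℂ} (hu : u ∈ D.JL sl ρ bot) (hT : u ∈ TT (β ⊕ τ)) (k : β ⊕ τ) :
    chr (D.Jchi ρ bot k) u = u k k := by
  rcases k with k | a
  · have hc : u (Sum.inr D.hh) (Sum.inr D.hh) ≠ 0 := D.Basic_rr_ne hu.1 D.hh
    have h2 : u (Sum.inr D.hh) (Sum.inr D.hh) ^ ρ k * u (Sum.inl k) (Sum.inl k) =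
        u (Sum.inl (bot k)) (Sum.inl (bot k)) :=
      JGrp_rel hs (D.j_mem_JL.1 hu).2 (ρ k) k k rfl rfl
    rw [Jchi, Sum.elim_inl, sub_eq_add_neg, ← neg_smul, chr_add _ _ hT, chr_single,
      JGrp_chr_zsmul, ← h2, zpow_neg, zpow_natCast]
    field_simp
  · rw [Jchi, Sum.elim_inr, chr_single]
theorem j_ev_eq (ρ : β → ℕ) (bot : β → β) (g : MvPolynomial (β ⊕ τ) ℂ) :
    D.ev ρ bot g = MvPolynomial.aeval (fun k => linF (D.Jchi ρ bot k)) g := by
  rw [ev]
  congr 2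
  funext k
  rcases k with k | a
  · rw [Jchi, Sum.elim_inl, Sum.elim_inl, sub_eq_add_neg (Pi.single _ _), linF_add, linF_neg,
      linF_single, JGrp_linF_zsmul, hb, sub_eq_add_neg]
    simp
  · rw [Jchi, Sum.elim_inr, Sum.elim_inr, linF_single]

end HD

end Pool.Agent.HK
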