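import Pool.Agent.P.MP_1206ce_ag.JO.Retr
import Pool.Agent.P.MP_1206ce_ag.JO.Grp

/-! The equivariant cohomology of the open part of `Y_ρ`. -/

open scoped Topology
open Filter Set

noncomputable section

namespace Pool.Agent.HK

namespace HD

variable {β I Ar τ Λ Λ' : Type} [Fintype β] [DecidableEq β] [Fintype I] [DecidableEq I] [Fintype Ar]
  [DecidableEq Ar] [Fintype τ] [DecidableEq τ] [DecidableEq Λ] [DecidableEq Λ'] (D : HD β I Ar τ)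

theorem JCoh_inj (τ : Type) (bot : β → β) : Function.Injective (Jib τ bot) :=
  Sum.map_injective.2 ⟨Subtype.val_injective, Function.injective_id⟩

theorem JCoh_ref (sl : β → Λ) (bot : β → β) :
    Refines (D.labb sl bot) fun k => D.lab0 (Jib τ bot k) := by
  rintro (k | a) (l | b) h
  · simp only [labb, Sum.map_inl, Sum.inl.injEq, Prod.mk.injEq] at h
    simp only [lab, Sum.map_inl, h.1]
  · simp [labb] at h
  · simp [labb] at h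
  · simp only [labb, Sum.map_inr, Sum.inr.injEq, id] at h
    rw [h]

theorem JCoh_sub (sl : β → Λ) (ρ : β → ℕ) (bot : β → β) : D.JL sl ρ bot ⊆ KG D.lab0 :=
  fun _ hu => KG_mono (D.refines_lab0 _) hu.1

theorem JCoh_BS_mono {V X : Type} [Fintype V] (L : Set (Matrix V V ℂ))
    (act : Matrix V V ℂ → X → X) (S : Set X) {E E' : Set (Fr V)} (h : E ⊆ E') :
    BS L act S E ⊆ BS L act S E' := by
  rintro _ ⟨x, hx, e, he, rfl⟩
  exact ⟨x, hx, e, h he, rfl⟩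

theorem JCoh_surj_bmk {V : Type} [Fintype V] [DecidableEq V] (L : Set (Matrix V V ℂ))
    (y : Bor L (ptAct (V := V))) : ∃ e, y = bmk L ptAct ((), e) :=
  ⟨(Quot.out y).2, (bmk_out y).symm⟩

/-- Forgetting the columns above the bottoms. -/
theorem JCoh_q {sl : β → Λ} {ρ : β → ℕ} {bot : β → β} (hs : D.IsStr sl ρ bot) {n : ℕ}
    (hn : Fintype.card (β ⊕ τ) ≤ n) :
    (∀ e, (bmap (KG (D.labb sl bot)) ptAct (fun _ => ()) (fun e j k => e j (Jib τ bot k)) :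
      Bor (D.JL sl ρ bot) (ptAct (V := β ⊕ τ)) → _) (bmk _ ptAct ((), e)) =
        bmk (KG (D.labb sl bot)) ptAct ((), fun j k => e j (Jib τ bot k))) ∧
    IsoBelow (rng (β ⊕ τ) n)
      (bmap (KG (D.labb sl bot)) ptAct (fun _ => ()) (fun e j k => e j (Jib τ bot k)) :
        Bor (D.JL sl ρ bot) (ptAct (V := β ⊕ τ)) → _)
      (BS (D.JL sl ρ bot) ptAct univ (St D.lab0 n))
      (BS (KG (D.labb sl bot)) ptAct univ (St (fun k => D.lab0 (Jib τ bot k)) n)) :=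
  j_isoBelow_restr (JCoh_inj τ bot) (D.j_isGrp_JL sl ρ bot) (isGrp_KG _) (D.JCoh_sub sl ρ bot)
    (KG_mono (D.JCoh_ref sl bot)) (fun _ hu => D.j_JL_off hs hu) (fun _ hu => D.j_JL_sub hs hu)
    (fun _ hu => by
      obtain ⟨u, h1, h2, -⟩ := D.j_JL_onto hs hu
      exact ⟨u, h1, h2⟩)
    (fun _ hu => D.j_JL_inj hs hu) hn

/-- The same for the tori. -/
theorem JCoh_qT {sl : β → Λ} {ρ : β → ℕ} {bot : β → β} (hs : D.IsStr sl ρ bot) {n : ℕ}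
    (hn : Fintype.card (β ⊕ τ) ≤ n) :
    (∀ e, (bmap (TT ({k // bot k = k} ⊕ τ)) ptAct (fun _ => ()) (fun e j k => e j (Jib τ bot k)) :
      Bor (D.JL sl ρ bot ∩ TT (β ⊕ τ)) (ptAct (V := β ⊕ τ)) → _) (bmk _ ptAct ((), e)) =
        bmk (TT ({k // bot k = k} ⊕ τ)) ptAct ((), fun j k => e j (Jib τ bot k))) ∧
    IsoBelow (rng (β ⊕ τ) n)
      (bmap (TT ({k // bot k = k} ⊕ τ)) ptAct (fun _ => ()) (fun e j k => e j (Jib τ bot k)) :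
        Bor (D.JL sl ρ bot ∩ TT (β ⊕ τ)) (ptAct (V := β ⊕ τ)) → _)
      (BS (D.JL sl ρ bot ∩ TT (β ⊕ τ)) ptAct univ (St D.lab0 n))
      (BS (TT ({k // bot k = k} ⊕ τ)) ptAct univ (St (fun k => D.lab0 (Jib τ bot k)) n)) :=
  j_isoBelow_restr (JCoh_inj τ bot) ((D.j_isGrp_JL sl ρ bot).inter (isGrp_KG _)) (isGrp_KG _)
    (fun _ hu => D.JCoh_sub sl ρ bot hu.1) (TT_subset _) (fun _ hu => D.j_JL_off hs hu.1)
    (fun _ hu => ⟨(D.j_JL_sub hs hu.1).1, fun k l hkl =>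
      hu.2.2 _ _ fun h => hkl (JCoh_inj τ bot h)⟩)
    (fun _ hu => by
      obtain ⟨u, h1, h2, h3⟩ := D.j_JL_onto hs (TT_subset _ hu)
      exact ⟨u, ⟨h1, h3 hu⟩, h2⟩)
    (fun _ hu => D.j_JL_inj hs hu.1) hn

theorem JCoh_homC_sub {Y : Type} {k : ℤ} {a b : Coch Y} (ha : HomC k a) (hb : HomC k b) :
    HomC k (a - b) := fun l hl => by
  rw [Pi.sub_apply, ha l hl, hb l hl, sub_zero]

/-- The identity on the level of tori. -/
theorem JCoh_torus {sl : β → Λ} {ρ : β → ℕ} {bot : β → β} (hs : D.IsStr sl ρ bot) {n : ℕ}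
    (hn : Fintype.card (β ⊕ τ) ≤ n) {g : MvPolynomial (β ⊕ τ) ℂ} (hg : g ∈ Rinv (D.labr sl ρ))
    {r : MvPolynomial ({k // bot k = k} ⊕ τ) ℂ}
    (he : D.ev ρ bot g = MvPolynomial.rename (Jib τ bot) r) :
    chX (D.labr sl ρ) (D.JL sl ρ bot ∩ TT (β ⊕ τ)) ptAct g n -
      pb (bmap (TT ({k // bot k = k} ⊕ τ)) ptAct (fun _ => ()) (fun e j k => e j (Jib τ bot k)) :
        Bor (D.JL sl ρ bot ∩ TT (β ⊕ τ)) (ptAct (V := β ⊕ τ)) → _) (polyC r) ∈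
      BB ⊥ (BS (D.JL sl ρ bot ∩ TT (β ⊕ τ)) ptAct univ (St D.lab0 n)) := by
  have hG : IsGrp (D.JL sl ρ bot ∩ TT (β ⊕ τ)) := (D.j_isGrp_JL sl ρ bot).inter (isGrp_KG _)
  have hA := isAct_pt hG
  have hT : D.JL sl ρ bot ∩ TT (β ⊕ τ) ⊆ TT (β ⊕ τ) := inter_subset_right
  have hP : Inv (D.JL sl ρ bot ∩ TT (β ⊕ τ)) ptAct ((univ : Set Unit) ×ˢ St D.lab0 n) :=
    Inv.prod (fun _ _ _ _ => mem_univ _) (invF_St (fun _ hu => D.JCoh_sub sl ρ bot hu.1) n)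
  have h1 : ∀ p ∈ (univ : Set Unit) ×ˢ St D.lab0 n, p.2 ∈ Inj (D.labr sl ρ) n := fun p hp =>
    Inj_anti (D.refines_lab0 _) n (St_subset_Inj _ n hp.2)
  have h2 : ∀ p ∈ (univ : Set Unit) ×ˢ St D.lab0 n, p.2 ∈ Inj (id : β ⊕ τ → β ⊕ τ) n :=
    fun p hp => Inj_subset_id _ n (St_subset_Inj _ n hp.2)
  have e1 := chX_sub_polyX hA hT h1 hg
  have e2 := polyX_aeval hA hT hP h2 (D.Jchi ρ bot) (fun u hu k => D.j_JL_chr hs hu.1 hu.2 k) g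
  rw [← D.j_ev_eq, he] at e2
  have e3 := pb_mem_BB (hA.continuous_toPt hT).continuousOn (hA.mapsTo_toPt hT h2)
    (pb_polyC (Jib τ bot) r n)
  rw [pb_sub, pb_pb] at e3
  have e4 : (bmap (TT ({k // bot k = k} ⊕ τ)) ptAct (fun _ => ())
      (fun e j k => e j (Jib τ bot k)) : BT (β ⊕ τ) → _) ∘
      (bmap (TT (β ⊕ τ)) ptAct (fun _ => ()) id :
        Bor (D.JL sl ρ bot ∩ TT (β ⊕ τ)) (ptAct (V := β ⊕ τ)) → _) =
      bmap (TT ({k // bot k = k} ⊕ τ)) ptAct (fun _ => ()) (fun e j k => e j (Jib τ bot k)) := by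
    funext y
    obtain ⟨e, rfl⟩ := JCoh_surj_bmk _ y
    rw [Function.comp_apply, hA.toPt_bmk hT, restr_bmk, (D.JCoh_qT hs hn).1]
  rw [e4] at e3
  rw [BS_eq]
  have e5 := sub_mem (sub_mem e1 e2) e3
  refine (congrArg (· ∈ _) ?_).mp e5
  simp only [polyX]
  abel

/-- On the classifying space of the stabiliser, `g` is the pull-back of `ev g`. -/
theorem j_coh_id {sl : β → Λ} {ρ : β → ℕ} {bot : β → β} (hs : D.IsStr sl ρ bot) {n : ℕ}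
    (hn : Fintype.card (β ⊕ τ) ≤ n) {d : ℕ} (hd : 2 * (d : ℤ) < rng (β ⊕ τ) n)
    {g : MvPolynomial (β ⊕ τ) ℂ} (hg : g ∈ Rinv (D.labr sl ρ)) (hgd : g.IsHomogeneous d)
    {r : MvPolynomial ({k // bot k = k} ⊕ τ) ℂ} (hr : r ∈ Rinv (D.labb sl bot))
    (hrd : r.IsHomogeneous d) (he : D.ev ρ bot g = MvPolynomial.rename (Jib τ bot) r) :
    chX (D.labr sl ρ) (D.JL sl ρ bot) ptAct g n -
      pb (bmap (KG (D.labb sl bot)) ptAct (fun _ => ()) (fun e j k => e j (Jib τ bot k)) :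
        Bor (D.JL sl ρ bot) (ptAct (V := β ⊕ τ)) → _) (chC (D.labb sl bot) r n) ∈
      BB ⊥ (BS (D.JL sl ρ bot) ptAct univ (St D.lab0 n)) := by
  have hG := D.j_isGrp_JL sl ρ bot
  have hA := isAct_pt hG
  have hGT : IsGrp (D.JL sl ρ bot ∩ TT (β ⊕ τ)) := hG.inter (isGrp_KG _)
  have hAT := isAct_pt hGT
  have hL : D.JL sl ρ bot ⊆ KG (D.labr sl ρ) := fun _ hu => hu.1
  have hT : D.JL sl ρ bot ∩ TT (β ⊕ τ) ⊆ D.JL sl ρ bot := inter_subset_left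
  have hA' := isAct_pt (isGrp_KG (id : {k // bot k = k} ⊕ τ → _))
  obtain ⟨q0, q1, q2, q3, -⟩ := D.JCoh_q hs hn
  obtain ⟨t0, t1, t2, -, t4⟩ := D.JCoh_qT hs hn
  set q : Bor (D.JL sl ρ bot) (ptAct (V := β ⊕ τ)) → _ :=
    bmap (KG (D.labb sl bot)) ptAct (fun _ => ()) (fun e j k => e j (Jib τ bot k)) with hq
  set qT : Bor (D.JL sl ρ bot ∩ TT (β ⊕ τ)) (ptAct (V := β ⊕ τ)) → _ :=
    bmap (TT ({k // bot k = k} ⊕ τ)) ptAct (fun _ => ()) (fun e j k => e j (Jib τ bot k)) with hqT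
  have hSI : St (fun k => D.lab0 (Jib τ bot k)) n ⊆ Inj (D.labb sl bot) n := fun e he =>
    Inj_anti (D.JCoh_ref sl bot) n (St_subset_Inj _ n he)
  have h1 : ∀ p ∈ (univ : Set Unit) ×ˢ St D.lab0 n, p.2 ∈ Inj (D.labr sl ρ) n := fun p hp =>
    Inj_anti (D.refines_lab0 _) n (St_subset_Inj _ n hp.2)
  have z1 : chX (D.labr sl ρ) (D.JL sl ρ bot) ptAct g n ∈
      ZZ ⊥ (BS (D.JL sl ρ bot) ptAct univ (St D.lab0 n)) := by
    rw [BS_eq]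
    exact chX_mem_ZZ hA hL h1 hg
  have z2 : pb q (chC (D.labb sl bot) r n) ∈ ZZ ⊥ (BS (D.JL sl ρ bot) ptAct univ (St D.lab0 n)) :=
    pb_mem_ZZ q1 (q2.mono_right (JCoh_BS_mono _ _ _ hSI)) (chC_spec hr n).1
  obtain ⟨w₀, z0, hw₀, b0⟩ := q3 _ hd _ (sub_mem z1 z2)
    (JCoh_homC_sub (chX_homC hgd n) ((chC_homC _ hrd n).pb q))
  have pc := hAT.continuous_toPt hT
  have pm : MapsTo (bmap (D.JL sl ρ bot) ptAct (fun _ => ()) id :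
      Bor (D.JL sl ρ bot ∩ TT (β ⊕ τ)) (ptAct (V := β ⊕ τ)) → _)
      (BS (D.JL sl ρ bot ∩ TT (β ⊕ τ)) ptAct univ (St D.lab0 n))
      (BS (D.JL sl ρ bot) ptAct univ (St D.lab0 n)) := by
    rw [BS_eq univ]
    exact hAT.mapsTo_toPt hT fun p hp => hp.2
  have pc' := hA'.continuous_toPt (TT_subset (D.labb sl bot))
  have pm' : MapsTo (bmap (KG (D.labb sl bot)) ptAct (fun _ => ()) id :
      BT ({k // bot k = k} ⊕ τ) → _)
      (BS (TT ({k // bot k = k} ⊕ τ)) ptAct univ (St (fun k => D.lab0 (Jib τ bot k)) n))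
      (BS (KG (D.labb sl bot)) ptAct univ (St (fun k => D.lab0 (Jib τ bot k)) n)) := by
    rw [BS_eq univ]
    exact hA'.mapsTo_toPt (TT_subset _) fun p hp => hp.2
  have sq : (bmap (KG (D.labb sl bot)) ptAct (fun _ => ()) id :
      BT ({k // bot k = k} ⊕ τ) → _) ∘ qT =
      q ∘ (bmap (D.JL sl ρ bot) ptAct (fun _ => ()) id :
        Bor (D.JL sl ρ bot ∩ TT (β ⊕ τ)) (ptAct (V := β ⊕ τ)) → _) := by
    funext y
    obtain ⟨e, rfl⟩ := JCoh_surj_bmk _ y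
    rw [Function.comp_apply, Function.comp_apply, t0, hAT.toPt_bmk hT, q0,
      hA'.toPt_bmk (TT_subset _)]
  have b1 := pb_mem_BB pc.continuousOn pm b0
  rw [pb_sub, pb_sub, pb_chX hA hL, pb_pb, pb_pb, ← sq, ← pb_pb, ← pb_pb] at b1
  have b2 := D.JCoh_torus hs hn hg he
  have b3 := pb_mem_BB t1 (t2.mono_right (JCoh_BS_mono _ _ _ hSI)) (chC_spec hr n).2
  rw [pb_sub] at b3
  have b4 : pb qT (pb (bmap (KG (D.labb sl bot)) ptAct (fun _ => ()) id :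
      BT ({k // bot k = k} ⊕ τ) → _) w₀) ∈
      BB ⊥ (BS (D.JL sl ρ bot ∩ TT (β ⊕ τ)) ptAct univ (St D.lab0 n)) := by
    refine (congrArg (· ∈ _) ?_).mp (sub_mem (sub_mem b2 b3) b1)
    abel
  have b5 := t4 _ hd _ (pb_mem_ZZ pc'.continuousOn pm' z0) (hw₀.pb _) b4
  have b6 := (pb_toK_inj (D.JCoh_ref sl bot) n).1 z0 b5
  have b7 := add_mem b0 (pb_mem_BB q1 q2 b6)
  rwa [sub_add_cancel] at b7

/-- The classifying space of the stabiliser computes the cohomology of the open part. -/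
theorem JCoh_f {sl : β → Λ} {ρ : β → ℕ} {bot : β → β} (hs : D.IsStr sl ρ bot) (n : ℕ) (c : ℤ) :
    IsoBelow c (bmap (D.JK sl ρ) D.act (fun _ => Jx0 Ar ρ bot) id :
      Bor (D.JL sl ρ bot) (ptAct (V := β ⊕ τ)) → Bor (D.JK sl ρ) D.act)
      (BS (D.JL sl ρ bot) ptAct univ (St D.lab0 n)) (D.SP (D.JK sl ρ) (D.JYo sl ρ) n) := by
  have hG := D.j_isGrp_JL sl ρ bot
  have hK : D.JK sl ρ ⊆ KG D.lab0 := KG_mono (D.refines_lab0 _)
  have i1 := isoBelow_St_Inj (isAct_pt hG) (D.JCoh_sub sl ρ bot) (S := univ)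
    (fun _ _ _ _ => mem_univ _) LC.univ n c
  have i2 := j_isoBelow_orbit (D.j_isAct_JK sl ρ) (D.j_invX_JOr sl ρ) (D.j_x0_mem hs)
    (fun _ hx => D.j_trans hs hx) hG (fun _ => Iff.rfl) (invF_Inj hK n) (lc_Inj D.lab0 n) c
  exact ((D.j_retract sl ρ n c).comp i2).comp i1

theorem JCoh_chX_ZZ (sl : β → Λ) (ρ : β → ℕ) (n : ℕ) {g : MvPolynomial (β ⊕ τ) ℂ}
    (hg : g ∈ Rinv (D.labr sl ρ)) :
    chX (D.labr sl ρ) (D.JK sl ρ) D.act g n ∈ ZZ ⊥ (D.SP (D.JK sl ρ) (D.JYo sl ρ) n) := by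
  rw [SP, BS_eq]
  exact chX_mem_ZZ (D.j_isAct_JK sl ρ) Subset.rfl
    (fun p hp => Inj_anti (D.refines_lab0 _) n hp.2) hg

theorem j_coh_surj {sl : β → Λ} {ρ : β → ℕ} {bot : β → β} (hs : D.IsStr sl ρ bot) {n : ℕ}
    (hn : Fintype.card (β ⊕ τ) ≤ n) {k : ℤ} (hk : k < rng (β ⊕ τ) n)
    {w : Coch (Bor (D.JK sl ρ) D.act)} (hw : w ∈ ZZ ⊥ (D.SP (D.JK sl ρ) (D.JYo sl ρ) n))
    (hwk : HomC k w) : ∃ g ∈ Rinv (D.labr sl ρ),
      (g = 0 ∨ ∃ d : ℕ, k = 2 * (d : ℤ) ∧ g.IsHomogeneous d) ∧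
      w - chX (D.labr sl ρ) (D.JK sl ρ) D.act g n ∈ BB ⊥ (D.SP (D.JK sl ρ) (D.JYo sl ρ) n) := by
  obtain ⟨f1, f2, -, f4⟩ := D.JCoh_f hs n (rng (β ⊕ τ) n)
  obtain ⟨-, q1, q2, q3, -⟩ := D.JCoh_q hs hn
  obtain ⟨w₀, z0, hw₀, b0⟩ := q3 k hk _ (pb_mem_ZZ f1 f2 hw) (hwk.pb _)
  obtain ⟨r, hr, hrd, b1⟩ := (ch_surj (D.JCoh_ref sl bot) n hw₀).1 z0
  have b2 := pb_mem_BB q1 q2 b1
  rw [pb_sub] at b2
  rcases hrd with rfl | ⟨d, rfl, hrd⟩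
  · refine ⟨0, zero_mem _, Or.inl rfl, ?_⟩
    rw [chC_zero, pb_zero, sub_zero] at b2
    have b3 := add_mem b0 b2
    rw [sub_add_cancel] at b3
    rw [chX, chC_zero, pb_zero, sub_zero]
    exact f4 k hk w hw hwk b3
  · obtain ⟨g, hg, hgd, he⟩ := D.ev_onto hs hr hrd
    refine ⟨g, hg, Or.inr ⟨d, rfl, hgd⟩, ?_⟩
    have b3 := D.j_coh_id hs hn hk hg hgd hr hrd he
    refine f4 _ hk _ (sub_mem hw (D.JCoh_chX_ZZ sl ρ n hg))
      (JCoh_homC_sub hwk (chX_homC hgd n)) ?_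
    rw [pb_sub, pb_chX (D.j_isAct_JK sl ρ) Subset.rfl]
    refine (congrArg (· ∈ _) ?_).mp (sub_mem (add_mem b0 b2) b3)
    abel

theorem j_coh_ker {sl : β → Λ} {ρ : β → ℕ} {bot : β → β} (hs : D.IsStr sl ρ bot) {n : ℕ}
    (hn : Fintype.card (β ⊕ τ) ≤ n) {d : ℕ} (hd : 2 * (d : ℤ) < rng (β ⊕ τ) n)
    {g : MvPolynomial (β ⊕ τ) ℂ} (hg : g ∈ Rinv (D.labr sl ρ)) (hgd : g.IsHomogeneous d)
    (h0 : D.ev ρ bot g = 0) :
    chX (D.labr sl ρ) (D.JK sl ρ) D.act g n ∈ BB ⊥ (D.SP (D.JK sl ρ) (D.JYo sl ρ) n) := by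
  obtain ⟨-, -, -, f4⟩ := D.JCoh_f hs n (rng (β ⊕ τ) n)
  have b := D.j_coh_id hs hn hd hg hgd (zero_mem _) (MvPolynomial.isHomogeneous_zero _ _ d)
    (by rw [h0, map_zero])
  rw [chC_zero, pb_zero, sub_zero] at b
  refine f4 _ hd _ (D.JCoh_chX_ZZ sl ρ n hg) (chX_homC hgd n) ?_
  rwa [pb_chX (D.j_isAct_JK sl ρ) Subset.rfl]

end HD

end Pool.Agent.HK
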