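import Pool.Agent.P.MP_1206ce_ag.JO.Ind
import Pool.Agent.P.MP_1206ce_ag.JO.Coh

/-! Borel-Moore classes of a stratum. -/

open scoped Topology
open Filter Set

noncomputable section

namespace Pool.Agent.HK

namespace HD

variable {β I Ar τ Λ Λ' : Type} [Fintype β] [DecidableEq β] [Fintype I] [DecidableEq I] [Fintype Ar]
  [DecidableEq Ar] [Fintype τ] [DecidableEq τ] [DecidableEq Λ] [DecidableEq Λ'] (D : HD β I Ar τ)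

theorem JCls_rng (V : Type) [Fintype V] (k : ℤ) :
    ∀ᶠ n in atTop, Fintype.card V ≤ n ∧ k < rng V n := by
  filter_upwards [eventually_ge_atTop (k.toNat + 1 + Fintype.card V)] with n hn
  rw [rng]
  omega

theorem JCls_nice (sl : β → Λ) (ρ : β → ℕ) : Nice (Bor (D.JK sl ρ) D.act) :=
  D.nice_Bor (isGrp_KG _) (D.K_subset _)

theorem JCls_open (sl : β → Λ) (ρ : β → ℕ) (n : ℕ) :
    OpenIn (D.SP (D.JK sl ρ) (D.JYo sl ρ) n) (D.SP (D.JK sl ρ) (D.JY sl ρ) n) :=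
  D.openIn_SP (isGrp_KG _) (D.K_subset _) (D.invX_PY sl ρ) (D.j_openIn_JYo sl ρ) n

theorem JCls_ZZ (sl : β → Λ) (ρ : β → ℕ) (S : Set (UU β Ar)) (n : ℕ) {g : MvPolynomial (β ⊕ τ) ℂ}
    (hg : g ∈ Rinv (D.labr sl ρ)) :
    chX (D.labr sl ρ) (D.JK sl ρ) D.act g n ∈ ZZ ⊥ (D.SP (D.JK sl ρ) S n) := by
  rw [SP, BS_eq]
  exact chX_mem_ZZ (D.j_isAct_JK sl ρ) Subset.rfl
    (fun p hp => Inj_anti (D.refines_lab0 _) n hp.2) hg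

/-- Multiplication by an invariant on the open part of `Y_ρ`. -/
theorem JCls_mul (sl : β → Λ) (ρ : β → ℕ) (n : ℕ) {g : MvPolynomial (β ⊕ τ) ℂ}
    (hg : g ∈ Rinv (D.labr sl ρ)) (p : MvPolynomial (β ⊕ τ) ℂ) :
    fcl (D.JK sl ρ) D.act co D.chi D.lab0 (D.PY sl ρ) (g * p) n ∘ₗ
        ext (D.SP (D.JK sl ρ) (D.JYo sl ρ) n) (D.SP (D.JK sl ρ) (D.JY sl ρ) n) =
      (fcl (D.JK sl ρ) D.act co D.chi D.lab0 (D.PY sl ρ) p n ∘ₗ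
        ext (D.SP (D.JK sl ρ) (D.JYo sl ρ) n) (D.SP (D.JK sl ρ) (D.JY sl ρ) n)) ∘ₗ
      tw (D.SP (D.JK sl ρ) (D.JYo sl ρ) n) (D.SP (D.JK sl ρ) (D.JYo sl ρ) n) id
        (chX (D.labr sl ρ) (D.JK sl ρ) D.act g n) := by
  have := D.JCls_nice sl ρ
  have ho := D.JCls_open sl ρ n
  rw [fcl_mul (D.refines_lab0 _) D.amb (D.j_isAct_JK sl ρ) (TT_subset _) Subset.rfl
    (D.invX_PY sl ρ) hg p n, LinearMap.comp_assoc, LinearMap.comp_assoc,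
    tw_ext ((ClosedIn.refl _).properOn.twOK (D.JCls_ZZ sl ρ _ n hg)) ho
      (inter_eq_right.2 ho.subset).symm]

/-- The classes of a stratum are generated by the class of `Y_ρ`. -/
theorem j_gen {sl : β → Λ} {ρ : β → ℕ} (hρ : D.Decr sl ρ) {C : Set (UU β Ar)}
    (hC : D.JGood sl ρ C) (ho : OpenIn (D.JS sl ρ) C) (i : ℤ) :
    ∀ᶠ n in atTop, ∀ χ : EE (D.SP (D.K sl) (Zs (D.JS sl ρ)) n), EDeg _ (D0 (β ⊕ τ) n + i) χ →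
      ∃ g ∈ Rinv (D.labr sl ρ), (g = 0 ∨ ∃ d : ℕ, g.IsHomogeneous d ∧
        i = 2 * (D.PY sl ρ).card - 2 * (d + npos (D.labr sl ρ))) ∧
        χ = D.Jcl sl ρ C (g * D.Jtop sl ρ) n ∘ₗ
          ext (D.SP (D.K sl) (Zs (D.JS sl ρ)) n) (D.SP (D.K sl) (Zs C) n) := by
  have := D.JCls_nice sl ρ
  obtain ⟨bot, hs⟩ := D.exists_str hρ
  filter_upwards [JCls_rng (β ⊕ τ) (2 * ((D.PY sl ρ).card : ℤ) - 2 * npos (D.labr sl ρ) - i)]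
    with n hn χ hχ
  have hb := D.j_ind_bij hρ n
  obtain ⟨ψ, hψ, -⟩ := exists_unique_comp hb χ
  have hd := EDeg.of_tw ((D.j_proper sl ρ n).twOK (one_mem_ZZ _)) HomC.one hb.2 (hψ ▸ hχ)
  have hop := D.JCls_open sl ρ n
  have hK : D.JK sl ρ ⊆ KG D.lab0 := D.K_subset _
  have htop : (D.Jtop sl ρ).IsHomogeneous (npos (D.labr sl ρ)) :=
    degI_topI (D.labr sl ρ) ▸ xI_isHomogeneous _ _
  have hE : LocEuc (D.SP (D.JK sl ρ) (D.JYo sl ρ) n) :=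
    locEuc_BS_KG (D.j_isAct_JK sl ρ) (D.j_invX_JYo sl ρ) (D.j_locEuc_JYo sl ρ) (invF_Inj hK n)
      (openIn_Inj _ n) (Inj_anti (D.refines_lab0 _) n)
  obtain ⟨w, hw, hwk, he⟩ := pd_surj hE
    (EDeg.ext hop (fcl_deg D.amb (D.j_isAct_JK sl ρ) (TT_subset _) hK (D.invX_PY sl ρ) htop n))
    (LN.ext hop (amb_ln (D.refines_lab0 _) D.amb (D.j_isAct_JK sl ρ) (D.invX_PY sl ρ) n)) hd
  have e1 : D0 (β ⊕ τ) n + 2 * ((D.PY sl ρ).card : ℤ) - 2 * (npos (D.labr sl ρ) : ℤ) -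
      (D0 (β ⊕ τ) n + i + 0) = 2 * ((D.PY sl ρ).card : ℤ) - 2 * npos (D.labr sl ρ) - i := by ring
  rw [e1] at hwk
  obtain ⟨g, hg, hgd, hB⟩ := D.j_coh_surj hs hn.1 hn.2 hw hwk
  refine ⟨g, hg, hgd.imp id fun ⟨d, h1, h2⟩ => ⟨d, h2, by omega⟩, ?_⟩
  rw [D.j_cl_ext hC ho, D.JCls_mul sl ρ n hg, ← hψ, he,
    tw_congr_proper (ClosedIn.refl _).properOn hw (D.JCls_ZZ sl ρ _ n hg) hB]

theorem j_ker {sl : β → Λ} {ρ : β → ℕ} {bot : β → β} (hs : D.IsStr sl ρ bot) {C : Set (UU β Ar)}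
    (hC : D.JGood sl ρ C) (ho : OpenIn (D.JS sl ρ) C) (d : ℕ) :
    ∀ᶠ n in atTop, ∀ g ∈ Rinv (D.labr sl ρ), g.IsHomogeneous d → D.ev ρ bot g = 0 →
      D.Jcl sl ρ C (g * D.Jtop sl ρ) n ∘ₗ
        ext (D.SP (D.K sl) (Zs (D.JS sl ρ)) n) (D.SP (D.K sl) (Zs C) n) = 0 := by
  filter_upwards [JCls_rng (β ⊕ τ) (2 * (d : ℤ))] with n hn g hg hd h0
  have hB := D.j_coh_ker hs hn.1 hn.2 hg hd h0
  have hp := (ClosedIn.refl (D.SP (D.JK sl ρ) (D.JYo sl ρ) n)).properOn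
  have h1 := (tw_smul (hp.twOK (one_mem_ZZ _)) 0).2
  rw [zero_smul, zero_smul] at h1
  rw [D.j_cl_ext hC ho, D.JCls_mul sl ρ n hg,
    tw_congr_proper hp (D.JCls_ZZ sl ρ _ n hg) (zero_mem _) (by rwa [sub_zero]), h1,
    LinearMap.comp_zero, LinearMap.zero_comp]

end HD

end Pool.Agent.HK
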