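import Pool.Agent.P.MP_1206ce_ag.HG.Stab
import Pool.Agent.P.MP_1206ce_ag.AH.EV

/-! The Jordan stratification: definitions. -/

open scoped Topology
open Filter Set

noncomputable section

namespace Pool.Agent.HK

section lin

variable {β Λ : Type} [Fintype β] [DecidableEq β]

/-- The flag of a level function: vectors supported on the levels below `m`. -/
def JFl (ρ : β → ℕ) (m : ℕ) : Submodule ℂ (β → ℂ) := Submodule.pi {k | m ≤ ρ k} fun _ => ⊥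

omit [Fintype β] [DecidableEq β] in
theorem mem_JFl {ρ : β → ℕ} {m : ℕ} {z : β → ℂ} : z ∈ JFl ρ m ↔ ∀ k, m ≤ ρ k → z k = 0 := by
  simp [JFl, Submodule.mem_pi]

/-- Block diagonal matrices that lower the level. -/
def JNr (lb : β → Λ) (ρ : β → ℕ) : Set (Matrix β β ℂ) :=
  {a | ∀ l k, a l k ≠ 0 → lb l = lb k ∧ ρ l < ρ k}

/-- Those whose kernel flag is the flag of `ρ`. -/
def JNo (lb : β → Λ) (ρ : β → ℕ) : Set (Matrix β β ℂ) :=
  {a | a ∈ JNr lb ρ ∧ ∀ m z, a.mulVec z ∈ JFl ρ m → z ∈ JFl ρ (m + 1)}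

/-- Conjugates of `JNr`. -/
def JCN (lb : β → Λ) (ρ : β → ℕ) : Set (Matrix β β ℂ) :=
  {a | ∃ g ∈ KG lb, g * a * star g ∈ JNr lb ρ}

/-- Conjugates of `JNo`. -/
def JCO (lb : β → Λ) (ρ : β → ℕ) : Set (Matrix β β ℂ) :=
  {a | ∃ g ∈ KG lb, g * a * star g ∈ JNo lb ρ}

/-- The part that lowers the level by one. -/
def Jsub (ρ : β → ℕ) (a : Matrix β β ℂ) : Matrix β β ℂ :=
  Matrix.of fun l k => if ρ k = ρ l + 1 then a l k else 0

/-- The projection to level zero. -/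
def JE0 (ρ : β → ℕ) : Matrix β β ℂ := Matrix.diagonal fun k => if ρ k = 0 then 1 else 0

/-- The Gram matrix of the level maps, completed by the identity on level zero. -/
def JP (ρ : β → ℕ) (a : Matrix β β ℂ) : Matrix β β ℂ := star (Jsub ρ a) * Jsub ρ a + JE0 ρ

/-- The standard nilpotent matrix of a system of strings. -/
def Ja0 (ρ : β → ℕ) (bot : β → β) : Matrix β β ℂ :=
  Matrix.of fun l k => if bot l = bot k ∧ ρ k = ρ l + 1 then 1 else 0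

end lin

namespace HD

variable {β I Ar τ Λ Λ' : Type} [Fintype β] [DecidableEq β] [Fintype I] [DecidableEq I] [Fintype Ar]
  [DecidableEq Ar] [Fintype τ] [DecidableEq τ] [DecidableEq Λ] [DecidableEq Λ'] (D : HD β I Ar τ)

/-- Vertex and slot. -/
abbrev Jlb (sl : β → Λ) : β → I × Λ := fun k => (D.v k, sl k)

/-- The closed sets of the filtration. -/
def JC (sl : β → Λ) (kr : (β → ℕ) → ℕ) (c : ℕ) : Set (UU β Ar) :=
  {x | x ∈ D.U sl ∧ ∃ ρ, D.Decr sl ρ ∧ kr ρ < c ∧ x none ∈ JCN (D.Jlb sl) ρ}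

/-- The stratum of type `ρ`. -/
def JS (sl : β → Λ) (ρ : β → ℕ) : Set (UU β Ar) := {x | x ∈ D.U sl ∧ x none ∈ JCO (D.Jlb sl) ρ}

/-- `Y_ρ`. -/
abbrev JY (sl : β → Λ) (ρ : β → ℕ) : Set (UU β Ar) := LinS co (D.PY sl ρ)

/-- `K_ρ`. -/
abbrev JK (sl : β → Λ) (ρ : β → ℕ) : Set (Matrix (β ⊕ τ) (β ⊕ τ) ℂ) := KG (D.labr sl ρ)

/-- The open part of `Y_ρ`. -/
def JYo (sl : β → Λ) (ρ : β → ℕ) : Set (UU β Ar) :=
  {x | x ∈ D.JY sl ρ ∧ x none ∈ JNo (D.Jlb sl) ρ}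

/-- Its saturation. -/
def JKY (sl : β → Λ) (ρ : β → ℕ) : Set (UU β Ar) :=
  {x | ∃ u ∈ D.K sl, ∃ y ∈ D.JYo sl ρ, x = D.act u y}

/-- The loop lowers the level by one and is isometric off level zero; the other arrows vanish. -/
def JOr (sl : β → Λ) (ρ : β → ℕ) : Set (UU β Ar) :=
  {x | (∀ γ, x (some γ) = 0) ∧ x none ∈ JNr (D.Jlb sl) ρ ∧ Jsub ρ (x none) = x none ∧
    JP ρ (x none) = 1}

/-- The base point. -/
def Jx0 (Ar : Type) (ρ : β → ℕ) (bot : β → β) : UU β Ar := fun γ => γ.elim (Ja0 ρ bot) fun _ => 0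

/-- Its stabiliser. -/
def JL (sl : β → Λ) (ρ : β → ℕ) (bot : β → β) : Set (Matrix (β ⊕ τ) (β ⊕ τ) ℂ) :=
  {u | u ∈ D.JK sl ρ ∧ D.act u (Jx0 Ar ρ bot) = Jx0 Ar ρ bot}

/-- The inclusion of the bottoms of the strings and the torus variables. -/
abbrev Jib (τ : Type) (bot : β → β) : {k // bot k = k} ⊕ τ → β ⊕ τ := Sum.map Subtype.val id

/-- The characters of the stabiliser torus: `x_k = x_{bot k} - ρ(k) ħ`. -/
def Jchi (ρ : β → ℕ) (bot : β → β) : β ⊕ τ → β ⊕ τ → ℤ :=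
  Sum.elim (fun k => Pi.single (Sum.inl (bot k)) 1 - (ρ k : ℤ) • Pi.single (Sum.inr D.hh) 1)
    fun a => Pi.single (Sum.inr a) 1

/-- Closed invariant sets that carry the class of `Y_ρ`. -/
structure JGood (sl : β → Λ) (ρ : β → ℕ) (C : Set (UU β Ar)) : Prop where
  closed : IsClosed C
  inv : InvX (D.K sl) D.act C
  sub : C ⊆ D.U sl
  sup : D.JY sl ρ ⊆ Zs C

/-- The push-forward of `p [Y_ρ]`. -/
def Jcl (sl : β → Λ) (ρ : β → ℕ) (C : Set (UU β Ar)) (p : MvPolynomial (β ⊕ τ) ℂ) (n : ℕ) :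
    EE (D.SP (D.K sl) (Zs C) n) :=
  fcl (D.JK sl ρ) D.act co D.chi D.lab0 (D.PY sl ρ) p n ∘ₗ
    tw (D.SP (D.K sl) (Zs C) n) (D.SP (D.JK sl ρ) (D.JY sl ρ) n) (bmap (D.K sl) D.act id id) HK.one

/-- The Euler class of the normal space of `Y_ρ`. -/
def JE (sl : β → Λ) (ρ : β → ℕ) : MvPolynomial (β ⊕ τ) ℂ :=
  ∏ p ∈ D.PU sl \ D.PY sl ρ, linF (D.chi p)

/-- The top Artin monomial of `K_ρ`. -/
abbrev Jtop (sl : β → Λ) (ρ : β → ℕ) : MvPolynomial (β ⊕ τ) ℂ :=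
  xI (D.labr sl ρ) (topI (D.labr sl ρ))

/-- The Jordan statement for a closed invariant part `C`. -/
structure JTc (sl : β → Λ) (C : Set (UU β Ar)) (Y : Submodule ℂ (MvPolynomial (β ⊕ τ) ℂ)) :
    Prop where
  inj : ∀ i : ℤ, ∀ᶠ n in atTop, ∀ ψ : EE (D.SP (D.K sl) (Zs C) n),
    EDeg _ (D0 (β ⊕ τ) n + i) ψ →
      ψ ∘ₗ res (D.SP (D.K sl) (D.U sl) n) (D.SP (D.K sl) (Zs C) n) = 0 → ψ = 0
  img : ∀ d : ℕ, ∀ᶠ n in atTop, ∀ f : MvPolynomial (β ⊕ τ) ℂ, f.IsHomogeneous d →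
    ((∃ ψ : EE (D.SP (D.K sl) (Zs C) n),
      EDeg _ (D0 (β ⊕ τ) n + 2 * (D.PU sl).card - 2 * d) ψ ∧
        ψ ∘ₗ res (D.SP (D.K sl) (D.U sl) n) (D.SP (D.K sl) (Zs C) n) = D.aU sl f n) ↔
      ∃ y ∈ Y, Alt (D.lab sl) f = D.hb ^ Fintype.card β * y)

end HD

end Pool.Agent.HK
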