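import Pool.Agent.P.MP_1206ce_ag.JO.Defs

/-! Three general comparisons of Borel quotients. -/

open scoped Topology
open Filter Set

noncomputable section

namespace Pool.Agent.HK

variable {V V' Λ₀ X : Type} [Fintype V] [DecidableEq V] [Fintype V'] [DecidableEq V']
  [TopologicalSpace X]

/-- An equivariant deformation retraction. -/
theorem j_isoBelow_retract [Nice X] {L : Set (Matrix V V ℂ)} {act : Matrix V V ℂ → X → X}
    (h : IsAct L act) {S S₀ : Set X} (hS : InvX L act S) (hS₀ : InvX L act S₀) (hs : S₀ ⊆ S)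
    (hl : LC S) {E : Set (Fr V)} (hE : InvF L E) (hlE : LC E) {H : X × ℝ → X}
    (hc : ContinuousOn H (S ×ˢ Icc 0 1)) (hm : MapsTo H (S ×ˢ Icc 0 1) S)
    (h0 : ∀ x ∈ S, H (x, 0) = x ∧ H (x, 1) ∈ S₀) (h1 : ∀ x ∈ S₀, H (x, 1) = x)
    (he : ∀ u ∈ L, ∀ x ∈ S, ∀ s ∈ Icc (0 : ℝ) 1, H (act u x, s) = act u (H (x, s))) (c : ℤ) :
    IsoBelow c id (BS L act S₀ E) (BS L act S E) := by
  have := h.nice
  have hP : Inv L act (S ×ˢ E) := Inv.prod hS hE
  have b0 : MapsTo (fun z : (X × Fr V) × ℝ => (z.1.1, z.2)) ((S ×ˢ E) ×ˢ Icc 0 1)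
      (S ×ˢ Icc 0 1) := fun z hz => ⟨hz.1.1, hz.2⟩
  obtain ⟨K, k1, k2, k3⟩ := Frames_hty h hP (G := fun z => (H (z.1.1, z.2), z.1.2))
    ((hc.comp (Continuous.continuousOn (by fun_prop)) b0).prodMk
      (continuous_snd.comp continuous_fst).continuousOn)
    (fun z hz => ⟨hm (b0 hz), hz.1.2⟩)
    (fun u hu p hp s hs => Prod.ext (he u hu p.1 hp.1 s hs) rfl)
  have i1 : (1 : ℝ) ∈ Icc (0 : ℝ) 1 := right_mem_Icc.2 zero_le_one
  have i0 : (0 : ℝ) ∈ Icc (0 : ℝ) 1 := left_mem_Icc.2 zero_le_one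
  rw [BS_eq, BS_eq]
  refine Frames_iso_section c (h.lc_BI hP (hl.prod hlE)) (f := fun q => K (q, 1))
    (k1.comp (Continuous.continuousOn (by fun_prop)) fun q hq => ⟨hq, i1⟩) ?_ continuousOn_id
    (BI_mono (prod_mono hs Subset.rfl)) ?_ k1 k2 ?_ (fun _ _ => rfl)
  · rintro _ ⟨p, hp, rfl⟩
    show K (bmk L act p, 1) ∈ _
    rw [k3 p hp 1 i1]
    exact mem_image_of_mem _ ⟨(h0 p.1 hp.1).2, hp.2⟩
  · rintro _ ⟨p, hp, rfl⟩
    show K (bmk L act p, 1) = _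
    rw [k3 p ⟨hs hp.1, hp.2⟩ 1 i1]
    simp only [h1 p.1 hp.1]
  · rintro _ ⟨p, hp, rfl⟩
    rw [k3 p hp 0 i0]
    simp only [(h0 p.1 hp.1).1]

/-- An orbit. -/
theorem j_isoBelow_orbit [Nice X] {L L₀ : Set (Matrix V V ℂ)} {act : Matrix V V ℂ → X → X}
    (h : IsAct L act) {S : Set X} (hS : InvX L act S) {x₀ : X} (hx : x₀ ∈ S)
    (ht : ∀ x ∈ S, ∃ u ∈ L, x = act u x₀) (h₀ : IsGrp L₀)
    (hL : ∀ u, u ∈ L₀ ↔ u ∈ L ∧ act u x₀ = x₀) {E : Set (Fr V)} (hE : InvF L E) (hlE : LC E)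
    (c : ℤ) : IsoBelow c (bmap L act (fun _ => x₀) id : Bor L₀ (ptAct (V := V)) → Bor L act)
      (BS L₀ ptAct univ E) (BS L act S E) := by
  have := h.nice
  have hs : L₀ ⊆ L := fun u hu => ((hL u).1 hu).1
  have hpt := isAct_pt (V := V) h₀
  have hP : Inv L act (S ×ˢ E) := Inv.prod hS hE
  have hP' : Inv L₀ ptAct ((univ : Set Unit) ×ˢ E) :=
    Inv.prod (fun _ _ _ _ => mem_univ _) fun u hu => hE u (hs hu)
  have hF : EqvOn L₀ ptAct L act univ (Prod.map (fun _ : Unit => x₀) id) :=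
    EqvOn.of_map hs fun u hu _ _ => ((hL u).1 hu).2.symm
  have hb : ∀ e, (bmap L act (fun _ => x₀) id : Bor L₀ (ptAct (V := V)) → Bor L act)
      (bmk L₀ ptAct ((), e)) = bmk L act (x₀, e) := fun e => hpt.bmp_bmk hF (mem_univ _)
  have hcF : Continuous (Prod.map (fun _ : Unit => x₀) id : Unit × Fr V → X × Fr V) :=
    continuous_const.prodMap continuous_id
  have hemb : Topology.IsClosedEmbedding
      (Prod.map (fun _ : Unit => x₀) id : Unit × Fr V → X × Fr V) :=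
    Function.LeftInverse.isClosedEmbedding (f := fun p : X × Fr V => ((), p.2)) (fun _ => rfl)
      (by fun_prop) hcF
  have hpr : ProperOn (Prod.map (fun _ : Unit => x₀) id) ((univ : Set Unit) ×ˢ E) (S ×ˢ E) := by
    refine ⟨hcF.continuousOn, fun p hp => ⟨hx, hp.2⟩, fun C hC hCS => ?_⟩
    have h1 : Prod.map (fun _ : Unit => x₀) id ⁻¹' C ⊆ (univ : Set Unit) ×ˢ E :=
      fun p hp => ⟨mem_univ _, (hCS hp).2⟩
    rw [inter_eq_right.2 h1]
    exact hemb.isCompact_preimage hC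
  have hSc : IsCompact S := by
    have h1 : S = (fun u => act u x₀) '' L :=
      Subset.antisymm (fun x hx => by
        obtain ⟨u, hu, rfl⟩ := ht x hx
        exact ⟨u, hu, rfl⟩) (by
        rintro _ ⟨u, hu, rfl⟩
        exact hS u hu x₀ hx)
    rw [h1]
    exact h.grp.isCompact.image_of_continuousOn (h.cont.comp (f := fun u => (u, x₀))
      (Continuous.continuousOn (by fun_prop)) fun u hu => ⟨hu, mem_univ _⟩)
  have hp := hpt.properOn_bmp h hP' hP (hF.mono (subset_univ _)) hpr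
  have : Nonempty (Bor L₀ (ptAct (V := V))) := ⟨bmk _ _ ((), 0)⟩
  rw [BS_eq, BS_eq]
  obtain ⟨g, hg⟩ := hp.exists_homeoOn (h.lc_BI hP ((LC.of_isCompact hSc).prod hlE))
    ⟨hp.2.1, by
      rintro _ ⟨⟨⟨⟩, e⟩, -, rfl⟩ _ ⟨⟨⟨⟩, e'⟩, -, rfl⟩ hq
      obtain ⟨u, hu, h2⟩ := h.bmk_eq_iff.1 ((hb e).symm.trans (hq.trans (hb e')))
      have h3 : u ∈ L₀ := (hL u).2 ⟨hu, (congrArg Prod.fst h2).symm⟩
      have h4 : e' = frAct u e := congrArg Prod.snd h2
      exact hpt.bmk_eq_iff.2 ⟨u, h3, Prod.ext rfl h4⟩, by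
      rintro _ ⟨⟨x, e⟩, hq, rfl⟩
      obtain ⟨u, hu, h2⟩ := ht x hq.1
      refine ⟨_, ⟨((), frAct (star u) e), ⟨mem_univ _, hE _ (h.grp.star u hu) e hq.2⟩, rfl⟩,
        (hb _).trans (h.bmk_eq_iff.2 ⟨u, hu, Prod.ext h2 ?_⟩)⟩
      change e = frAct u (frAct (star u) e)
      rw [← frAct_mul, h.grp.mul_star hu, frAct_one]⟩
  exact hg.isoBelow c

theorem JGen_restr {ι : V' → V} (hι : Function.Injective ι) {u : Matrix V V ℂ}
    (h1 : ∀ k l, l ∉ Set.range ι → u (ι k) l = 0) (e : Fr V) :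
    (fun j k => frAct u e j (ι k)) = frAct (u.submatrix ι ι) fun j k => e j (ι k) := by
  funext j k
  simp only [frAct, Matrix.vecMul, dotProduct]
  rw [Ch_sum_inj hι]
  · rfl
  · intro x hx
    rw [Matrix.star_apply, h1 k x hx, star_zero, mul_zero]

/-- Forgetting columns when the group is determined by its action on the remaining ones. -/
theorem j_isoBelow_restr {lab₀ : V → Λ₀} {ι : V' → V} (hι : Function.Injective ι)
    {L : Set (Matrix V V ℂ)} {L' : Set (Matrix V' V' ℂ)} (hL : IsGrp L) (hL' : IsGrp L')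
    (hs : L ⊆ KG lab₀) (hs' : L' ⊆ KG fun k => lab₀ (ι k))
    (h1 : ∀ u ∈ L, ∀ k l, l ∉ Set.range ι → u (ι k) l = 0)
    (h2 : ∀ u ∈ L, u.submatrix ι ι ∈ L') (h3 : ∀ u' ∈ L', ∃ u ∈ L, u.submatrix ι ι = u')
    (h4 : ∀ u ∈ L, u.submatrix ι ι = 1 → u = 1) {n : ℕ} (hn : Fintype.card V ≤ n) :
    (∀ e, (bmap L' ptAct (fun _ => ()) (fun e j k => e j (ι k)) :
      Bor L (ptAct (V := V)) → Bor L' (ptAct (V := V'))) (bmk L ptAct ((), e)) =
        bmk L' ptAct ((), fun j k => e j (ι k))) ∧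
    IsoBelow (rng V n) (bmap L' ptAct (fun _ => ()) (fun e j k => e j (ι k)) :
      Bor L (ptAct (V := V)) → Bor L' (ptAct (V := V')))
      (BS L ptAct univ (St lab₀ n)) (BS L' ptAct univ (St (fun k => lab₀ (ι k)) n)) := by
  have ha := isAct_pt (V := V) hL
  have ha' := isAct_pt (V := V') hL'
  have := ha.nice
  have := ha'.nice
  have hF : EqvOn L (ptAct (V := V)) L' (ptAct (V := V')) univ
      (Prod.map (fun _ => ()) fun e j k => e j (ι k)) := fun u hu p _ =>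
    ⟨_, h2 u hu, Prod.ext rfl (JGen_restr hι (h1 u hu) p.2)⟩
  refine ⟨fun e => ha.bmp_bmk hF (mem_univ _), ?_⟩
  have hP : Inv L (ptAct (V := V)) ((univ : Set Unit) ×ˢ St lab₀ n) :=
    Inv.prod (fun _ _ _ _ => mem_univ _) (invF_St hs n)
  have hcF := (Ch_cont_restr (X := Unit) ι).continuousOn (s := univ ×ˢ St lab₀ n)
  have hm : MapsTo (Prod.map (fun _ : Unit => ()) fun (e : Fr V) j k => e j (ι k))
      (univ ×ˢ St lab₀ n) (univ ×ˢ St (fun k => lab₀ (ι k)) n) := fun p hp =>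
    ⟨mem_univ _, fun j hj => funext fun k => congrFun (hp.2.1 j hj) (ι k), fun k l hkl => by
      have h5 := hp.2.2 (ι k) (ι l) hkl
      simp only [hι.eq_iff] at h5
      exact h5⟩
  have c1 : IsCompact (BS L (ptAct (V := V)) univ (St lab₀ n)) :=
    Ch_compact_BS (isCompact_St _ n)
  have c2 : IsCompact (BS L' (ptAct (V := V')) univ (St (fun k => lab₀ (ι k)) n)) :=
    Ch_compact_BS (isCompact_St _ n)
  rw [BS_eq] at c1 c2
  rw [BS_eq, BS_eq, bmap_eq_bmp]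
  refine isoBelow_of_vb (LC.of_isCompact c2) (LC.of_isCompact c1) (ProperOn.of_isCompact c1
    (ha.continuousOn_bmp hP (hF.mono (subset_univ _)) hcF)
    (ha.mapsTo_bmp (hF.mono (subset_univ _)) hm)) ?_
  rintro _ ⟨⟨⟨⟩, e'⟩, ⟨-, he'⟩, rfl⟩
  obtain ⟨g, hg⟩ := ha.fibre_bmp ha' hP (hF.mono (subset_univ _)) hcF ((), e') (by
    intro p _ u' hu' h5
    obtain ⟨u, hu, h6⟩ := h3 _ (hL'.star u' hu')
    refine ⟨u, hu, Prod.ext rfl ?_⟩
    have h7 : (fun j k => p.2 j (ι k)) = frAct u' e' := congrArg Prod.snd h5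
    refine (JGen_restr hι (h1 u hu) p.2).trans ?_
    rw [h7, h6, ← frAct_mul, hL'.star_mul hu', frAct_one]) (by
    intro p _ u hu h5 h6
    have h7 : (fun j k => p.2 j (ι k)) = e' := congrArg Prod.snd h5
    have h8 : (fun j k => frAct u p.2 j (ι k)) = e' := congrArg Prod.snd h6
    rw [JGen_restr hι (h1 u hu), h7] at h8
    rw [h4 u hu (freeOn_Inj hs' n _ (h2 u hu) e' (St_subset_Inj _ n he') h8), ha.bact_one])
  refine AcycBelow.of_homeoOn hg.symm ?_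
  obtain ⟨e₀, he₀, h5⟩ := exists_completion lab₀ hn (Set.range ι)
    (e₁ := fun j => Function.extend ι (e' j) 0) (by
      rintro _ ⟨k, rfl⟩ j hj
      rw [hι.extend_apply]
      exact congrFun (he'.1 j hj) k) (by
      rintro _ ⟨k, rfl⟩ _ ⟨l, rfl⟩ hkl
      simp only [hι.extend_apply, hι.eq_iff]
      exact he'.2 k l hkl)
  have h6 : ∀ k j, e₀ j (ι k) = e' j k := fun k j =>
    (h5 _ ⟨k, rfl⟩ j).trans (hι.extend_apply _ _ _)
  refine AcycBelow.of_homeoOn (f := Prod.snd) (g := fun e => ((), e))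
    ⟨continuousOn_snd, Continuous.continuousOn (by fun_prop), fun p hp => ?_,
      fun e he => ⟨⟨mem_univ _, he.1⟩, Prod.ext rfl ?_⟩, fun _ _ => rfl, fun _ _ => rfl⟩
    (acyc_completion lab₀ n (Set.range ι) he₀)
  · refine ⟨hp.1.2, ?_⟩
    rintro _ ⟨k, rfl⟩ j
    have h7 : (fun j k => p.2 j (ι k)) = e' := congrArg Prod.snd hp.2
    exact (congrFun (congrFun h7 j) k).trans (h6 k j).symm
  · funext j k
    exact (he.2 _ ⟨k, rfl⟩ j).trans (h6 k j)

end Pool.Agent.HK
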