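import Pool.Agent.P.MP_1206ce_ag.JO.Van

/-! Induction from the group of a level function; the classes of `Y_ρ`. -/

open scoped Topology
open Filter Set

noncomputable section

namespace Pool.Agent.HK

namespace HD

variable {β I Ar τ Λ Λ' : Type} [Fintype β] [DecidableEq β] [Fintype I] [DecidableEq I] [Fintype Ar]
  [DecidableEq Ar] [Fintype τ] [DecidableEq τ] [DecidableEq Λ] [DecidableEq Λ'] (D : HD β I Ar τ)

set_option linter.unusedSectionVars false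

theorem JInd_sub1 (sl : β → Λ) (ρ : β → ℕ) : D.JK sl ρ ⊆ D.K (one β) :=
  (D.j_JK_subset sl ρ).trans (D.K_subset sl)

theorem JInd_proper {sl : β → Λ} {ρ : β → ℕ} {S T : Set (UU β Ar)}
    (hS : InvX (D.K sl) D.act S) (hT : InvX (D.JK sl ρ) D.act T) (hc : ClosedIn T S) (n : ℕ) :
    ProperOn (bmap (D.K sl) D.act id id : Bor (D.JK sl ρ) D.act → Bor (D.K sl) D.act)
      (D.SP (D.JK sl ρ) T n) (D.SP (D.K sl) S n) := by
  rw [SP, SP, BS_eq, BS_eq]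
  refine (D.isAct_K sl).ind_proper (isGrp_KG _) (D.j_JK_subset sl ρ)
    (D.inv_SP (D.K_subset sl) hS n) (D.inv_SP (D.JInd_sub1 sl ρ) hT n) ?_
  obtain ⟨F, hF, rfl⟩ := hc
  refine ⟨F ×ˢ univ, hF.prod isClosed_univ, ?_⟩
  rw [prod_inter_prod, inter_univ]

theorem JInd_inter {sl : β → Λ} (ρ : β → ℕ) {S : Set (UU β Ar)} (T : Set (UU β Ar))
    (hS : InvX (D.K sl) D.act S) (n : ℕ) :
    D.SP (D.JK sl ρ) T n ∩
      (bmap (D.K sl) D.act id id : Bor (D.JK sl ρ) D.act → Bor (D.K sl) D.act) ⁻¹'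
        D.SP (D.K sl) S n = D.SP (D.JK sl ρ) (T ∩ S) n := by
  rw [SP, SP, SP, BS_eq, BS_eq, BS_eq, bmap_eq_bmp,
    (D.j_isAct_JK sl ρ).inter_preimage_bmp (D.isAct_K sl) (D.inv_SP (D.K_subset sl) hS n)
      (EqvOn.of_map (D.j_JK_subset sl ρ) fun _ _ _ _ => rfl)]
  congr 1
  ext p
  simp only [Set.mem_inter_iff, Set.mem_prod, Set.mem_preimage, Prod.map_fst, Prod.map_snd, id]
  tauto

theorem JInd_closed_JYo (sl : β → Λ) (ρ : β → ℕ) : ClosedIn (D.JYo sl ρ) (Zs (D.JS sl ρ)) :=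
  ⟨D.JY sl ρ, D.amb.isClosed _, by rw [inter_comm, D.j_JY_inter]⟩

theorem JInd_one_one {Y : Type} : cup (HK.one : Coch Y) HK.one = HK.one :=
  one_cup (if_neg (by simp))

/-- Composition of a restriction with a proper pull-back. -/
theorem JInd_comp {Y Y' : Type} [TopologicalSpace Y] [TopologicalSpace Y'] {A B : Set Y}
    {A' : Set Y'} {π : Y' → Y} (hB : ClosedIn B A) (hπ : ProperOn π A' B) :
    tw B A' π HK.one ∘ₗ res A B = tw A A' π HK.one := by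
  rw [tw_comp (hB.properOn.twOK (one_mem_ZZ _)) (hπ.twOK (one_mem_ZZ _)), pb_one, JInd_one_one]
  rfl

theorem JInd_BI (sl : β → Λ) (ρ : β → ℕ) (n : ℕ) :
    BI (D.K sl) D.act (D.JYo sl ρ ×ˢ Inj D.lab0 n) =
      BI (D.K sl) D.act (D.JKY sl ρ ×ˢ Inj D.lab0 n) := by
  have hA := D.isAct_K sl
  refine Subset.antisymm (BI_mono (prod_mono (fun y hy => ?_) Subset.rfl)) ?_
  · exact ⟨1, hA.grp.one, y, hy, (hA.one y).symm⟩
  · rintro _ ⟨⟨x, e⟩, ⟨⟨u, hu, y, hy, hx⟩, he⟩, rfl⟩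
    have hu' := hA.grp.star u hu
    refine ⟨bact D.act (star u) (x, e), ⟨?_, invF_Inj (D.K_subset sl) n _ hu' e he⟩,
      bmk_bact hu' _⟩
    have h1 : D.act (star u) x = y := by
      have hx' : x = D.act u y := hx
      rw [hx', ← hA.mul _ hu' _ hu, hA.grp.star_mul hu, hA.one]
    show D.act (star u) x ∈ D.JYo sl ρ
    rwa [h1]

theorem JInd_good_proper {sl : β → Λ} {ρ : β → ℕ} {C : Set (UU β Ar)} (hC : D.JGood sl ρ C)
    (n : ℕ) :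
    ProperOn (bmap (D.K sl) D.act id id : Bor (D.JK sl ρ) D.act → Bor (D.K sl) D.act)
      (D.SP (D.JK sl ρ) (D.JY sl ρ) n) (D.SP (D.K sl) (Zs C) n) :=
  D.JInd_proper (D.invX_Zs (D.K_subset sl) hC.inv) (D.invX_PY sl ρ)
    ⟨_, D.amb.isClosed _, (inter_eq_right.2 hC.sup).symm⟩ n

theorem j_proper (sl : β → Λ) (ρ : β → ℕ) (n : ℕ) :
    ProperOn (bmap (D.K sl) D.act id id : Bor (D.JK sl ρ) D.act → Bor (D.K sl) D.act)
      (D.SP (D.JK sl ρ) (D.JYo sl ρ) n) (D.SP (D.K sl) (Zs (D.JS sl ρ)) n) :=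
  D.JInd_proper (D.invX_Zs (D.K_subset sl) (D.j_invX_JS sl ρ)) (D.j_invX_JYo sl ρ)
    (D.JInd_closed_JYo sl ρ) n
theorem j_SP_JYo (sl : β → Λ) (ρ : β → ℕ) (n : ℕ) :
    D.SP (D.JK sl ρ) (D.JYo sl ρ) n = D.SP (D.JK sl ρ) (D.JY sl ρ) n ∩
      (bmap (D.K sl) D.act id id : Bor (D.JK sl ρ) D.act → Bor (D.K sl) D.act) ⁻¹'
        D.SP (D.K sl) (Zs (D.JS sl ρ)) n := by
  rw [D.JInd_inter ρ _ (D.invX_Zs (D.K_subset sl) (D.j_invX_JS sl ρ)), D.j_JY_inter]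
theorem j_ind_bij {sl : β → Λ} {ρ : β → ℕ} (hρ : D.Decr sl ρ) (n : ℕ) :
    Function.Bijective (tw (D.SP (D.K sl) (Zs (D.JS sl ρ)) n) (D.SP (D.JK sl ρ) (D.JYo sl ρ) n)
      (bmap (D.K sl) D.act id id) HK.one) := by
  have : Nice (UU β Ar) := D.amb.nice
  have hA := D.isAct_K sl
  have hs := D.K_subset sl
  have := D.nice_Bor hA.grp hs
  have := D.nice_Bor (D.j_isAct_JK sl ρ).grp (D.JInd_sub1 sl ρ)
  have iS := D.invX_Zs hs (D.j_invX_JS sl ρ)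
  have iY := D.j_invX_JKY sl ρ
  have lS : LC (Zs (D.JS sl ρ)) := (D.j_lc_JS hρ).closedIn (closedIn_Zs _)
  have cY := D.j_closedIn_JKY sl ρ
  have cB := D.closedIn_SP hA.grp hs iS cY n
  have lA := D.lc_SP hA.grp hs iS lS n
  have hsub : D.JYo sl ρ ⊆ D.JKY sl ρ := fun y hy => ⟨1, hA.grp.one, y, hy, (hA.one y).symm⟩
  have hp := D.JInd_proper iY (D.j_invX_JYo sl ρ)
    ((D.JInd_closed_JYo sl ρ).of_subset hsub cY.subset) n
  have b1 := res_bijective lA cB (D.SP_diff hA.grp hs iY n)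
    (D.subsingleton_SP hA.grp hs (InvX.diff hA iS iY) (lS.openIn cY.diff) (D.j_vanish hρ) n)
  have b2 : Function.Bijective (tw (D.SP (D.K sl) (D.JKY sl ρ) n)
      (D.SP (D.JK sl ρ) (D.JYo sl ρ) n) (bmap (D.K sl) D.act id id) HK.one) := by
    refine hp.tw_bijective (lA.closedIn cB) ?_
    rw [SP, SP, BS_eq, BS_eq, ← D.JInd_BI]
    refine hA.ind_bijOn (isGrp_KG _) (D.j_JK_subset sl ρ) fun p hp u hu h => ⟨u, ?_, rfl⟩
    exact D.j_stab_JYo hu hp.1.2 h.1.2.1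
  rw [← JInd_comp cB hp, LinearMap.coe_comp]
  exact b2.comp b1
theorem j_cl_deg {sl : β → Λ} {ρ : β → ℕ} {C : Set (UU β Ar)} (hC : D.JGood sl ρ C)
    {p : MvPolynomial (β ⊕ τ) ℂ} {d : ℕ} (hp : p.IsHomogeneous d) (n : ℕ) :
    EDeg _ (D0 (β ⊕ τ) n + 2 * (D.PY sl ρ).card - 2 * d) (D.Jcl sl ρ C p n) := by
  have h := EDeg.tw ((D.JInd_good_proper hC n).twOK (one_mem_ZZ _)) HomC.one
    (fcl_deg D.amb (D.j_isAct_JK sl ρ) (TT_subset _) (D.JInd_sub1 sl ρ) (D.invX_PY sl ρ) hp n)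
  rwa [sub_zero] at h
theorem j_cl_zero (sl : β → Λ) (ρ : β → ℕ) (C : Set (UU β Ar)) (n : ℕ) :
    D.Jcl sl ρ C 0 n = 0 := by
  have h := fcl_smul (lab₀ := D.lab0) D.amb (D.j_isAct_JK sl ρ) (TT_subset _) (D.JInd_sub1 sl ρ)
    (D.invX_PY sl ρ) 0 0 n
  rw [zero_smul, zero_smul] at h
  rw [Jcl, h, LinearMap.zero_comp]
theorem j_cl_push {sl : β → Λ} {ρ : β → ℕ} {C : Set (UU β Ar)} (hC : D.JGood sl ρ C)
    (p : MvPolynomial (β ⊕ τ) ℂ) (n : ℕ) :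
    D.Jcl sl ρ C p n ∘ₗ res (D.SP (D.K sl) (D.U sl) n) (D.SP (D.K sl) (Zs C) n) =
      D.aU sl (p * D.JE sl ρ) n := by
  have hA := D.isAct_K sl
  have hs := D.K_subset sl
  have cC : ClosedIn (Zs C) (D.U sl) :=
    (closedIn_Zs _).trans ⟨_, hC.closed, (inter_eq_right.2 hC.sub).symm⟩
  rw [Jcl, LinearMap.comp_assoc, JInd_comp (D.closedIn_SP hA.grp hs (D.invX_U sl) cC n)
    (D.JInd_good_proper hC n)]
  exact fcl_push D.amb hA hs (isGrp_KG _) (TT_subset _) (D.j_JK_subset sl ρ)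
    (Finset.filter_subset _ _) (D.invX_U sl) (D.invX_PY sl ρ) p n
/-- Base change to the open stratum. -/
theorem j_cl_ext {sl : β → Λ} {ρ : β → ℕ} {C : Set (UU β Ar)} (hC : D.JGood sl ρ C)
    (ho : OpenIn (D.JS sl ρ) C) (p : MvPolynomial (β ⊕ τ) ℂ) (n : ℕ) :
    D.Jcl sl ρ C p n ∘ₗ ext (D.SP (D.K sl) (Zs (D.JS sl ρ)) n) (D.SP (D.K sl) (Zs C) n) =
      (fcl (D.JK sl ρ) D.act co D.chi D.lab0 (D.PY sl ρ) p n ∘ₗ
        ext (D.SP (D.JK sl ρ) (D.JYo sl ρ) n) (D.SP (D.JK sl ρ) (D.JY sl ρ) n)) ∘ₗ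
      tw (D.SP (D.K sl) (Zs (D.JS sl ρ)) n) (D.SP (D.JK sl ρ) (D.JYo sl ρ) n)
        (bmap (D.K sl) D.act id id) HK.one := by
  have : Nice (UU β Ar) := D.amb.nice
  have hA := D.isAct_K sl
  have hs := D.K_subset sl
  have := D.nice_Bor hA.grp hs
  have := D.nice_Bor (D.j_isAct_JK sl ρ).grp (D.JInd_sub1 sl ρ)
  rw [Jcl, LinearMap.comp_assoc, LinearMap.comp_assoc,
    tw_ext ((D.JInd_good_proper hC n).twOK (one_mem_ZZ _))
      (D.openIn_SP hA.grp hs (D.invX_Zs hs hC.inv) (Zs_openIn ho) n) (D.j_SP_JYo sl ρ n)]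
theorem j_aU_sub (sl : β → Λ) (p q : MvPolynomial (β ⊕ τ) ℂ) (n : ℕ) :
    D.aU sl (p - q) n = D.aU sl p n - D.aU sl q n := by
  have h := fcl_add (lab₀ := D.lab0) D.amb (D.isAct_K sl) (TT_subset _) (D.K_subset sl)
    (D.invX_U sl) (p - q) q n
  rw [sub_add_cancel] at h
  exact eq_sub_of_add_eq h.symm
theorem j_aU_zero (sl : β → Λ) (n : ℕ) : D.aU sl 0 n = 0 := by
  have h := D.j_aU_sub sl 0 0 n
  rwa [sub_self, sub_self] at h

end HD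

end Pool.Agent.HK
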