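import Pool.Agent.P.MP_1206ce_ag.JO.Defs

/-! Level lowering matrices with injective level maps. -/

open scoped Topology
open Filter Set

noncomputable section

namespace Pool.Agent.HK

variable {β Λ : Type} [Fintype β] [DecidableEq β] [DecidableEq Λ] {lb : β → Λ} {ρ ρ' : β → ℕ}
  {a g : Matrix β β ℂ}

set_option linter.unusedSectionVars false

theorem JNo_low (h : ∀ l k, a l k ≠ 0 → ρ l < ρ k) {m : ℕ} {z : β → ℂ}
    (hz : z ∈ JFl ρ (m + 1)) : a.mulVec z ∈ JFl ρ m := by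
  rw [mem_JFl] at hz ⊢
  intro l hl
  refine Finset.sum_eq_zero fun k _ => ?_
  by_cases h0 : a l k = 0
  · exact mul_eq_zero_of_left h0 _
  · have := h l k h0
    exact mul_eq_zero_of_right _ (hz k (by omega))

theorem JNo_keep (h : ∀ l k, g l k ≠ 0 → ρ l = ρ k) {m : ℕ} {z : β → ℂ}
    (hz : z ∈ JFl ρ m) : g.mulVec z ∈ JFl ρ m := by
  rw [mem_JFl] at hz ⊢
  intro l hl
  refine Finset.sum_eq_zero fun k _ => ?_
  by_cases h0 : g l k = 0
  · exact mul_eq_zero_of_left h0 _
  · have := h l k h0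
    exact mul_eq_zero_of_right _ (hz k (by omega))

theorem JNo_zero {z : β → ℂ} : z ∈ JFl ρ 0 ↔ z = 0 := by
  rw [mem_JFl]
  exact ⟨fun h => funext fun k => h k (Nat.zero_le _), fun h k _ => congrFun h k⟩

theorem JNo_star_ne {l k : β} (h : star g l k ≠ 0) : g k l ≠ 0 := by
  intro h0
  rw [Matrix.star_apply, h0, star_zero] at h
  exact h rfl

theorem JNo_sub_ne {l k : β} (h : Jsub ρ a l k ≠ 0) : ρ k = ρ l + 1 ∧ a l k ≠ 0 := by
  rw [Jsub, Matrix.of_apply] at h
  by_cases h1 : ρ k = ρ l + 1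
  · rw [if_pos h1] at h
    exact ⟨h1, h⟩
  · rw [if_neg h1] at h
    exact absurd rfl h

theorem j_Nr_mulVec (ha : a ∈ JNr lb ρ) {m : ℕ} {z : β → ℂ} (hz : z ∈ JFl ρ (m + 1)) :
    a.mulVec z ∈ JFl ρ m := JNo_low (fun l k h => (ha l k h).2) hz

theorem j_Nr_pow (ha : a ∈ JNr lb ρ) {m : ℕ} {z : β → ℂ} (hz : z ∈ JFl ρ m) :
    (a ^ m).mulVec z = 0 := by
  induction m generalizing z with
  | zero => rw [JNo_zero.1 hz, Matrix.mulVec_zero]
  | succ m ih => rw [pow_succ, ← Matrix.mulVec_mulVec, ih (j_Nr_mulVec ha hz)]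

theorem j_Nr_nilp (ha : a ∈ JNr lb ρ) : IsNilpotent a :=
  HD.Basic_nilp_of_lt fun l k h => (ha l k h).2

theorem j_isClosed_Nr (lb : β → Λ) (ρ : β → ℕ) : IsClosed (JNr lb ρ) := by
  have h : JNr lb ρ = ⋂ l, ⋂ k, ⋂ _ : ¬ (lb l = lb k ∧ ρ l < ρ k),
      {a : Matrix β β ℂ | a l k = 0} := by
    ext a
    simp only [mem_iInter, Set.mem_ofPred_eq]
    exact forall_congr' fun l => forall_congr' fun k => not_imp_comm
  rw [h]
  exact isClosed_iInter fun l => isClosed_iInter fun k => isClosed_iInter fun _ =>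
    isClosed_eq ((continuous_apply k).comp (continuous_apply l)) continuous_const

theorem j_ker_pow (ha : a ∈ JNo lb ρ) (m : ℕ) (z : β → ℂ) :
    (a ^ m).mulVec z = 0 ↔ z ∈ JFl ρ m := by
  refine ⟨fun h => ?_, j_Nr_pow ha.1⟩
  induction m generalizing z with
  | zero =>
    rw [pow_zero, Matrix.one_mulVec] at h
    exact JNo_zero.2 h
  | succ m ih =>
    rw [pow_succ, ← Matrix.mulVec_mulVec] at h
    exact ha.2 m z (ih _ h)

theorem j_mem_No_iff : a ∈ JNo lb ρ ↔ a ∈ JNr lb ρ ∧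
    ∀ z : β → ℂ, (∀ k, ρ k = 0 → z k = 0) → (Jsub ρ a).mulVec z = 0 → z = 0 := by
  refine and_congr_right fun ha => ⟨fun h z h0 hz => ?_, fun h m z hz => ?_⟩
  · funext k
    rcases hk : ρ k with _ | n
    · exact h0 k hk
    have h1 : (fun j => if ρ j = n + 1 then z j else 0) ∈ JFl ρ (n + 1 + 1) := by
      rw [mem_JFl]
      intro j hj
      rw [if_neg (by omega)]
    have h2 : a.mulVec (fun j => if ρ j = n + 1 then z j else 0) ∈ JFl ρ n := by
      have h3 := mem_JFl.1 (j_Nr_mulVec ha h1)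
      rw [mem_JFl]
      intro l hl
      rcases hl.eq_or_lt with he | hlt
      · refine Eq.trans ?_ (congrFun hz l)
        refine Finset.sum_congr rfl fun j _ => ?_
        simp only [Jsub, Matrix.of_apply, ← he]
        split_ifs <;> simp
      · exact h3 l hlt
    have h4 := mem_JFl.1 (h n _ h2) k hk.ge
    rwa [if_pos hk] at h4
  · have step : ∀ p, m + 1 ≤ p → z ∈ JFl ρ (p + 1) → z ∈ JFl ρ p := by
      intro p hp hzp
      rw [mem_JFl] at hz hzp ⊢
      have h1 : (fun j => if ρ j = p then z j else 0) = 0 := by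
        refine h _ (fun k hk => if_neg (by omega)) ?_
        funext l
        by_cases hl : ρ l + 1 = p
        · refine Eq.trans ?_ (hz l (by omega))
          refine Finset.sum_congr rfl fun j _ => ?_
          simp only [Jsub, Matrix.of_apply, hl]
          by_cases hj : ρ j = p
          · rw [if_pos hj, if_pos hj]
          · rw [if_neg hj, zero_mul]
            by_cases h0 : a l j = 0
            · rw [h0, zero_mul]
            · have := (ha l j h0).2
              rw [hzp j (by omega), mul_zero]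
        · refine Finset.sum_eq_zero fun j _ => ?_
          simp only [Jsub, Matrix.of_apply]
          by_cases hj : ρ j = p
          · rw [if_neg (by omega), zero_mul]
          · rw [if_neg hj, mul_zero]
      intro k hk
      rcases hk.eq_or_lt with he | hlt
      · have h2 := congrFun h1 k
        rwa [if_pos he.symm] at h2
      · exact hzp k hlt
    have down : ∀ n, z ∈ JFl ρ (m + 1 + n) → z ∈ JFl ρ (m + 1) := by
      intro n
      induction n with
      | zero => exact id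
      | succ n ih => exact fun hn => ih (step _ (by omega) hn)
    refine down (Finset.univ.sup ρ) (mem_JFl.2 fun k hk => ?_)
    have h3 : ρ k ≤ Finset.univ.sup ρ := Finset.le_sup (Finset.mem_univ k)
    omega

open scoped ComplexOrder in
theorem JNo_E0_psd (ρ : β → ℕ) : (JE0 ρ).PosSemidef := by
  rw [JE0, Matrix.posSemidef_diagonal_iff]
  intro k
  split_ifs
  · exact zero_le_one
  · exact le_rfl

open scoped ComplexOrder in
theorem JNo_gram_psd (s : Matrix β β ℂ) : (star s * s).PosSemidef :=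
  Matrix.posSemidef_conjTranspose_mul_self s

open scoped ComplexOrder in
theorem j_P_posSemidef (ρ : β → ℕ) (a : Matrix β β ℂ) : (JP ρ a).PosSemidef :=
  (JNo_gram_psd _).add (JNo_E0_psd ρ)

theorem JNo_E0_mulVec {z : β → ℂ} : (JE0 ρ).mulVec z = 0 ↔ ∀ k, ρ k = 0 → z k = 0 := by
  constructor
  · intro h k hk
    have h1 := congrFun h k
    rwa [JE0, Matrix.mulVec_diagonal, if_pos hk, one_mul] at h1
  · intro h
    funext k
    rw [JE0, Matrix.mulVec_diagonal]
    by_cases hk : ρ k = 0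
    · rw [h k hk, mul_zero]
      rfl
    · rw [if_neg hk, zero_mul]
      rfl

open scoped ComplexOrder in
theorem JNo_P_mulVec {z : β → ℂ} :
    (JP ρ a).mulVec z = 0 ↔ (∀ k, ρ k = 0 → z k = 0) ∧ (Jsub ρ a).mulVec z = 0 := by
  rw [JP, Matrix.add_mulVec, ← JNo_E0_mulVec]
  constructor
  · intro h
    have h1 := congrArg (fun w => star z ⬝ᵥ w) h
    simp only [dotProduct_add, dotProduct_zero] at h1
    have h2 := (add_eq_zero_iff_of_nonneg ((JNo_gram_psd (Jsub ρ a)).dotProduct_mulVec_nonneg z)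
      ((JNo_E0_psd ρ).dotProduct_mulVec_nonneg z)).1 h1
    exact ⟨((JNo_E0_psd ρ).dotProduct_mulVec_zero_iff z).1 h2.2,
      (Matrix.conjTranspose_mul_self_mulVec_eq_zero _ z).1
        (((JNo_gram_psd (Jsub ρ a)).dotProduct_mulVec_zero_iff z).1 h2.1)⟩
  · rintro ⟨h1, h2⟩
    rw [h1, ← Matrix.mulVec_mulVec, h2, Matrix.mulVec_zero, add_zero]

theorem j_mem_No_iff_det : a ∈ JNo lb ρ ↔ a ∈ JNr lb ρ ∧ (JP ρ a).det ≠ 0 := by
  rw [j_mem_No_iff]
  refine and_congr_right fun _ => ?_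
  rw [Ne, ← Matrix.exists_mulVec_eq_zero_iff]
  constructor
  · rintro h ⟨z, hz, h0⟩
    rw [JNo_P_mulVec] at h0
    exact hz (h z h0.1 h0.2)
  · intro h z h1 h2
    by_contra hz
    exact h ⟨z, hz, JNo_P_mulVec.2 ⟨h1, h2⟩⟩

open scoped ComplexOrder in
theorem j_P_posDef (ha : a ∈ JNo lb ρ) : (JP ρ a).PosDef :=
  (j_P_posSemidef ρ a).posDef_iff_det_ne_zero.2 (j_mem_No_iff_det.1 ha).2

theorem j_P_blk (ha : a ∈ JNr lb ρ) {l k : β} (h : JP ρ a l k ≠ 0) :
    lb l = lb k ∧ ρ l = ρ k := by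
  by_cases e : l = k
  · rw [e]
    exact ⟨rfl, rfl⟩
  rw [JP, Matrix.add_apply, JE0, Matrix.diagonal_apply_ne _ e, add_zero] at h
  obtain ⟨m, h1, h2⟩ := HD.Basic_mul_ne h
  obtain ⟨a1, a2⟩ := JNo_sub_ne (JNo_star_ne h1)
  obtain ⟨b1, b2⟩ := JNo_sub_ne h2
  exact ⟨(ha m l a2).1.symm.trans (ha m k b2).1, a1.trans b1.symm⟩

theorem j_sub_mul_E0 (ρ : β → ℕ) (a : Matrix β β ℂ) : Jsub ρ a * JE0 ρ = 0 := by
  ext l k
  rw [JE0, Matrix.mul_diagonal, Jsub, Matrix.of_apply, Matrix.zero_apply]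
  by_cases h : ρ k = 0
  · rw [if_neg (by omega), zero_mul]
  · rw [if_neg h, mul_zero]

theorem j_E0_comm (h : ∀ l k, g l k ≠ 0 → ρ l = ρ k) : g * JE0 ρ = JE0 ρ * g := by
  ext l k
  rw [JE0, Matrix.mul_diagonal, Matrix.diagonal_mul]
  by_cases h0 : g l k = 0
  · rw [h0, zero_mul, mul_zero]
  · rw [h l k h0, mul_comm]

theorem j_continuous_sub (ρ : β → ℕ) : Continuous (Jsub ρ) := by
  refine continuous_pi fun l => continuous_pi fun k => ?_
  simp only [Jsub, Matrix.of_apply]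
  by_cases h : ρ k = ρ l + 1
  · simp only [if_pos h]
    exact (continuous_apply k).comp (continuous_apply l)
  · simp only [if_neg h]
    exact continuous_const

theorem j_continuous_P (ρ : β → ℕ) : Continuous (JP ρ) :=
  ((j_continuous_sub ρ).star.matrix_mul (j_continuous_sub ρ)).add continuous_const

theorem j_sub_mul {g' : Matrix β β ℂ} (h : ∀ l k, g l k ≠ 0 → ρ l = ρ k)
    (h' : ∀ l k, g' l k ≠ 0 → ρ l = ρ k) (c : ℂ) (a : Matrix β β ℂ) :
    Jsub ρ (c • (g * a * g')) = c • (g * Jsub ρ a * g') := by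
  ext l k
  have hterm : ∀ k' l', g l l' * Jsub ρ a l' k' * g' k' k =
      if ρ k = ρ l + 1 then g l l' * a l' k' * g' k' k else 0 := by
    intro k' l'
    by_cases h1 : g l l' = 0
    · simp [h1]
    by_cases h2 : g' k' k = 0
    · simp [h2]
    simp only [Jsub, Matrix.of_apply, h l l' h1, ← h' k' k h2]
    split_ifs <;> simp
  simp only [Matrix.smul_apply, Matrix.mul_apply, Finset.sum_mul, hterm]
  simp only [Jsub, Matrix.of_apply, Matrix.smul_apply, Matrix.mul_apply, Finset.sum_mul]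
  split_ifs <;> simp

theorem j_P_conj (hu : g ∈ Matrix.unitaryGroup β ℂ) (h : ∀ l k, g l k ≠ 0 → ρ l = ρ k) {c : ℂ}
    (hc : ‖c‖ = 1) (a : Matrix β β ℂ) :
    JP ρ (c • (g * a * star g)) = g * JP ρ a * star g := by
  have h1 : star g * g = 1 := Matrix.mem_unitaryGroup_iff'.1 hu
  have h2 : g * star g = 1 := Matrix.mem_unitaryGroup_iff.1 hu
  have h3 : c * star c = 1 := by
    rw [Complex.star_def, Complex.mul_conj, Complex.normSq_eq_norm_sq, hc]
    simp
  have h4 : g * JE0 ρ * star g = JE0 ρ := by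
    rw [j_E0_comm h, Matrix.mul_assoc, h2, Matrix.mul_one]
  have h5 : star (g * Jsub ρ a * star g) = g * star (Jsub ρ a) * star g := by
    rw [star_mul, star_mul, star_star, Matrix.mul_assoc]
  rw [JP, JP, j_sub_mul h fun l k hlk => (h k l (JNo_star_ne hlk)).symm, star_smul, h5,
    Matrix.mul_smul, Matrix.smul_mul, smul_smul, h3, one_smul, HD.Basic_conj_mul h1,
    Matrix.mul_add, Matrix.add_mul, h4]

theorem j_Nr_mul {g' : Matrix β β ℂ} (h : ∀ l k, g l k ≠ 0 → lb l = lb k ∧ ρ l = ρ k)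
    (h' : ∀ l k, g' l k ≠ 0 → lb l = lb k ∧ ρ l = ρ k) (c : ℂ) (ha : a ∈ JNr lb ρ) :
    c • (g * a * g') ∈ JNr lb ρ := by
  intro l k hlk
  rw [Matrix.smul_apply, smul_eq_mul] at hlk
  obtain ⟨m, h1, h2⟩ := HD.Basic_mul_ne (right_ne_zero_of_mul hlk)
  obtain ⟨n, h3, h4⟩ := HD.Basic_mul_ne h1
  obtain ⟨a1, a2⟩ := h l n h3
  obtain ⟨b1, b2⟩ := ha n m h4
  obtain ⟨c1, c2⟩ := h' m k h2
  exact ⟨a1.trans (b1.trans c1), by omega⟩

theorem j_No_conj (hu : g ∈ Matrix.unitaryGroup β ℂ)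
    (h : ∀ l k, g l k ≠ 0 → lb l = lb k ∧ ρ l = ρ k) {c : ℂ} (hc : c ≠ 0) (ha : a ∈ JNo lb ρ) :
    c • (g * a * star g) ∈ JNo lb ρ := by
  have h1 : star g * g = 1 := Matrix.mem_unitaryGroup_iff'.1 hu
  have h2 : g * star g = 1 := Matrix.mem_unitaryGroup_iff.1 hu
  have h' : ∀ l k, star g l k ≠ 0 → lb l = lb k ∧ ρ l = ρ k := fun l k hlk =>
    ⟨(h k l (JNo_star_ne hlk)).1.symm, (h k l (JNo_star_ne hlk)).2.symm⟩
  refine ⟨j_Nr_mul h h' c ha.1, fun m z hz => ?_⟩
  have h3 := (JFl ρ m).smul_mem c⁻¹ (JNo_keep (fun l k hlk => (h' l k hlk).2) hz)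
  rw [Matrix.smul_mulVec, Matrix.mulVec_smul, smul_smul, inv_mul_cancel₀ hc, one_smul,
    Matrix.mulVec_mulVec, ← Matrix.mul_assoc, ← Matrix.mul_assoc, h1, Matrix.one_mul,
    ← Matrix.mulVec_mulVec] at h3
  have h4 := JNo_keep (fun l k hlk => (h l k hlk).2) (ha.2 m _ h3)
  rwa [Matrix.mulVec_mulVec, h2, Matrix.one_mulVec] at h4

/-- The level maps are injective, so the level function is decreasing. -/
theorem j_decr (ha : a ∈ JNo lb ρ) (i : Λ) (m : ℕ) :
    (Finset.univ.filter fun k => lb k = i ∧ ρ k = m + 1).card ≤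
      (Finset.univ.filter fun k => lb k = i ∧ ρ k = m).card := by
  let s : Matrix {k // lb k = i ∧ ρ k = m} {k // lb k = i ∧ ρ k = m + 1} ℂ :=
    a.submatrix Subtype.val Subtype.val
  have hinj : Function.Injective s.mulVecLin := by
    rw [← LinearMap.ker_eq_bot, LinearMap.ker_eq_bot']
    intro w hw
    let z : β → ℂ := fun k => if h : lb k = i ∧ ρ k = m + 1 then w ⟨k, h⟩ else 0
    have hz : ∀ k : {k // lb k = i ∧ ρ k = m + 1}, z k.1 = w k := fun k => dif_pos k.2
    have hz0 : ∀ k, ¬ (lb k = i ∧ ρ k = m + 1) → z k = 0 := fun k hk => dif_neg hk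
    have h1 : a.mulVec z ∈ JFl ρ m := by
      rw [mem_JFl]
      intro l hl
      by_cases hB : lb l = i ∧ ρ l = m
      · refine Eq.trans (Eq.symm ?_) (congrFun hw ⟨l, hB⟩)
        refine Fintype.sum_of_injective Subtype.val Subtype.val_injective _
          (fun k => a l k * z k) (fun k hk => ?_) fun k => ?_
        · rw [hz0 k fun hk' => hk ⟨⟨k, hk'⟩, rfl⟩, mul_zero]
        · rw [hz]
          rfl
      · refine Finset.sum_eq_zero fun k _ => ?_
        by_cases h0 : a l k = 0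
        · exact mul_eq_zero_of_left h0 _
        · obtain ⟨a1, a2⟩ := ha.1 l k h0
          exact mul_eq_zero_of_right _ (hz0 k fun hk => hB ⟨a1.trans hk.1, by omega⟩)
    funext k
    rw [← hz]
    exact mem_JFl.1 (ha.2 m z h1) k.1 k.2.2.ge
  have h2 := LinearMap.finrank_le_finrank_of_injective hinj
  rwa [Module.finrank_fintype_fun_eq_card, Module.finrank_fintype_fun_eq_card,
    Fintype.card_subtype, Fintype.card_subtype] at h2

/-- If the commutator lowers the level then `ξ` preserves the flag. -/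
theorem j_pres (ha : a ∈ JNo lb ρ) {ξ : Matrix β β ℂ}
    (h : ∀ l k, (a * ξ - ξ * a) l k ≠ 0 → ρ l < ρ k) {l k : β} (h0 : ξ l k ≠ 0) :
    ρ l ≤ ρ k := by
  have key : ∀ m z, z ∈ JFl ρ m → ξ.mulVec z ∈ JFl ρ m := by
    intro m
    induction m with
    | zero =>
      intro z hz
      rw [JNo_zero.1 hz, Matrix.mulVec_zero]
      exact Submodule.zero_mem _
    | succ m ih =>
      intro z hz
      refine ha.2 m _ ?_
      have h1 := (JFl ρ m).add_mem (JNo_low h hz) (ih _ (j_Nr_mulVec ha.1 hz))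
      rwa [Matrix.sub_mulVec, Matrix.mulVec_mulVec, sub_add_cancel, ← Matrix.mulVec_mulVec] at h1
  have h1 : (Pi.single k 1 : β → ℂ) ∈ JFl ρ (ρ k + 1) := by
    rw [mem_JFl]
    intro j hj
    refine Pi.single_eq_of_ne (fun e : j = k => ?_) _
    rw [e] at hj
    omega
  by_contra hn
  have h2 := mem_JFl.1 (key _ _ h1) l (by omega)
  exact h0 (by simpa using h2)

end Pool.Agent.HK
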