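import Pool.Agent.P.MP_1206ce_ag.JO.Lin
import Pool.Agent.P.MP_1206ce_ag.JO.No

/-! The type of a nilpotent block diagonal matrix. -/

open scoped Topology
open Filter Set

noncomputable section

namespace Pool.Agent.HK

variable {β Λ : Type} [Fintype β] [DecidableEq β] [DecidableEq Λ] {lb : β → Λ} {ρ ρ' : β → ℕ}
  {a g : Matrix β β ℂ}

omit [DecidableEq β] [DecidableEq Λ] [Fintype β] in
theorem JKern_smul_Nr (c : ℂ) (ha : a ∈ JNr lb ρ) : c • a ∈ JNr lb ρ := fun l k h =>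
  ha l k fun h' => h (by simp [h'])

omit [DecidableEq β] [DecidableEq Λ] in
theorem JKern_smul_No {c : ℂ} (hc : c ≠ 0) (ha : a ∈ JNo lb ρ) : c • a ∈ JNo lb ρ := by
  refine ⟨JKern_smul_Nr c ha.1, fun m z hz => ha.2 m z ?_⟩
  rw [Matrix.smul_mulVec] at hz
  exact (Submodule.smul_mem_iff _ hc).1 hz

theorem JKern_pow (hg : g ∈ KG lb) (a : Matrix β β ℂ) (m : ℕ) :
    (g * a * star g) ^ m = g * a ^ m * star g := by
  induction m with
  | zero => simp [(isGrp_KG lb).mul_star hg]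
  | succ m ih =>
    rw [pow_succ, ih, pow_succ]
    calc g * a ^ m * star g * (g * a * star g) = g * a ^ m * (star g * g) * a * star g := by
          simp only [mul_assoc]
      _ = _ := by rw [(isGrp_KG lb).star_mul hg]; simp only [mul_assoc, one_mul]

theorem JKern_cc (hg : g ∈ KG lb) (h a : Matrix β β ℂ) :
    h * star g * (g * a * star g) * star (h * star g) = h * a * star h := by
  rw [star_mul, star_star]
  calc h * star g * (g * a * star g) * (g * star h)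
      = h * (star g * g) * a * (star g * g) * star h := by simp only [mul_assoc]
    _ = _ := by rw [(isGrp_KG lb).star_mul hg]; simp only [mul_assoc, one_mul]

omit [DecidableEq β] [DecidableEq Λ] in
theorem JKern_ne {x y : Matrix β β ℂ} {l k : β} (h : (x * y) l k ≠ 0) :
    ∃ i, x l i ≠ 0 ∧ y i k ≠ 0 := by
  rw [Matrix.mul_apply] at h
  obtain ⟨i, -, hi⟩ := Finset.exists_ne_zero_of_sum_ne_zero h
  exact ⟨i, left_ne_zero_of_mul hi, right_ne_zero_of_mul hi⟩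

omit [DecidableEq Λ] in
theorem JKern_lb (hg : g ∈ KG lb) {l k : β} (h : g l k ≠ 0) : lb l = lb k := by
  by_contra h'
  exact h (hg.2 l k h')

omit [DecidableEq β] [DecidableEq Λ] in
theorem JKern_map (h : ∀ l k, g l k ≠ 0 → ρ k = ρ' l) {m : ℕ} {z : β → ℂ} (hz : z ∈ JFl ρ m) :
    g.mulVec z ∈ JFl ρ' m := by
  rw [mem_JFl] at hz ⊢
  intro l hl
  refine Finset.sum_eq_zero fun k _ => ?_
  by_cases h1 : g l k = 0
  · simp [h1]
  · simp [hz k (by rw [h l k h1]; exact hl)]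

/-- Transport along a block unitary matrix that matches the levels. -/
theorem JKern_trans (hg : g ∈ KG lb) (h : ∀ l k, g l k ≠ 0 → ρ k = ρ' l) (ha : a ∈ JNo lb ρ) :
    g * a * star g ∈ JNo lb ρ' := by
  have h' : ∀ l k, (star g) l k ≠ 0 → ρ' k = ρ l := fun l k h1 =>
    (h k l fun h2 => h1 (by simp [Matrix.star_apply, h2])).symm
  refine ⟨fun l k h1 => ?_, fun m z hz => ?_⟩
  · obtain ⟨j, h2, h3⟩ := JKern_ne h1
    obtain ⟨i, h4, h5⟩ := JKern_ne h2
    obtain ⟨h6, h7⟩ := ha.1 i j h5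
    refine ⟨(JKern_lb hg h4).trans (h6.trans (JKern_lb ((isGrp_KG lb).star g hg) h3)), ?_⟩
    rw [← h l i h4, h' j k h3]
    exact h7
  · have h1 := JKern_map h' hz
    rw [Matrix.mulVec_mulVec, ← mul_assoc, ← mul_assoc, (isGrp_KG lb).star_mul hg, one_mul,
      ← Matrix.mulVec_mulVec] at h1
    have h2 := JKern_map h (ha.2 m _ h1)
    rwa [Matrix.mulVec_mulVec, (isGrp_KG lb).mul_star hg, Matrix.one_mulVec] at h2

omit [Fintype β] in
theorem JKern_single (ρ : β → ℕ) (l : β) : (Pi.single l 1 : β → ℂ) ∈ JFl ρ (ρ l + 1) := by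
  rw [mem_JFl]
  intro k hk
  have h : k ≠ l := fun h => by rw [h] at hk; omega
  simp [h]

theorem JKern_key (hg : g ∈ KG lb) (ha : a ∈ JNo lb ρ) (h : g * a * star g ∈ JNr lb ρ') (l k : β)
    (h0 : g l k ≠ 0) : ρ k ≤ ρ' l := by
  have h1 := congrArg (star g).mulVec (j_Nr_pow h (JKern_single ρ' l))
  rw [JKern_pow hg, Matrix.mulVec_mulVec, ← mul_assoc, ← mul_assoc, (isGrp_KG lb).star_mul hg,
    one_mul, ← Matrix.mulVec_mulVec, Matrix.mulVec_zero] at h1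
  have h2 := mem_JFl.1 ((j_ker_pow ha _ _).1 h1) k
  by_contra h3
  apply h0
  simpa [Matrix.star_apply] using h2 (by omega)

theorem JKern_perm {σ : Equiv.Perm β} (hσ : ∀ k, lb (σ k) = lb k) (ρ : β → ℕ) :
    JCO lb (fun k => ρ (σ k)) ⊆ JCO lb ρ := by
  rintro a ⟨g, hg, h⟩
  have hP : pmat σ ∈ KG lb := pmat_mem_KG (mem_Wl.2 hσ)
  refine ⟨pmat σ * g, (isGrp_KG lb).mul _ hP _ hg, ?_⟩
  have h1 := JKern_trans (ρ' := ρ) hP (fun l k h1 => by
    have h2 : l = σ k := by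
      by_contra h3
      exact h1 (by simp [pmat, h3])
    rw [h2]) h
  rw [star_mul]
  simpa only [mul_assoc] using h1

theorem j_CO_subset (lb : β → Λ) (ρ : β → ℕ) : JCO lb ρ ⊆ JCN lb ρ :=
  fun _ ⟨g, hg, h⟩ => ⟨g, hg, h.1⟩
theorem j_Nr_subset (lb : β → Λ) (ρ : β → ℕ) : JNr lb ρ ⊆ JCN lb ρ :=
  fun _ h => ⟨1, (isGrp_KG lb).one, by simpa using h⟩
theorem j_No_subset (lb : β → Λ) (ρ : β → ℕ) : JNo lb ρ ⊆ JCO lb ρ :=
  fun _ h => ⟨1, (isGrp_KG lb).one, by simpa using h⟩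
theorem j_CN_nilp (ha : a ∈ JCN lb ρ) : IsNilpotent a := by
  obtain ⟨g, hg, h⟩ := ha
  obtain ⟨m, hm⟩ := j_Nr_nilp h
  refine ⟨m, ?_⟩
  have h1 := JKern_cc hg 1 (a ^ m)
  rw [← JKern_pow hg, hm] at h1
  simpa using h1.symm
theorem j_CN_conj (hg : g ∈ KG lb) (c : ℂ) (ha : a ∈ JCN lb ρ) :
    c • (g * a * star g) ∈ JCN lb ρ := by
  obtain ⟨h, hh, h1⟩ := ha
  refine ⟨h * star g, (isGrp_KG lb).mul _ hh _ ((isGrp_KG lb).star g hg), ?_⟩
  rw [Matrix.mul_smul, Matrix.smul_mul, JKern_cc hg]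
  exact JKern_smul_Nr c h1
theorem j_CO_conj (hg : g ∈ KG lb) {c : ℂ} (hc : c ≠ 0) (ha : a ∈ JCO lb ρ) :
    c • (g * a * star g) ∈ JCO lb ρ := by
  obtain ⟨h, hh, h1⟩ := ha
  refine ⟨h * star g, (isGrp_KG lb).mul _ hh _ ((isGrp_KG lb).star g hg), ?_⟩
  rw [Matrix.mul_smul, Matrix.smul_mul, JKern_cc hg]
  exact JKern_smul_No hc h1
theorem j_isClosed_CN (lb : β → Λ) (ρ : β → ℕ) : IsClosed (JCN lb ρ) := by
  have : CompactSpace (KG lb) := isCompact_iff_compactSpace.1 (isGrp_KG lb).isCompact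
  have h1 : IsClosed {p : KG lb × Matrix β β ℂ | p.1.1 * p.2 * star p.1.1 ∈ JNr lb ρ} := by
    have h2 : Continuous fun p : KG lb × Matrix β β ℂ => p.1.1 :=
      continuous_subtype_val.comp continuous_fst
    exact (j_isClosed_Nr lb ρ).preimage ((h2.mul continuous_snd).mul h2.star)
  convert isClosedMap_snd_of_compactSpace _ h1 using 1
  ext a
  constructor
  · rintro ⟨g, hg, h⟩
    exact ⟨(⟨g, hg⟩, a), h, rfl⟩
  · rintro ⟨⟨g, b⟩, h, rfl⟩
    exact ⟨g.1, g.2, h⟩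
theorem j_CO_perm {σ : Equiv.Perm β} (hσ : ∀ k, lb (σ k) = lb k) (ρ : β → ℕ) :
    JCO lb (fun k => ρ (σ k)) = JCO lb ρ := by
  refine (JKern_perm hσ ρ).antisymm ?_
  have h := JKern_perm (lb := lb) (σ := σ.symm)
    (fun k => by rw [← hσ (σ.symm k), Equiv.apply_symm_apply]) fun k => ρ (σ k)
  simpa only [Equiv.apply_symm_apply] using h
/-- The kernel flag of a nilpotent block diagonal matrix. -/
theorem j_exists_type (hb : ∀ l k, a l k ≠ 0 → lb l = lb k) (hn : IsNilpotent a) :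
    ∃ ρ, a ∈ JCO lb ρ := by
  have hS : ∀ m z, z ∈ LinearMap.ker (a ^ m).mulVecLin ↔ (a ^ m).mulVec z = 0 := fun _ _ => Iff.rfl
  obtain ⟨ρ, g, hg, h⟩ := j_flag lb (fun m => LinearMap.ker (a ^ m).mulVecLin)
    (by
      rw [eq_bot_iff]
      intro z hz
      simpa using (hS 0 z).1 hz)
    (monotone_nat_of_le_succ fun m z hz => by
      rw [hS] at hz ⊢
      rw [pow_succ', ← Matrix.mulVec_mulVec, hz, Matrix.mulVec_zero])
    (by
      obtain ⟨N, hN⟩ := hn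
      exact ⟨N, by simp [hN]⟩)
    (by
      intro m z hz i
      rw [hS] at hz ⊢
      have h1 : (fun k => if lb k = i then z k else 0) =
          (Matrix.diagonal fun k => if lb k = i then (1 : ℂ) else 0).mulVec z := by
        funext k
        rw [Matrix.mulVec_diagonal]
        split_ifs <;> simp
      have h2 : Commute a (Matrix.diagonal fun k => if lb k = i then (1 : ℂ) else 0) := by
        ext l k
        rw [Matrix.mul_diagonal, Matrix.diagonal_mul]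
        by_cases h3 : a l k = 0
        · simp [h3]
        · rw [hb l k h3, mul_comm]
      rw [h1, Matrix.mulVec_mulVec, (h2.pow_left m).eq, ← Matrix.mulVec_mulVec, hz,
        Matrix.mulVec_zero])
  have hg' := (isGrp_KG lb).star g hg
  have key : ∀ m z, (star g * a * g).mulVec z ∈ JFl ρ m ↔ z ∈ JFl ρ (m + 1) := by
    intro m z
    rw [h, h, hS, hS, Matrix.mulVec_mulVec z g, ← mul_assoc, ← mul_assoc,
      (isGrp_KG lb).mul_star hg, one_mul, pow_succ]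
    simp only [Matrix.mulVec_mulVec, mul_assoc]
  refine ⟨ρ, star g, hg', ?_⟩
  rw [star_star]
  refine ⟨fun l k h1 => ⟨?_, ?_⟩, fun m z => (key m z).1⟩
  · obtain ⟨j, h2, h3⟩ := JKern_ne h1
    obtain ⟨i, h4, h5⟩ := JKern_ne h2
    exact (JKern_lb hg' h4).trans ((hb i j h5).trans (JKern_lb hg h3))
  · by_contra h2
    apply h1
    simpa using mem_JFl.1 ((key _ _).2 (JKern_single ρ k)) l (not_lt.1 h2)
theorem j_compare (ha : a ∈ JCO lb ρ) (ha' : a ∈ JCN lb ρ') :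
    ∑ k, ρ k ≤ ∑ k, ρ' k ∧ (∑ k, ρ k = ∑ k, ρ' k → a ∈ JCO lb ρ' ∧
      ∃ σ : Equiv.Perm β, (∀ k, lb (σ k) = lb k) ∧ ∀ k, ρ' k = ρ (σ k)) := by
  obtain ⟨g, hg, h⟩ := ha
  obtain ⟨g', hg', h'⟩ := ha'
  have hh := (isGrp_KG lb).mul _ hg' _ ((isGrp_KG lb).star g hg)
  rw [← JKern_cc hg] at h'
  obtain ⟨h1, h2⟩ := j_count hh (JKern_key hh h h')
  refine ⟨h1, fun h3 => ⟨⟨g', hg', ?_⟩, (h2 h3).2⟩⟩
  rw [← JKern_cc hg]
  exact JKern_trans hh (h2 h3).1 h
theorem j_No_of_CO (ha : a ∈ JNr lb ρ) (h : a ∈ JCO lb ρ) : a ∈ JNo lb ρ := by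
  obtain ⟨g, hg, h⟩ := h
  have hh := (isGrp_KG lb).star g hg
  have e : star g * (g * a * star g) * star (star g) = a := by
    simpa using JKern_cc hg 1 a
  rw [← e] at ha ⊢
  exact JKern_trans hh ((j_count hh (JKern_key hh h ha)).2 rfl).1 h
/-- The stabiliser of the kernel flag. -/
theorem j_stab (ha : a ∈ JNo lb ρ) (hg : g ∈ KG lb) {c : ℂ} (hc : c ≠ 0)
    (h : c • (g * a * star g) ∈ JNr lb ρ) {l k : β} (h0 : g l k ≠ 0) : ρ l = ρ k := by
  have h1 := JKern_smul_Nr c⁻¹ h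
  rw [smul_smul, inv_mul_cancel₀ hc, one_smul] at h1
  exact (((j_count hg (JKern_key hg ha h1)).2 rfl).1 l k h0).symm

end Pool.Agent.HK
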