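import Pool.Agent.P.MP_1206ce_ag.JO.Defs

/-! Block unitary matrices and flags. -/

open scoped Topology
open Filter Set

noncomputable section

namespace Pool.Agent.HK

theorem JLin_inner {ι : Type} [Fintype ι] (x y : EuclideanSpace ℂ ι) :
    inner ℂ x y = ∑ l, star (x l) * y l := by
  simp [PiLp.inner_apply, mul_comm]

/-- An orthonormal basis adapted to a flag. -/
theorem JLin_basis {E ι : Type} [NormedAddCommGroup E] [InnerProductSpace ℂ E]
    [FiniteDimensional ℂ E] [Fintype ι] (hc : Module.finrank ℂ E = Fintype.card ι)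
    (T : ℕ → Submodule ℂ E) (h0 : T 0 = ⊥) (hm : Monotone T) {N : ℕ} (hN : T N = ⊤) :
    ∃ (b : OrthonormalBasis ι ℂ E) (r : ι → ℕ), ∀ k, b k ∈ T (r k + 1) ∧ b k ∈ (T (r k))ᗮ := by
  let W : Fin N → Submodule ℂ E := fun m => (T m)ᗮ ⊓ T (m + 1)
  have hlt : ∀ m m' : Fin N, m < m' → W m ⟂ W m' := fun m m' h =>
    (Submodule.isOrtho_orthogonal_right (T m')).mono
      (inf_le_right.trans (hm (Nat.succ_le_of_lt h))) inf_le_left
  have hW : OrthogonalFamily ℂ (fun m => W m) fun m => (W m).subtypeₗᵢ := by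
    refine OrthogonalFamily.of_pairwise fun m m' h => ?_
    rcases lt_or_gt_of_ne h with h | h
    · exact hlt m m' h
    · exact (hlt m' m h).symm
  have hle : ∀ m, m ≤ N → T m ≤ iSup W := by
    intro m
    induction m with
    | zero => intro _; rw [h0]; exact bot_le
    | succ m ih =>
      intro h
      rw [← Submodule.sup_orthogonal_inf_of_hasOrthogonalProjection (hm (Nat.le_succ m))]
      exact sup_le (ih (by omega)) (le_iSup W ⟨m, h⟩)
  have htop : iSup W = ⊤ := top_le_iff.1 (hN ▸ hle N le_rfl)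
  have hI : DirectSum.IsInternal W := hW.isInternal_iff.2 (by
    rw [htop, Submodule.top_orthogonal_eq_bot])
  let e := Fintype.equivFin ι
  refine ⟨(hI.subordinateOrthonormalBasis hc hW).reindex e.symm,
    fun k => (hI.subordinateOrthonormalBasisIndex hc (e k) hW).val, fun k => ?_⟩
  have h1 := hI.subordinateOrthonormalBasis_subordinate hc (e k) hW
  rw [OrthonormalBasis.reindex_apply, Equiv.symm_symm]
  exact ⟨h1.2, h1.1⟩

variable {β Λ : Type} [Fintype β] [DecidableEq β] [DecidableEq Λ] {lb : β → Λ} {ρ ρ' : β → ℕ}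
  {a g : Matrix β β ℂ}

omit [DecidableEq β] in
theorem JLin_sum (lb : β → Λ) (i : Λ) {f : β → ℂ} (hf : ∀ l, lb l ≠ i → f l = 0) :
    ∑ l, f l = ∑ l : {k // lb k = i}, f l := by
  rw [← Finset.sum_subtype (Finset.univ.filter fun k => lb k = i) (by simp) f]
  exact (Finset.sum_filter_of_ne fun l _ hl => by_contra fun h => hl (hf l h)).symm

/-- Extension by zero from a block. -/
def JLin_ext (lb : β → Λ) (i : Λ) : EuclideanSpace ℂ {k // lb k = i} →ₗ[ℂ] (β → ℂ) where
  toFun v l := if h : lb l = i then v ⟨l, h⟩ else 0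
  map_add' v w := by
    funext l
    by_cases h : lb l = i <;> simp [h]
  map_smul' c v := by
    funext l
    by_cases h : lb l = i <;> simp [h]

omit [Fintype β] [DecidableEq β] in
theorem JLin_ext_pos {i : Λ} (v : EuclideanSpace ℂ {k // lb k = i}) (l : {k // lb k = i}) :
    JLin_ext lb i v l = v l := dif_pos l.2

omit [Fintype β] [DecidableEq β] in
theorem JLin_ext_neg {i : Λ} (v : EuclideanSpace ℂ {k // lb k = i}) {l : β} (h : lb l ≠ i) :
    JLin_ext lb i v l = 0 := dif_neg h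

/-- Restriction to a block. -/
def JLin_res (lb : β → Λ) (i : Λ) (z : β → ℂ) : EuclideanSpace ℂ {k // lb k = i} :=
  WithLp.toLp 2 fun l => z l

omit [Fintype β] [DecidableEq β] in
theorem JLin_ext_res (i : Λ) (z : β → ℂ) :
    JLin_ext lb i (JLin_res lb i z) = fun k => if lb k = i then z k else 0 := by
  funext l
  by_cases h : lb l = i
  · rw [if_pos h]
    exact JLin_ext_pos _ ⟨l, h⟩
  · rw [if_neg h, JLin_ext_neg _ h]

omit [DecidableEq β] in
theorem JLin_inner_ext {i : Λ} (v : EuclideanSpace ℂ {k // lb k = i}) (z : β → ℂ) :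
    ∑ l, star (JLin_ext lb i v l) * z l = inner ℂ v (JLin_res lb i z) := by
  rw [JLin_sum lb i (fun l hl => by rw [JLin_ext_neg _ hl, star_zero, zero_mul]), JLin_inner]
  exact Finset.sum_congr rfl fun l _ => by rw [JLin_ext_pos]; rfl

omit [Fintype β] [DecidableEq β] in
theorem JLin_res_ext {i : Λ} (v : EuclideanSpace ℂ {k // lb k = i}) :
    JLin_res lb i (JLin_ext lb i v) = v := by
  ext l
  exact JLin_ext_pos v l

/-- The matrix whose columns are blockwise orthonormal bases. -/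
theorem JLin_glue (lb : β → Λ)
    (b : ∀ i, OrthonormalBasis {k // lb k = i} ℂ (EuclideanSpace ℂ {k // lb k = i})) :
    ∃ g ∈ KG lb, ∀ i (k : {k // lb k = i}), (fun l => g l k) = JLin_ext lb i (b i k) := by
  have key : ∀ i (k : {k // lb k = i}),
      JLin_ext lb (lb k) (b (lb k) ⟨k, rfl⟩) = JLin_ext lb i (b i k) := by
    rintro i ⟨k, rfl⟩
    rfl
  refine ⟨Matrix.of fun l k => JLin_ext lb (lb k) (b (lb k) ⟨k, rfl⟩) l, ⟨?_, fun l k h => ?_⟩,
    fun i k => key i k⟩
  · rw [Matrix.mem_unitaryGroup_iff']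
    ext k k'
    rw [Matrix.mul_apply]
    simp only [Matrix.star_apply, Matrix.of_apply]
    by_cases h : lb k' = lb k
    · have h1 := key (lb k) ⟨k', h⟩
      dsimp only at h1
      rw [h1, JLin_inner_ext, JLin_res_ext, orthonormal_iff_ite.1 (b (lb k)).orthonormal,
        Matrix.one_apply]
      simp only [Subtype.mk.injEq]
    · rw [Matrix.one_apply_ne fun e => h (by rw [e])]
      refine Finset.sum_eq_zero fun l _ => ?_
      by_cases hl : lb l = lb k
      · rw [JLin_ext_neg (b (lb k') ⟨k', rfl⟩) (fun e => h (e.symm.trans hl)), mul_zero]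
      · rw [JLin_ext_neg _ hl, star_zero, zero_mul]
  · exact JLin_ext_neg _ h

/-- Orthonormal block supported columns extend to a block unitary matrix. -/
theorem j_ext (lb : β → Λ) (S : Set β) {c : Matrix β β ℂ}
    (hb : ∀ k ∈ S, ∀ l, c l k ≠ 0 → lb l = lb k)
    (ho : ∀ k ∈ S, ∀ k' ∈ S, lb k = lb k' →
      ∑ l, star (c l k) * c l k' = if k = k' then 1 else 0) :
    ∃ g ∈ KG lb, ∀ k ∈ S, ∀ l, g l k = c l k := by
  have hc : ∀ i (k : {k // lb k = i}), k.1 ∈ S →
      JLin_ext lb i (JLin_res lb i fun l => c l k) = fun l => c l k := by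
    intro i k hk
    rw [JLin_ext_res]
    funext l
    split_ifs with h
    · rfl
    · exact (by_contra fun hne => h ((hb k hk l hne).trans k.2) : c l k = 0).symm
  have key : ∀ i, ∃ b : OrthonormalBasis {k // lb k = i} ℂ (EuclideanSpace ℂ {k // lb k = i}),
      ∀ k ∈ {k : {k // lb k = i} | k.1 ∈ S}, b k = JLin_res lb i fun l => c l k := by
    intro i
    refine Orthonormal.exists_orthonormalBasis_extension_of_card_eq (by simp) ?_
    refine orthonormal_iff_ite.2 fun k k' => ?_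
    show inner ℂ (JLin_res lb i fun l => c l k.1) (JLin_res lb i fun l => c l k'.1) = _
    rw [← JLin_inner_ext, hc i k.1 k.2, ho _ k.2 _ k'.2 (k.1.2.trans k'.1.2.symm)]
    simp only [Subtype.ext_iff]
  choose b hb' using key
  obtain ⟨g, hg, h⟩ := JLin_glue lb b
  refine ⟨g, hg, fun k hk l => ?_⟩
  have h1 := h (lb k) ⟨k, rfl⟩
  rw [hb' (lb k) ⟨k, rfl⟩ hk, hc (lb k) ⟨k, rfl⟩ hk] at h1
  exact congrFun h1 l

/-- A graded flag is conjugate to a coordinate flag. -/
theorem j_flag (lb : β → Λ) (S : ℕ → Submodule ℂ (β → ℂ)) (h0 : S 0 = ⊥) (hm : Monotone S)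
    (hN : ∃ N, S N = ⊤)
    (hg : ∀ m, ∀ z ∈ S m, ∀ i, (fun k => if lb k = i then z k else 0) ∈ S m) :
    ∃ ρ : β → ℕ, ∃ g ∈ KG lb, ∀ m z, z ∈ JFl ρ m ↔ g.mulVec z ∈ S m := by
  obtain ⟨N, hN⟩ := hN
  have key : ∀ i, ∃ (b : OrthonormalBasis {k // lb k = i} ℂ (EuclideanSpace ℂ {k // lb k = i}))
      (r : {k // lb k = i} → ℕ), ∀ k, b k ∈ (S (r k + 1)).comap (JLin_ext lb i) ∧
        b k ∈ ((S (r k)).comap (JLin_ext lb i))ᗮ := by
    intro i
    refine JLin_basis (by simp) (fun m => (S m).comap (JLin_ext lb i)) ?_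
      (fun m m' h => Submodule.comap_mono (hm h)) (N := N) ?_
    · rw [h0, eq_bot_iff]
      intro v hv
      have h1 : JLin_ext lb i v = 0 := hv
      rw [← JLin_res_ext v, h1]
      rfl
    · rw [hN, Submodule.comap_top]
  choose b r hbr using key
  obtain ⟨g, hgK, h⟩ := JLin_glue lb b
  refine ⟨fun k => r (lb k) ⟨k, rfl⟩, g, hgK, fun m z => ⟨fun hz => ?_, fun hz => ?_⟩⟩
  · have e : g.mulVec z = ∑ k, z k • fun l => g l k := by
      funext l
      simp [Matrix.mulVec, dotProduct, Finset.sum_apply, mul_comm]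
    rw [e]
    refine sum_mem fun k _ => ?_
    by_cases hk : m ≤ r (lb k) ⟨k, rfl⟩
    · rw [mem_JFl.1 hz k hk, zero_smul]
      exact zero_mem _
    · refine Submodule.smul_mem _ _ (hm (Nat.succ_le_of_lt (not_le.1 hk)) ?_)
      rw [h (lb k) ⟨k, rfl⟩]
      exact (hbr (lb k) ⟨k, rfl⟩).1
  · refine mem_JFl.2 fun k hk => ?_
    have e1 : z k = ∑ l, star (g l k) * g.mulVec z l := by
      have e2 : (star g).mulVec (g.mulVec z) = z := by
        rw [Matrix.mulVec_mulVec, Matrix.mem_unitaryGroup_iff'.1 hgK.1, Matrix.one_mulVec]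
      conv_lhs => rw [← e2]
      rfl
    have e3 : ∀ l, g l k = JLin_ext lb (lb k) (b (lb k) ⟨k, rfl⟩) l :=
      congrFun (h (lb k) ⟨k, rfl⟩)
    simp only [e3] at e1
    rw [e1, JLin_inner_ext]
    refine Submodule.inner_left_of_mem_orthogonal ?_ (hbr (lb k) ⟨k, rfl⟩).2
    rw [Submodule.mem_comap, JLin_ext_res]
    exact hg _ _ (hm hk hz) _

omit [DecidableEq Λ] in
/-- Comparison of two level functions along a block unitary matrix. -/
theorem j_count (hg : g ∈ KG lb) (h : ∀ l k, g l k ≠ 0 → ρ k ≤ ρ' l) :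
    ∑ k, ρ k ≤ ∑ k, ρ' k ∧ (∑ k, ρ k = ∑ k, ρ' k → (∀ l k, g l k ≠ 0 → ρ k = ρ' l) ∧
      ∃ σ : Equiv.Perm β, (∀ k, lb (σ k) = lb k) ∧ ∀ k, ρ' k = ρ (σ k)) := by
  have hcol : ∀ k, ∑ l, Complex.normSq (g l k) = 1 := by
    intro k
    have h1 := congrFun (congrFun (Matrix.mem_unitaryGroup_iff'.1 hg.1) k) k
    rw [Matrix.mul_apply, Matrix.one_apply_eq] at h1
    apply Complex.ofReal_injective
    push_cast
    rw [← h1]
    exact Finset.sum_congr rfl fun l _ => by
      rw [Complex.normSq_eq_conj_mul_self]; rfl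
  have hrow : ∀ l, ∑ k, Complex.normSq (g l k) = 1 := by
    intro l
    have h1 := congrFun (congrFun (Matrix.mem_unitaryGroup_iff.1 hg.1) l) l
    rw [Matrix.mul_apply, Matrix.one_apply_eq] at h1
    apply Complex.ofReal_injective
    push_cast
    rw [← h1]
    exact Finset.sum_congr rfl fun k _ => by
      rw [← Complex.mul_conj]; rfl
  have hd : ∑ l, ∑ k, Complex.normSq (g l k) * ((ρ' l : ℝ) - ρ k) =
      (∑ k, ρ' k : ℕ) - (∑ k, ρ k : ℕ) := by
    simp only [mul_sub, Finset.sum_sub_distrib]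
    rw [Finset.sum_comm (f := fun l k => Complex.normSq (g l k) * (ρ k : ℝ))]
    simp only [← Finset.sum_mul, hcol, hrow, one_mul]
    push_cast
    rfl
  have hnn : ∀ l k, 0 ≤ Complex.normSq (g l k) * ((ρ' l : ℝ) - ρ k) := by
    intro l k
    by_cases hz : g l k = 0
    · rw [hz, map_zero, zero_mul]
    · exact mul_nonneg (Complex.normSq_nonneg _) (sub_nonneg.2 (Nat.cast_le.2 (h l k hz)))
  have hs : ∀ l, 0 ≤ ∑ k, Complex.normSq (g l k) * ((ρ' l : ℝ) - ρ k) :=
    fun l => Finset.sum_nonneg fun k _ => hnn l k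
  refine ⟨?_, fun he => ?_⟩
  · have h1 := Finset.sum_nonneg fun l (_ : l ∈ Finset.univ) => hs l
    rw [hd, sub_nonneg] at h1
    exact Nat.cast_le.1 h1
  · rw [he, sub_self] at hd
    have h2 : ∀ l k, g l k ≠ 0 → ρ k = ρ' l := by
      intro l k hz
      have h3 := (Finset.sum_eq_zero_iff_of_nonneg fun l _ => hs l).1 hd l (Finset.mem_univ l)
      have h4 := (Finset.sum_eq_zero_iff_of_nonneg fun k _ => hnn l k).1 h3 k (Finset.mem_univ k)
      have h5 := (mul_eq_zero.1 h4).resolve_left fun e => hz (Complex.normSq_eq_zero.1 e)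
      exact (Nat.cast_injective (sub_eq_zero.1 h5)).symm
    refine ⟨h2, ?_⟩
    have hdet : g.det ≠ 0 := by
      have h3 := congrArg Matrix.det (Matrix.mem_unitaryGroup_iff.1 hg.1)
      rw [Matrix.det_mul, Matrix.det_one] at h3
      exact left_ne_zero_of_mul_eq_one h3
    rw [Matrix.det_apply] at hdet
    obtain ⟨σ, -, hσ⟩ := Finset.exists_ne_zero_of_sum_ne_zero hdet
    have h3 : ∀ k, g (σ k) k ≠ 0 := fun k e =>
      hσ (by rw [Finset.prod_eq_zero (f := fun i => g (σ i) i) (Finset.mem_univ k) e, smul_zero])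
    refine ⟨σ.symm, fun k => ?_, fun k => ?_⟩
    · have h4 := h3 (σ.symm k)
      rw [Equiv.apply_symm_apply] at h4
      exact (by_contra fun e => h4 (hg.2 _ _ e) : lb k = lb (σ.symm k)).symm
    · have h4 := h3 (σ.symm k)
      rw [Equiv.apply_symm_apply] at h4
      exact (h2 _ _ h4).symm

end Pool.Agent.HK
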