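import Pool.Agent.P.MP_1206ce_ag.JO.Lin
import Pool.Agent.P.MP_1206ce_ag.JO.No

/-! The isometric locus is one orbit. -/

open scoped Topology
open Filter Set

noncomputable section

namespace Pool.Agent.HK

section lin

variable {β Λ : Type} [Fintype β] [DecidableEq β] [DecidableEq Λ] {lb : β → Λ} {ρ : β → ℕ}
  {bot : β → β}

theorem JOrb_mul_ne {M N : Matrix β β ℂ} {l k : β} (h : (M * N) l k ≠ 0) :
    ∃ j, M l j ≠ 0 ∧ N j k ≠ 0 := by
  rw [Matrix.mul_apply] at h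
  obtain ⟨j, -, hj⟩ := Finset.exists_ne_zero_of_sum_ne_zero h
  exact ⟨j, left_ne_zero_of_mul hj, right_ne_zero_of_mul hj⟩

theorem JOrb_a0_ne {l k : β} (h : Ja0 ρ bot l k ≠ 0) : bot l = bot k ∧ ρ k = ρ l + 1 := by
  by_contra hn
  exact h (if_neg hn)

theorem JOrb_mul_a0 (hi : ∀ k l, bot k = bot l → ρ k = ρ l → k = l) (M : Matrix β β ℂ) {j k : β}
    (h : bot j = bot k ∧ ρ k = ρ j + 1) (l : β) : (M * Ja0 ρ bot) l k = M l j := by
  rw [Matrix.mul_apply, Finset.sum_eq_single j]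
  · rw [Ja0, Matrix.of_apply, if_pos h, mul_one]
  · intro i _ hij
    rw [Ja0, Matrix.of_apply, if_neg, mul_zero]
    exact fun h' => hij (hi _ _ (h'.1.trans h.1.symm) (by omega))
  · exact fun h' => absurd (Finset.mem_univ _) h'

theorem JOrb_mul_star_a0 (hi : ∀ k l, bot k = bot l → ρ k = ρ l → k = l) (M : Matrix β β ℂ)
    {j k : β} (h : bot j = bot k ∧ ρ k = ρ j + 1) (l : β) :
    (M * star (Ja0 ρ bot)) l j = M l k := by
  rw [Matrix.mul_apply, Finset.sum_eq_single k]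
  · rw [Matrix.star_apply, Ja0, Matrix.of_apply, if_pos h, star_one, mul_one]
  · intro i _ hik
    rw [Matrix.star_apply, Ja0, Matrix.of_apply, if_neg, star_zero, mul_zero]
    exact fun h' => hik (hi _ _ (h'.1.symm.trans h.1) (by omega))
  · exact fun h' => absurd (Finset.mem_univ _) h'

theorem JOrb_gram (M : Matrix β β ℂ) (k k' : β) :
    ∑ l, star (M l k) * M l k' = (star M * M) k k' := by
  simp only [Matrix.mul_apply, Matrix.star_apply]

theorem JOrb_blk {g : Matrix β β ℂ} (hg : g ∈ KG fun k => (lb k, ρ k)) {l k : β}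
    (h : g l k ≠ 0) : lb l = lb k ∧ ρ l = ρ k := by
  by_contra hn
  exact h (hg.2 l k fun he => hn (Prod.ext_iff.1 he))

theorem JOrb_iso {a g : Matrix β β ℂ} (hP : star a * a + JE0 ρ = 1)
    (hg : g ∈ KG fun k => (lb k, ρ k)) {k : β} (hk : ρ k ≠ 0) (k' : β) :
    (star (a * g) * (a * g)) k k' = if k = k' then 1 else 0 := by
  have h1 : star a * a = 1 - JE0 ρ := eq_sub_of_add_eq hP
  have h2 : star g * g = 1 := Matrix.mem_unitaryGroup_iff'.1 hg.1
  have h3 : g * JE0 ρ = JE0 ρ * g := j_E0_comm fun l k h => (JOrb_blk hg h).2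
  have h4 : star (a * g) * (a * g) = 1 - JE0 ρ := by
    rw [star_mul, mul_assoc, ← mul_assoc (star a), h1, sub_mul, one_mul, ← h3, mul_sub,
      ← mul_assoc, h2, one_mul]
  rw [h4, Matrix.sub_apply, Matrix.one_apply, JE0, Matrix.diagonal_apply, if_neg hk, ite_self,
    sub_zero]

theorem JOrb_step (hb : ∀ k, lb (bot k) = lb k) (hi : ∀ k l, bot k = bot l → ρ k = ρ l → k = l)
    (hgap : ∀ k, ∀ m ≤ ρ k, ∃ l, bot l = bot k ∧ ρ l = m) {a : Matrix β β ℂ}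
    (ha : ∀ l k, a l k ≠ 0 → lb l = lb k ∧ ρ k = ρ l + 1) (hP : star a * a + JE0 ρ = 1) {m : ℕ}
    {g : Matrix β β ℂ} (hg : g ∈ KG fun k => (lb k, ρ k))
    (h : ∀ k, m + 1 < ρ k → ∀ l, (a * g) l k = (g * Ja0 ρ bot) l k) :
    ∃ g' ∈ KG fun k => (lb k, ρ k), ∀ k, m < ρ k → ∀ l, (a * g') l k = (g' * Ja0 ρ bot) l k := by
  obtain ⟨g', hg', he⟩ := j_ext (fun k => (lb k, ρ k))
    {j | ρ j ≠ m ∨ ∃ k, bot j = bot k ∧ ρ k = ρ j + 1}
    (c := Matrix.of fun l j => if ρ j = m then (a * g * star (Ja0 ρ bot)) l j else g l j)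
    (fun j hj l hl => by
      rw [Matrix.of_apply] at hl
      by_cases hm : ρ j = m
      · obtain ⟨k, hk⟩ := hj.resolve_left (not_not.2 hm)
        rw [if_pos hm, JOrb_mul_star_a0 hi _ hk] at hl
        obtain ⟨i, h1, h2⟩ := JOrb_mul_ne hl
        have h3 := ha _ _ h1
        have h4 := JOrb_blk hg h2
        refine Prod.ext ?_ (by dsimp only; omega)
        exact h3.1.trans (h4.1.trans ((hb k).symm.trans (hk.1 ▸ hb j)))
      · rw [if_neg hm] at hl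
        exact Prod.ext_iff.2 (JOrb_blk hg hl))
    (fun j hj j' hj' hjj => by
      have h0 : ρ j = ρ j' := (Prod.ext_iff.1 hjj).2
      simp only [Matrix.of_apply]
      by_cases hm : ρ j = m
      · obtain ⟨k, hk⟩ := hj.resolve_left (not_not.2 hm)
        obtain ⟨k', hk'⟩ := hj'.resolve_left (not_not.2 (h0 ▸ hm))
        simp only [if_pos hm, if_pos (h0 ▸ hm : ρ j' = m), JOrb_mul_star_a0 hi _ hk,
          JOrb_mul_star_a0 hi _ hk']
        rw [JOrb_gram, JOrb_iso hP hg (by omega)]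
        refine if_congr ⟨fun e => hi _ _ ?_ h0, fun e => hi _ _ ?_ (by omega)⟩ rfl rfl
        · rw [hk.1, hk'.1, e]
        · rw [← hk.1, ← hk'.1, e]
      · simp only [if_neg hm, if_neg (h0 ▸ hm : ¬ρ j' = m)]
        rw [JOrb_gram, Matrix.mem_unitaryGroup_iff'.1 hg.1, Matrix.one_apply])
  refine ⟨g', hg', fun k hk l => ?_⟩
  obtain ⟨j, hj⟩ := hgap k (ρ k - 1) (by omega)
  have hjk : bot j = bot k ∧ ρ k = ρ j + 1 := ⟨hj.1, by omega⟩
  have h1 : (a * g') l k = (a * g) l k := by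
    simp only [Matrix.mul_apply]
    refine Finset.sum_congr rfl fun i _ => ?_
    rw [he k (Or.inl (by omega)) i, Matrix.of_apply, if_neg (by omega)]
  rw [h1, JOrb_mul_a0 hi _ hjk, he j (Or.inr ⟨k, hjk⟩) l, Matrix.of_apply]
  by_cases hm : ρ j = m
  · rw [if_pos hm, JOrb_mul_star_a0 hi _ hjk]
  · rw [if_neg hm, h k (by omega) l, JOrb_mul_a0 hi _ hjk]

theorem JOrb_conj (hb : ∀ k, lb (bot k) = lb k) (hi : ∀ k l, bot k = bot l → ρ k = ρ l → k = l)
    (hgap : ∀ k, ∀ m ≤ ρ k, ∃ l, bot l = bot k ∧ ρ l = m) {a : Matrix β β ℂ}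
    (ha : ∀ l k, a l k ≠ 0 → lb l = lb k ∧ ρ k = ρ l + 1) (hP : star a * a + JE0 ρ = 1) :
    ∃ g ∈ KG fun k => (lb k, ρ k), a = g * Ja0 ρ bot * star g := by
  have key : ∀ n m, Finset.univ.sup ρ ≤ m + n → ∃ g ∈ KG fun k => (lb k, ρ k),
      ∀ k, m < ρ k → ∀ l, (a * g) l k = (g * Ja0 ρ bot) l k := by
    intro n
    induction n with
    | zero =>
      intro m hm
      refine ⟨1, (isGrp_KG _).one, fun k hk => ?_⟩
      have h1 : ρ k ≤ Finset.univ.sup ρ := Finset.le_sup (Finset.mem_univ k)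
      omega
    | succ n ih =>
      intro m hm
      obtain ⟨g, hg, h⟩ := ih (m + 1) (by omega)
      exact JOrb_step hb hi hgap ha hP hg h
  obtain ⟨g, hg, h⟩ := key _ 0 (zero_add _).ge
  refine ⟨g, hg, ?_⟩
  have h1 : a * g = g * Ja0 ρ bot := by
    ext l k
    by_cases hk : 0 < ρ k
    · exact h k hk l
    · have h2 : (a * g) l k = 0 := by
        by_contra h2
        obtain ⟨i, h3, h4⟩ := JOrb_mul_ne h2
        have h5 := (ha _ _ h3).2
        have h6 := (JOrb_blk hg h4).2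
        omega
      have h3 : (g * Ja0 ρ bot) l k = 0 := by
        by_contra h3
        obtain ⟨i, -, h4⟩ := JOrb_mul_ne h3
        have h5 := (JOrb_a0_ne h4).2
        omega
      rw [h2, h3]
  rw [← h1, mul_assoc, Matrix.mem_unitaryGroup_iff.1 hg.1, mul_one]

theorem JOrb_sub_a0 : Jsub ρ (Ja0 ρ bot) = Ja0 ρ bot := by
  ext l k
  rw [Jsub, Matrix.of_apply]
  split_ifs with h
  · rfl
  · exact (if_neg fun h' => h h'.2).symm

theorem JOrb_P_a0 (hi : ∀ k l, bot k = bot l → ρ k = ρ l → k = l)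
    (hgap : ∀ k, ∀ m ≤ ρ k, ∃ l, bot l = bot k ∧ ρ l = m) : JP ρ (Ja0 ρ bot) = 1 := by
  ext l k
  rw [JP, JOrb_sub_a0, Matrix.add_apply, JE0, Matrix.diagonal_apply, Matrix.one_apply]
  by_cases hk : ρ k = 0
  · have h3 : (star (Ja0 ρ bot) * Ja0 ρ bot) l k = 0 := by
      by_contra h3
      obtain ⟨i, -, h4⟩ := JOrb_mul_ne h3
      have h5 := (JOrb_a0_ne h4).2
      omega
    rw [h3, zero_add]
    split_ifs with h1 h2
    · rfl
    · exact absurd (h1 ▸ hk) h2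
    · rfl
  · obtain ⟨j, hj⟩ := hgap k (ρ k - 1) (by omega)
    have hjk : bot j = bot k ∧ ρ k = ρ j + 1 := ⟨hj.1, by omega⟩
    rw [JOrb_mul_a0 hi _ hjk, Matrix.star_apply, Ja0, Matrix.of_apply]
    by_cases h1 : l = k
    · subst h1
      rw [if_pos hjk, if_pos rfl, if_neg hk, if_pos rfl, star_one, add_zero]
    · rw [if_neg h1, if_neg h1, if_neg, star_zero, add_zero]
      exact fun h' => h1 (hi _ _ (h'.1.symm.trans hjk.1) (by omega))

end lin

namespace HD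

variable {β I Ar τ Λ Λ' : Type} [Fintype β] [DecidableEq β] [Fintype I] [DecidableEq I] [Fintype Ar]
  [DecidableEq Ar] [Fintype τ] [DecidableEq τ] [DecidableEq Λ] [DecidableEq Λ'] (D : HD β I Ar τ)

theorem JOrb_lb {sl : β → Λ} {ρ : β → ℕ} {bot : β → β} (hs : D.IsStr sl ρ bot) (k : β) :
    D.Jlb sl (bot k) = D.Jlb sl k := Prod.ext (hs.vx k) (hs.slot k)

theorem j_x0_mem {sl : β → Λ} {ρ : β → ℕ} {bot : β → β} (hs : D.IsStr sl ρ bot) :
    Jx0 Ar ρ bot ∈ D.JOr sl ρ := by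
  refine ⟨fun _ => rfl, fun l k h => ?_, JOrb_sub_a0, JOrb_P_a0 hs.inj hs.gap⟩
  have h1 := JOrb_a0_ne (ρ := ρ) (bot := bot) h
  exact ⟨(D.JOrb_lb hs l).symm.trans (h1.1 ▸ D.JOrb_lb hs k), by omega⟩
theorem j_trans {sl : β → Λ} {ρ : β → ℕ} {bot : β → β} (hs : D.IsStr sl ρ bot) {x : UU β Ar}
    (hx : x ∈ D.JOr sl ρ) : ∃ u ∈ D.JK sl ρ, x = D.act u (Jx0 Ar ρ bot) := by
  obtain ⟨h0, h1, h2, h3⟩ := hx
  rw [JP, h2] at h3
  obtain ⟨g, hg, he⟩ := JOrb_conj (lb := D.Jlb sl) (D.JOrb_lb hs) hs.inj hs.gap (a := x none)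
    (fun l k h => ⟨(h1 l k h).1, by
      by_contra hn
      rw [← h2] at h
      exact h (if_neg hn)⟩) h3
  obtain ⟨h4, -, h5⟩ := D.fromBlocks_mem_K (sl := fun k => (sl k, ρ k)) hg.1 fun k l h =>
    ⟨(Prod.ext_iff.1 (JOrb_blk hg h).1).1,
      Prod.ext (Prod.ext_iff.1 (JOrb_blk hg h).1).2 (JOrb_blk hg h).2⟩
  refine ⟨_, h4, funext fun γ => ?_⟩
  rw [h5]
  cases γ with
  | none => exact he
  | some γ =>
    rw [h0]
    change 0 = g * 0 * star g
    rw [mul_zero, zero_mul]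
theorem j_isGrp_JL (sl : β → Λ) (ρ : β → ℕ) (bot : β → β) : IsGrp (D.JL sl ρ bot) := by
  have h := D.isAct_K fun k => (sl k, ρ k)
  refine ⟨fun u hu => hu.1.1, ⟨h.grp.one, h.one _⟩,
    fun u hu v hv => ⟨h.grp.mul u hu.1 v hv.1, ?_⟩, fun u hu => ⟨h.grp.star u hu.1, ?_⟩, ?_⟩
  · rw [h.mul u hu.1 v hv.1, hv.2, hu.2]
  · have h1 := h.mul _ (h.grp.star u hu.1) u hu.1 (Jx0 Ar ρ bot)
    rw [h.grp.star_mul hu.1, h.one, hu.2] at h1
    exact h1.symm
  · have h1 : ContinuousOn (fun u => D.act u (Jx0 Ar ρ bot)) (D.K fun k => (sl k, ρ k)) :=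
      h.cont.comp (f := fun u => (u, Jx0 Ar ρ bot)) (by fun_prop) fun _ hu => ⟨hu, trivial⟩
    exact h1.preimage_isClosed_of_isClosed h.grp.closed isClosed_singleton

end HD

end Pool.Agent.HK
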