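import Pool.Agent.P.MP_1206ce_ag.JO.Strata
import Pool.Agent.P.MP_1206ce_ag.JO.Gen

/-! Retraction onto the isometric locus. -/

open scoped Topology
open Filter Set

noncomputable section

namespace Pool.Agent.HK

section lin

open scoped ComplexOrder

variable {β Λ : Type} [Fintype β] [DecidableEq β] [DecidableEq Λ] {lb : β → Λ} {ρ : β → ℕ}
  {a b g : Matrix β β ℂ} {r : Matrix β β ℂ → Matrix β β ℂ}

/-- The properties of the inverse square root. -/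
structure JRetr_Isq (r : Matrix β β ℂ → Matrix β β ℂ) : Prop where
  cont : ContinuousOn r {a | a.PosDef}
  pos : ∀ a : Matrix β β ℂ, a.PosDef → (r a).PosDef ∧ star (r a) * a * r a = 1
  one : r 1 = 1
  conj : ∀ a u : Matrix β β ℂ, a.PosDef → star u * u = 1 →
    r (u * a * star u) = u * r a * star u

/-- The segment from the identity to the inverse square root. -/
def JRetr_M (r : Matrix β β ℂ → Matrix β β ℂ) (ρ : β → ℕ) (a : Matrix β β ℂ) (s : ℝ) :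
    Matrix β β ℂ := (1 - s) • (1 : Matrix β β ℂ) + s • r (JP ρ a)

/-- The homotopy on the loop. -/
def JRetr_H (r : Matrix β β ℂ → Matrix β β ℂ) (ρ : β → ℕ) (a : Matrix β β ℂ) (s : ℝ) :
    Matrix β β ℂ := Jsub ρ a * JRetr_M r ρ a s + (1 - s) • (a - Jsub ρ a)

omit [Fintype β] [DecidableEq Λ] in
theorem JRetr_one_blk {Λ' : Type} (f : β → Λ') (l k : β) (h : (1 : Matrix β β ℂ) l k ≠ 0) :
    f l = f k := by
  by_contra e
  exact h (Matrix.one_apply_ne fun e' => e (congrArg f e'))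

omit [Fintype β] [DecidableEq β] [DecidableEq Λ] in
theorem JRetr_star_blk {Λ' : Type} {f : β → Λ'} (hg : ∀ l k, g l k ≠ 0 → f l = f k) (l k : β)
    (h : star g l k ≠ 0) : f l = f k := by
  rw [Matrix.star_apply, star_ne_zero] at h
  exact (hg k l h).symm

theorem JRetr_R_blk (hr : JRetr_Isq r) (ha : a ∈ JNo lb ρ) (l k : β)
    (h : r (JP ρ a) l k ≠ 0) : lb l = lb k ∧ ρ l = ρ k := by
  have h1 : Frames_Blk (fun k => (lb k, ρ k)) (JP ρ a) := fun k l hkl => by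
    by_contra e
    exact hkl (Prod.ext (j_P_blk ha.1 e).1 (j_P_blk ha.1 e).2)
  have h2 : Frames_Blk (fun k => (lb k, ρ k)) (r (JP ρ a)) :=
    Frames_blk_of_conj h1 fun u hu e => by rw [← hr.conj _ u (j_P_posDef ha) hu, e]
  by_contra e
  exact h (h2 l k fun e' => e (Prod.ext_iff.1 e'))

theorem JRetr_M_blk (hr : JRetr_Isq r) (ha : a ∈ JNo lb ρ) (s : ℝ) (l k : β)
    (h : JRetr_M r ρ a s l k ≠ 0) : lb l = lb k ∧ ρ l = ρ k := by
  by_contra e
  refine h ?_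
  have h1 : (1 : Matrix β β ℂ) l k = 0 := by
    by_contra e'
    exact e ⟨JRetr_one_blk lb l k e', JRetr_one_blk ρ l k e'⟩
  have h2 : r (JP ρ a) l k = 0 := by
    by_contra e'
    exact e (JRetr_R_blk hr ha l k e')
  rw [JRetr_M, Matrix.add_apply, Matrix.smul_apply, Matrix.smul_apply, h1, h2, smul_zero,
    smul_zero, add_zero]

omit [Fintype β] [DecidableEq β] [DecidableEq Λ] in
theorem JRetr_sub_Nr (ha : a ∈ JNr lb ρ) : Jsub ρ a ∈ JNr lb ρ := fun l k h =>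
  ha l k fun e => h (by simp [Jsub, e])

omit [Fintype β] [DecidableEq β] [DecidableEq Λ] in
theorem JRetr_comb_Nr {d : Matrix β β ℂ} (hd : d ∈ JNr lb ρ) (ha : a ∈ JNr lb ρ)
    (hb : b ∈ JNr lb ρ) (t : ℝ) : d + t • (a - b) ∈ JNr lb ρ := by
  intro l k h
  by_contra e
  have h1 : d l k = 0 := by_contra fun e' => e (hd l k e')
  have h2 : a l k = 0 := by_contra fun e' => e (ha l k e')
  have h3 : b l k = 0 := by_contra fun e' => e (hb l k e')
  exact h (by simp [h1, h2, h3])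

omit [Fintype β] [DecidableEq β] in
theorem JRetr_sub_sub (ρ : β → ℕ) (a : Matrix β β ℂ) : Jsub ρ (Jsub ρ a) = Jsub ρ a := by
  ext l k
  simp only [Jsub, Matrix.of_apply]
  split_ifs <;> rfl

omit [Fintype β] [DecidableEq β] in
theorem JRetr_sub_comb (ρ : β → ℕ) (d a : Matrix β β ℂ) (t : ℝ) :
    Jsub ρ (d + t • (a - Jsub ρ a)) = Jsub ρ d := by
  ext l k
  simp only [Jsub, Matrix.of_apply, Matrix.add_apply, Matrix.smul_apply, Matrix.sub_apply]
  split_ifs <;> simp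

theorem JRetr_sub_mul (h : ∀ l k, g l k ≠ 0 → ρ l = ρ k) (a : Matrix β β ℂ) :
    Jsub ρ (Jsub ρ a * g) = Jsub ρ a * g := by
  have := j_sub_mul (JRetr_one_blk ρ) h 1 (Jsub ρ a)
  rwa [one_smul, one_smul, one_mul, JRetr_sub_sub, one_mul] at this

theorem JRetr_sub_H (hr : JRetr_Isq r) (ha : a ∈ JNo lb ρ) (s : ℝ) :
    Jsub ρ (JRetr_H r ρ a s) = Jsub ρ a * JRetr_M r ρ a s := by
  rw [JRetr_H, JRetr_sub_comb, JRetr_sub_mul fun l k h => (JRetr_M_blk hr ha s l k h).2]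

theorem JRetr_H_mem (hr : JRetr_Isq r) (ha : a ∈ JNo lb ρ) {s : ℝ} (hs : s ∈ Icc (0 : ℝ) 1) :
    JRetr_H r ρ a s ∈ JNo lb ρ := by
  refine j_mem_No_iff.2 ⟨JRetr_comb_Nr ?_ ha.1 (JRetr_sub_Nr ha.1) _, fun z hz h => ?_⟩
  · have := j_Nr_mul (fun l k h => ⟨JRetr_one_blk lb l k h, JRetr_one_blk ρ l k h⟩)
      (JRetr_M_blk hr ha s) 1 (JRetr_sub_Nr ha.1)
    rwa [one_smul, one_mul] at this
  · rw [JRetr_sub_H hr ha, ← Matrix.mulVec_mulVec] at h
    refine Matrix.eq_zero_of_mulVec_eq_zero (M := JRetr_M r ρ a s)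
      (Frames_seg_det (hr.pos _ (j_P_posDef ha)).1 hs) ((j_mem_No_iff.1 ha).2 _ (fun k hk => ?_) h)
    refine Finset.sum_eq_zero fun l _ => ?_
    by_cases e : JRetr_M r ρ a s k l = 0
    · exact mul_eq_zero_of_left e _
    · rw [hz l ((JRetr_M_blk hr ha s k l e).2 ▸ hk), mul_zero]

theorem JRetr_H_zero (r : Matrix β β ℂ → Matrix β β ℂ) (ρ : β → ℕ) (a : Matrix β β ℂ) :
    JRetr_H r ρ a 0 = a := by
  simp [JRetr_H, JRetr_M]

theorem JRetr_H_one (r : Matrix β β ℂ → Matrix β β ℂ) (ρ : β → ℕ) (a : Matrix β β ℂ) :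
    JRetr_H r ρ a 1 = Jsub ρ a * r (JP ρ a) := by
  simp [JRetr_H, JRetr_M]

theorem JRetr_P_one (hr : JRetr_Isq r) (ha : a ∈ JNo lb ρ) :
    Jsub ρ (JRetr_H r ρ a 1) = JRetr_H r ρ a 1 ∧ JP ρ (JRetr_H r ρ a 1) = 1 := by
  have hb : ∀ l k, r (JP ρ a) l k ≠ 0 → ρ l = ρ k := fun l k h => (JRetr_R_blk hr ha l k h).2
  rw [JRetr_H_one]
  refine ⟨JRetr_sub_mul hb a, ?_⟩
  have h1 := (hr.pos _ (j_P_posDef ha)).2
  have hE : JE0 ρ * JE0 ρ = (JE0 ρ : Matrix β β ℂ) := by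
    rw [JE0, Matrix.diagonal_mul_diagonal]
    congr 1
    funext k
    split_ifs <;> simp
  have hP : JP ρ a * JE0 ρ = JE0 ρ := by
    rw [JP, add_mul, mul_assoc, j_sub_mul_E0, mul_zero, zero_add, hE]
  have h2 : star (r (JP ρ a)) * JE0 ρ * r (JP ρ a) = JE0 ρ := by
    calc star (r (JP ρ a)) * JE0 ρ * r (JP ρ a)
        = star (r (JP ρ a)) * JP ρ a * (JE0 ρ * r (JP ρ a)) := by
          conv_lhs => rw [← hP]
          simp only [mul_assoc]
      _ = JE0 ρ := by rw [← j_E0_comm hb, ← mul_assoc, h1, one_mul]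
  rw [JP, JRetr_sub_mul hb, star_mul, ← h1]
  generalize r (JP ρ a) = R at h2 ⊢
  rw [JP, mul_add, add_mul, h2]
  simp only [mul_assoc]

theorem JRetr_H_conj (hr : JRetr_Isq r) (ha : a ∈ JNo lb ρ) (hu : g ∈ Matrix.unitaryGroup β ℂ)
    (h : ∀ l k, g l k ≠ 0 → ρ l = ρ k) {c : ℂ} (hc : ‖c‖ = 1) (s : ℝ) :
    JRetr_H r ρ (c • (g * a * star g)) s = c • (g * JRetr_H r ρ a s * star g) := by
  have h1 : star g * g = 1 := Matrix.mem_unitaryGroup_iff'.1 hu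
  have h2 : g * star g = 1 := Matrix.mem_unitaryGroup_iff.1 hu
  have hM : JRetr_M r ρ (c • (g * a * star g)) s = g * JRetr_M r ρ a s * star g := by
    rw [JRetr_M, j_P_conj hu h hc, hr.conj _ g (j_P_posDef ha) h1, JRetr_M, mul_add, add_mul,
      mul_smul_comm, smul_mul_assoc, mul_one, h2, mul_smul_comm, smul_mul_assoc]
  rw [JRetr_H, hM, j_sub_mul h (JRetr_star_blk h), JRetr_H, smul_mul_assoc,
    HD.Basic_conj_mul h1, mul_add, add_mul, smul_add, mul_smul_comm, smul_mul_assoc, mul_sub,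
    sub_mul, ← smul_sub, smul_comm c (1 - s)]

theorem JRetr_H_cont (hr : JRetr_Isq r) (lb : β → Λ) (ρ : β → ℕ) :
    ContinuousOn (fun p : Matrix β β ℂ × ℝ => JRetr_H r ρ p.1 p.2) (JNo lb ρ ×ˢ univ) := by
  have h1 : ContinuousOn (fun p : Matrix β β ℂ × ℝ => r (JP ρ p.1)) (JNo lb ρ ×ˢ univ) :=
    hr.cont.comp ((j_continuous_P ρ).comp continuous_fst).continuousOn
      fun p hp => j_P_posDef hp.1
  have h2 : Continuous fun p : Matrix β β ℂ × ℝ => Jsub ρ p.1 :=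
    (j_continuous_sub ρ).comp continuous_fst
  have h3 : Continuous fun p : Matrix β β ℂ × ℝ => 1 - p.2 := continuous_const.sub continuous_snd
  exact (h2.continuousOn.mul ((h3.smul continuous_const).continuousOn.add
    (continuous_snd.continuousOn.smul h1))).add (h3.smul (continuous_fst.sub h2)).continuousOn

end lin

namespace HD

variable {β I Ar τ Λ Λ' : Type} [Fintype β] [DecidableEq β] [Fintype I] [DecidableEq I] [Fintype Ar]
  [DecidableEq Ar] [Fintype τ] [DecidableEq τ] [DecidableEq Λ] [DecidableEq Λ'] (D : HD β I Ar τ)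

theorem JRetr_mem_U {sl : β → Λ} {ρ : β → ℕ} {y : UU β Ar} (hn : y none ∈ JNr (D.Jlb sl) ρ)
    (hs : ∀ γ l k, (some γ, l, k) ∉ D.PU sl → y (some γ) l k = 0) : y ∈ D.U sl := by
  rintro ⟨_ | γ, l, k⟩ hp
  · by_contra e
    have := Prod.ext_iff.1 (hn l k e).1
    exact hp (D.Basic_mem_PU.2 ⟨decide_eq_true this.1, this.2⟩)
  · exact hs γ l k hp

theorem JRetr_gau {sl : β → Λ} {ρ : β → ℕ} {u : Matrix (β ⊕ τ) (β ⊕ τ) ℂ} (hu : u ∈ D.JK sl ρ) :
    u ∈ D.K (one β) ∧ ∀ l k, gau u l k ≠ 0 → D.Jlb sl l = D.Jlb sl k ∧ ρ l = ρ k := by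
  have h := D.j_JK_subset sl ρ hu
  exact ⟨D.K_subset sl h, fun l k e => ⟨Prod.ext (D.gau_block h e).1 (D.gau_block h e).2,
    (D.j_mem_JK h).1 hu l k e⟩⟩

theorem j_invX_JOr (sl : β → Λ) (ρ : β → ℕ) : InvX (D.JK sl ρ) D.act (D.JOr sl ρ) := by
  rintro u hu x ⟨h1, h2, h3, h4⟩
  obtain ⟨hK, hb⟩ := D.JRetr_gau hu
  have hρ : ∀ l k, gau u l k ≠ 0 → ρ l = ρ k := fun l k h => (hb l k h).2
  refine ⟨fun γ => ?_, j_Nr_mul hb (fun l k h => ⟨JRetr_star_blk (fun l k h => (hb l k h).1) l k h,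
    JRetr_star_blk hρ l k h⟩) _ h2, ?_, ?_⟩
  · rw [act, h1, mul_zero, zero_mul, smul_zero]
  · rw [act, j_sub_mul hρ (JRetr_star_blk hρ), h3]
  · rw [act, j_P_conj (D.gau_unitary hK) hρ (D.norm_chr_w3 hK none), h4, mul_one]
    exact Matrix.mem_unitaryGroup_iff.1 (D.gau_unitary hK)
theorem j_JOr_subset (sl : β → Λ) (ρ : β → ℕ) : D.JOr sl ρ ⊆ D.JYo sl ρ := by
  rintro x ⟨h1, h2, -, h4⟩
  refine ⟨D.j_mem_JY.2 ⟨D.JRetr_mem_U h2 fun γ l k _ => by rw [h1]; rfl, h2,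
    fun γ l k h => absurd (by rw [h1]; rfl) h⟩, j_mem_No_iff_det.2 ⟨h2, ?_⟩⟩
  rw [h4, Matrix.det_one]
  exact one_ne_zero
theorem j_retract (sl : β → Λ) (ρ : β → ℕ) (n : ℕ) (c : ℤ) :
    IsoBelow c id (D.SP (D.JK sl ρ) (D.JOr sl ρ) n) (D.SP (D.JK sl ρ) (D.JYo sl ρ) n) := by
  obtain ⟨r, r1, r2, r3, r4⟩ := Frames_exists_isqrt (V := β)
  have hr : JRetr_Isq r := ⟨r1, r2, r3, r4⟩
  refine j_isoBelow_retract (D.j_isAct_JK sl ρ) (D.j_invX_JYo sl ρ) (D.j_invX_JOr sl ρ)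
    (D.j_JOr_subset sl ρ) (D.j_lc_JYo sl ρ)
    (invF_Inj ((D.j_JK_subset sl ρ).trans (D.K_subset sl)) n) (lc_Inj _ n)
    (H := fun p γ => γ.elim (JRetr_H r ρ (p.1 none) p.2) fun γ => (1 - p.2) • p.1 (some γ))
    ?_ ?_ ?_ ?_ ?_ c
  · refine continuousOn_pi.2 ?_
    rintro (_ | γ)
    · exact (JRetr_H_cont hr (D.Jlb sl) ρ).comp
        (f := fun p : UU β Ar × ℝ => (p.1 none, p.2)) (by fun_prop) fun p hp => ⟨hp.1.2, trivial⟩
    · exact (show Continuous fun p : UU β Ar × ℝ => (1 - p.2) • p.1 (some γ) by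
        fun_prop).continuousOn
  · rintro ⟨x, s⟩ ⟨⟨hx, hx'⟩, hs⟩
    obtain ⟨a1, -, a3⟩ := D.j_mem_JY.1 hx
    have hH := JRetr_H_mem hr hx' hs
    refine ⟨D.j_mem_JY.2 ⟨D.JRetr_mem_U hH.1 fun γ l k hp => ?_, hH.1, fun γ l k h => ?_⟩, hH⟩
    · change (1 - s) • x (some γ) l k = 0
      rw [show x (some γ) l k = 0 from a1 _ hp, smul_zero]
    · refine a3 γ l k fun e => h ?_
      change (1 - s) • x (some γ) l k = 0
      rw [show x (some γ) l k = 0 from e, smul_zero]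
  · rintro x ⟨-, hx⟩
    refine ⟨funext ?_, fun γ => ?_, (JRetr_H_mem hr hx ⟨zero_le_one, le_rfl⟩).1,
      JRetr_P_one hr hx⟩
    · rintro (_ | γ)
      · exact JRetr_H_zero r ρ _
      · change ((1 : ℝ) - 0) • x (some γ) = _
        rw [sub_zero, one_smul]
    · change ((1 : ℝ) - 1) • x (some γ) = _
      rw [sub_self, zero_smul]
  · rintro x ⟨h1, -, h3, h4⟩
    refine funext ?_
    rintro (_ | γ)
    · change JRetr_H r ρ (x none) 1 = _
      rw [JRetr_H_one, h3, h4, r3, mul_one]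
    · change ((1 : ℝ) - 1) • x (some γ) = _
      rw [sub_self, zero_smul, h1]
  · rintro u hu x ⟨-, hx⟩ s -
    obtain ⟨hK, hb⟩ := D.JRetr_gau hu
    refine funext ?_
    rintro (_ | γ)
    · exact JRetr_H_conj hr hx (D.gau_unitary hK) (fun l k h => (hb l k h).2)
        (D.norm_chr_w3 hK none) s
    · change (1 - s) • (_ • (_ * x (some γ) * _)) = _ • (_ * (1 - s) • x (some γ) * _)
      rw [mul_smul_comm, smul_mul_assoc, smul_comm]

end HD

end Pool.Agent.HK
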