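import Pool.Agent.P.MP_1206ce_ag.JO.Cls
import Pool.Agent.P.MP_1206ce_ag.JO.Alg

/-! The induction along the Jordan stratification. -/

open scoped Topology
open Filter Set

noncomputable section

namespace Pool.Agent.HK

namespace HD

variable {β I Ar τ Λ Λ' : Type} [Fintype β] [DecidableEq β] [Fintype I] [DecidableEq I] [Fintype Ar]
  [DecidableEq Ar] [Fintype τ] [DecidableEq τ] [DecidableEq Λ] [DecidableEq Λ'] (D : HD β I Ar τ)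

theorem JStep_res {Y : Type} [TopologicalSpace Y] {A A' B : Set Y} (h' : ClosedIn A' A)
    (h : ClosedIn A B) : res A A' ∘ₗ res B A = res B A' := by
  rw [tw_comp (h.properOn.twOK (one_mem_ZZ _)) (h'.properOn.twOK (one_mem_ZZ _)), pb_one,
    one_cup Bdd.one.1]
  rfl

theorem JStep_nice (sl : β → Λ) : Nice (Bor (D.K sl) D.act) :=
  D.nice_Bor (isGrp_KG _) (D.K_subset sl)

theorem JStep_closedIn {Y : Type} [TopologicalSpace Y] {C B : Set Y} (hC : IsClosed C)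
    (h : C ⊆ B) : ClosedIn C B := ⟨C, hC, (inter_eq_right.2 h).symm⟩

theorem JStep_lc {sl : β → Λ} {C : Set (UU β Ar)} (hC : IsClosed C) (hi : InvX (D.K sl) D.act C)
    (hs : C ⊆ D.U sl) (n : ℕ) : LC (D.SP (D.K sl) (Zs C) n) :=
  D.lc_SP (isGrp_KG _) (D.K_subset sl) (D.invX_Zs (D.K_subset sl) hi)
    (((D.amb.lc _).closedIn (JStep_closedIn hC hs)).closedIn (closedIn_Zs C)) n

theorem JStep_clU {sl : β → Λ} {C : Set (UU β Ar)} (hC : IsClosed C) (hs : C ⊆ D.U sl) (n : ℕ) :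
    ClosedIn (D.SP (D.K sl) (Zs C) n) (D.SP (D.K sl) (D.U sl) n) :=
  D.closedIn_SP (isGrp_KG _) (D.K_subset sl) (D.invX_U sl)
    ((closedIn_Zs C).trans (JStep_closedIn hC hs)) n

theorem JStep_cl (sl : β → Λ) (kr : (β → ℕ) → ℕ) (c n : ℕ) :
    ClosedIn (D.SP (D.K sl) (Zs (D.JC sl kr c)) n) (D.SP (D.K sl) (Zs (D.JC sl kr (c + 1))) n) :=
  D.closedIn_SP (isGrp_KG _) (D.K_subset sl) (D.invX_Zs (D.K_subset sl) (D.j_invX_JC sl kr _))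
    (Zs_closedIn (JStep_closedIn (D.j_isClosed_JC sl kr c) (D.j_JC_mono sl kr (Nat.le_succ c)))) n

theorem JStep_diff {sl : β → Λ} {kr : (β → ℕ) → ℕ} (hk : D.IsKr sl kr) {ρ : β → ℕ}
    (hρ : D.Decr sl ρ) (n : ℕ) : D.SP (D.K sl) (Zs (D.JS sl ρ)) n =
      D.SP (D.K sl) (Zs (D.JC sl kr (kr ρ + 1))) n \ D.SP (D.K sl) (Zs (D.JC sl kr (kr ρ))) n := by
  rw [← D.SP_diff (isGrp_KG _) (D.K_subset sl) (D.invX_Zs (D.K_subset sl) (D.j_invX_JC sl kr _)),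
    ← Zs_diff, D.j_JC_diff hk hρ]

/-- A class that vanishes on the stratum comes from the previous closed set. -/
theorem JStep_lift {sl : β → Λ} {kr : (β → ℕ) → ℕ} (hk : D.IsKr sl kr) {ρ : β → ℕ}
    (hρ : D.Decr sl ρ) {n : ℕ} {j : ℤ} {φ : EE (D.SP (D.K sl) (Zs (D.JC sl kr (kr ρ + 1))) n)}
    (hφ : EDeg _ j φ) (h0 : φ ∘ₗ ext (D.SP (D.K sl) (Zs (D.JS sl ρ)) n)
      (D.SP (D.K sl) (Zs (D.JC sl kr (kr ρ + 1))) n) = 0) :
    ∃ ψ : EE (D.SP (D.K sl) (Zs (D.JC sl kr (kr ρ))) n), EDeg _ j ψ ∧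
      φ = ψ ∘ₗ res (D.SP (D.K sl) (Zs (D.JC sl kr (kr ρ + 1))) n)
        (D.SP (D.K sl) (Zs (D.JC sl kr (kr ρ))) n) ∧
      ψ ∘ₗ res (D.SP (D.K sl) (D.U sl) n) (D.SP (D.K sl) (Zs (D.JC sl kr (kr ρ))) n) =
        φ ∘ₗ res (D.SP (D.K sl) (D.U sl) n) (D.SP (D.K sl) (Zs (D.JC sl kr (kr ρ + 1))) n) := by
  have := D.JStep_nice sl
  have hC := D.j_good_JC kr hρ
  obtain ⟨ψ, h1, h2⟩ := E_exact_mid (D.JStep_lc hC.closed hC.inv hC.sub n)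
    (D.JStep_cl sl kr (kr ρ) n) (D.JStep_diff hk hρ n) hφ h0
  refine ⟨ψ, h1, h2, ?_⟩
  rw [h2, LinearMap.comp_assoc,
    JStep_res (D.JStep_cl sl kr (kr ρ) n) (D.JStep_clU hC.closed hC.sub n)]

theorem JStep_deg {sl : β → Λ} {ρ : β → ℕ} {C : Set (UU β Ar)} (hC : D.JGood sl ρ C)
    {g : MvPolynomial (β ⊕ τ) ℂ} {d : ℕ} (h : g = 0 ∨ ∃ e : ℕ, g.IsHomogeneous e ∧
      d = e + npos (D.labr sl ρ) + ((D.PU sl).card - (D.PY sl ρ).card)) (n : ℕ) :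
    EDeg _ (D0 (β ⊕ τ) n + 2 * (D.PU sl).card - 2 * d) (D.Jcl sl ρ C (g * D.Jtop sl ρ) n) ∧
      (g * D.Jtop sl ρ * D.JE sl ρ).IsHomogeneous d := by
  rcases h with rfl | ⟨e, he, rfl⟩
  · rw [zero_mul, zero_mul, D.j_cl_zero]
    exact ⟨EDeg.zero _ _, MvPolynomial.isHomogeneous_zero _ _ _⟩
  · have h1 := he.mul (D.j_top_hom sl ρ)
    refine ⟨?_, h1.mul (D.j_JE_hom sl ρ)⟩
    have h2 := D.j_cl_deg hC h1 n
    have h3 := D.j_PY_le sl ρ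
    have e1 : D0 (β ⊕ τ) n + 2 * ((D.PU sl).card : ℤ) -
        2 * ((e + npos (D.labr sl ρ) + ((D.PU sl).card - (D.PY sl ρ).card) : ℕ) : ℤ) =
        D0 (β ⊕ τ) n + 2 * ((D.PY sl ρ).card : ℤ) - 2 * ((e + npos (D.labr sl ρ) : ℕ) : ℤ) := by
      omega
    rw [e1]
    exact h2

theorem JStep_cancel {sl : β → Λ} {ρ : β → ℕ} {g y : MvPolynomial (β ⊕ τ) ℂ}
    (hg : g ∈ Rinv (D.labr sl ρ)) {Y : Submodule ℂ (MvPolynomial (β ⊕ τ) ℂ)} (hy : y ∈ Y)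
    (h : Alt (D.lab sl) (g * D.Jtop sl ρ * D.JE sl ρ) = D.hb ^ Fintype.card β * y) :
    D.gen sl ρ g ∈ Y := by
  obtain ⟨z, hz, h1⟩ := D.j_alt_gen sl ρ
  rw [h1 g hg] at h
  have h2 := mul_left_cancel₀ (pow_ne_zero _ D.hb_ne_zero) h
  exact (Submodule.smul_mem_iff Y hz).1 (h2 ▸ hy)

theorem JStep_rng (V : Type) [Fintype V] (d : ℕ) : ∀ᶠ n in atTop, 2 * (d : ℤ) ≤ rng V n := by
  filter_upwards [eventually_ge_atTop (d + Fintype.card V)] with n hn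
  rw [rng]
  omega

theorem j_base (sl : β → Λ) : D.JTc sl ∅ ⊥ := by
  have h0 : ∀ n, ∀ ψ : EE (D.SP (D.K sl) (Zs ∅) n), ψ = 0 := fun n ψ => by
    have e : D.SP (D.K sl) (Zs ∅) n = ∅ := by
      refine eq_empty_of_forall_notMem ?_
      rintro _ ⟨x, hx, -⟩
      exact hx.1
    have : Subsingleton (Hc (D.SP (D.K sl) (Zs ∅) n)) := by
      rw [e]
      infer_instance
    ext x
    rw [Subsingleton.elim x 0, map_zero, map_zero]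
  refine ⟨fun i => Eventually.of_forall fun n ψ _ _ => h0 n ψ, fun d => ?_⟩
  filter_upwards [JStep_rng (β ⊕ τ) d] with n hn f hf
  constructor
  · rintro ⟨ψ, -, h⟩
    rw [h0 n ψ, LinearMap.zero_comp] at h
    refine ⟨0, zero_mem _, ?_⟩
    rw [mul_zero]
    exact amb_inj (D.refines_lab0 sl) D.amb (D.isAct_K sl) (D.invX_U sl) n hf hn h.symm
  · rintro ⟨y, hy, h⟩
    rw [(Submodule.mem_bot ℂ).1 hy, mul_zero] at h
    refine ⟨0, EDeg.zero _ _, ?_⟩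
    rw [LinearMap.zero_comp]
    exact (amb_zero_of_Alt (D.refines_lab0 sl) D.amb (D.isAct_K sl) (D.invX_U sl) n h).symm

theorem j_step {sl : β → Λ} {kr : (β → ℕ) → ℕ} (hk : D.IsKr sl kr) {ρ : β → ℕ}
    (hρ : D.Decr sl ρ) (h : D.JTc sl (D.JC sl kr (kr ρ)) (D.Ylt sl kr (kr ρ))) :
    D.JTc sl (D.JC sl kr (kr ρ + 1)) (D.Ylt sl kr (kr ρ + 1)) := by
  have := D.JStep_nice sl
  have hC := D.j_good_JC kr hρ
  have ho := D.j_openIn_JS hk hρ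
  obtain ⟨bot, hs⟩ := D.exists_str hρ
  have hle := D.j_PY_le sl ρ
  have hop : ∀ n, OpenIn (D.SP (D.K sl) (Zs (D.JS sl ρ)) n)
      (D.SP (D.K sl) (Zs (D.JC sl kr (kr ρ + 1))) n) := fun n =>
    D.openIn_SP (isGrp_KG _) (D.K_subset sl) (D.invX_Zs (D.K_subset sl) hC.inv) (Zs_openIn ho) n
  refine ⟨fun i => ?_, fun d => ?_⟩
  · obtain ⟨e₀, he₀⟩ : ∃ e₀ : ℕ, e₀ =
      ((2 * ((D.PY sl ρ).card : ℤ) - 2 * npos (D.labr sl ρ) - i) / 2).toNat := ⟨_, rfl⟩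
    filter_upwards [D.j_gen hρ hC ho i, D.j_ker hs hC ho e₀,
      h.img (e₀ + npos (D.labr sl ρ) + ((D.PU sl).card - (D.PY sl ρ).card)), h.inj i]
      with n hgen hker himg hinj ψ hψ h0
    obtain ⟨g, hg, hgd, he⟩ := hgen _ (EDeg.ext (hop n) hψ)
    have h1 : ψ ∘ₗ ext (D.SP (D.K sl) (Zs (D.JS sl ρ)) n)
        (D.SP (D.K sl) (Zs (D.JC sl kr (kr ρ + 1))) n) = 0 := by
      rcases hgd with rfl | ⟨d, hd, hi⟩
      · rw [he, zero_mul, D.j_cl_zero, LinearMap.zero_comp]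
      · obtain rfl : d = e₀ := by omega
        obtain ⟨h2, h3⟩ := D.JStep_deg hC (Or.inr ⟨d, hd, rfl⟩) n
        have e1 : D0 (β ⊕ τ) n + i = D0 (β ⊕ τ) n + 2 * ((D.PU sl).card : ℤ) -
            2 * ((d + npos (D.labr sl ρ) + ((D.PU sl).card - (D.PY sl ρ).card) : ℕ) : ℤ) := by
          omega
        rw [e1] at hψ
        obtain ⟨ψ', h4, -, h5⟩ := D.JStep_lift hk hρ (h2.sub hψ)
          (by rw [LinearMap.sub_comp, he, sub_self])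
        rw [LinearMap.sub_comp, h0, sub_zero, D.j_cl_push hC] at h5
        obtain ⟨y, hy, h6⟩ := (himg _ h3).1 ⟨ψ', h4, h5⟩
        rw [he]
        exact hker g hg hd (D.ev_eq_zero_of_mem hk hs hg (D.JStep_cancel hg hy h6))
    obtain ⟨ψ', h2, h3, h4⟩ := D.JStep_lift hk hρ hψ h1
    rw [h3, hinj ψ' h2 (h4.trans h0), LinearMap.zero_comp]
  · filter_upwards [D.j_gen hρ hC ho (2 * ((D.PU sl).card : ℤ) - 2 * d), h.img d]
      with n hgen himg f hf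
    constructor
    · rintro ⟨ψ, hψ, hp⟩
      obtain ⟨g, hg, hgd, he⟩ := hgen _ (EDeg.ext (hop n) (by rwa [← add_sub_assoc]))
      obtain ⟨h2, h3⟩ := D.JStep_deg hC (g := g) (d := d)
        (hgd.imp id fun ⟨e, h1, h2⟩ => ⟨e, h1, by omega⟩) n
      obtain ⟨ψ', h4, -, h5⟩ := D.JStep_lift hk hρ (hψ.sub h2)
        (by rw [LinearMap.sub_comp, he, sub_self])
      rw [LinearMap.sub_comp, hp, D.j_cl_push hC, ← D.j_aU_sub] at h5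
      obtain ⟨y, hy, h6⟩ := (himg _ (hf.sub h3)).1 ⟨ψ', h4, h5⟩
      obtain ⟨z, -, h7⟩ := D.j_alt_gen sl ρ
      refine ⟨y + z • D.gen sl ρ g, add_mem (D.j_Ylt_mono sl kr (Nat.le_succ _) hy)
        (Submodule.smul_mem _ z (D.j_gen_mem kr hρ hg)), ?_⟩
      rw [mul_add, ← h6, ← h7 g hg, map_sub, sub_add_cancel]
    · rintro ⟨y, hy, he⟩
      obtain ⟨g, hg, hgd, y', hy', h1⟩ := D.j_split hk hf hy he
      obtain ⟨h2, h3⟩ := D.JStep_deg hC hgd n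
      obtain ⟨ψ', h4, h5⟩ := (himg _ (hf.sub h3)).2 ⟨y', hy', h1⟩
      have h6 := EDeg.tw ((D.JStep_cl sl kr (kr ρ) n).properOn.twOK (one_mem_ZZ _)) HomC.one h4
      rw [sub_zero] at h6
      refine ⟨_, h6.add h2, ?_⟩
      rw [LinearMap.add_comp, LinearMap.comp_assoc,
        JStep_res (D.JStep_cl sl kr (kr ρ) n) (D.JStep_clU hC.closed hC.sub n), h5,
        D.j_cl_push hC, D.j_aU_sub, sub_add_cancel]

theorem j_low {sl : β → Λ} {kr : (β → ℕ) → ℕ} (hk : D.IsKr sl kr) {ρ : β → ℕ}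
    (hρ : D.Decr sl ρ) {bot : β → β} (hs : D.IsStr sl ρ bot)
    (h : D.JTc sl (D.JC sl kr (kr ρ)) (D.Ylt sl kr (kr ρ))) {g : MvPolynomial (β ⊕ τ) ℂ}
    (hg : g ∈ Rinv (D.labr sl ρ)) {d : ℕ} (hd : g.IsHomogeneous d) (h0 : D.ev ρ bot g = 0) :
    D.gen sl ρ g ∈ D.Ylt sl kr (kr ρ) := by
  have hC := D.j_good_JC kr hρ
  obtain ⟨n, hker, himg⟩ := ((D.j_ker hs hC (D.j_openIn_JS hk hρ) d).and
    (h.img (d + npos (D.labr sl ρ) + ((D.PU sl).card - (D.PY sl ρ).card)))).exists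
  obtain ⟨h2, h3⟩ := D.JStep_deg hC (Or.inr ⟨d, hd, rfl⟩) n
  obtain ⟨ψ', h4, -, h5⟩ := D.JStep_lift hk hρ h2 (hker g hg hd h0)
  rw [D.j_cl_push hC] at h5
  obtain ⟨y, hy, h6⟩ := (himg _ h3).1 ⟨ψ', h4, h5⟩
  exact D.JStep_cancel hg hy h6

theorem j_sp {sl : β → Λ} {Y : Submodule ℂ (MvPolynomial (β ⊕ τ) ℂ)} (h : D.JTc sl (D.Om sl) Y)
    (ρ : β → ℕ) {p : MvPolynomial (β ⊕ τ) ℂ} {d : ℕ} (hp : p.IsHomogeneous d) :
    Alt (D.lab sl) (p * D.erho sl ρ) ∈ Y := by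
  have hC := D.j_good_Om sl ρ
  have hle := D.j_PY_le sl ρ
  obtain ⟨n, himg⟩ := (h.img (d + ((D.PU sl).card - (D.PY sl ρ).card))).exists
  have h2 := D.j_cl_deg hC hp n
  have e1 : D0 (β ⊕ τ) n + 2 * ((D.PY sl ρ).card : ℤ) - 2 * (d : ℤ) =
      D0 (β ⊕ τ) n + 2 * ((D.PU sl).card : ℤ) -
        2 * ((d + ((D.PU sl).card - (D.PY sl ρ).card) : ℕ) : ℤ) := by omega
  rw [e1] at h2
  obtain ⟨y, hy, h3⟩ := (himg _ (hp.mul (D.j_JE_hom sl ρ))).1 ⟨_, h2, D.j_cl_push hC p n⟩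
  rw [D.j_alt_E] at h3
  have h4 := mul_left_cancel₀ (pow_ne_zero _ D.hb_ne_zero) h3
  exact (Submodule.smul_mem_iff Y (pow_ne_zero _ (neg_ne_zero.2 one_ne_zero))).1 (h4 ▸ hy)

end HD

end Pool.Agent.HK
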