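import Pool.Agent.P.MP_1206ce_ag.JO.Kern

/-! The Jordan stratification. -/

open scoped Topology
open Filter Set

noncomputable section

namespace Pool.Agent.HK

namespace HD

variable {β I Ar τ Λ Λ' : Type} [Fintype β] [DecidableEq β] [Fintype I] [DecidableEq I] [Fintype Ar]
  [DecidableEq Ar] [Fintype τ] [DecidableEq τ] [DecidableEq Λ] [DecidableEq Λ'] (D : HD β I Ar τ)

theorem j_U_none {sl : β → Λ} {x : UU β Ar} (hx : x ∈ D.U sl) {l k : β} (h : x none l k ≠ 0) :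
    D.Jlb sl l = D.Jlb sl k := by
  have h1 := D.Basic_mem_PU.1 (Basic_mem_of_ne hx h)
  simp only [ok, decide_eq_true_eq] at h1
  exact Prod.ext h1.1 h1.2
theorem j_mem_JY {sl : β → Λ} {ρ : β → ℕ} {x : UU β Ar} : x ∈ D.JY sl ρ ↔
    x ∈ D.U sl ∧ x none ∈ JNr (D.Jlb sl) ρ ∧ ∀ γ l k, x (some γ) l k ≠ 0 → ρ l ≤ ρ k := by
  constructor
  · intro hx
    have hU : x ∈ D.U sl := LinS_mono _ (Finset.filter_subset _ _) hx
    refine ⟨hU, fun l k h => ⟨D.j_U_none hU h, ?_⟩, fun γ l k h => ?_⟩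
    · simpa using (Finset.mem_filter.1 (Basic_mem_of_ne hx h)).2
    · simpa using (Finset.mem_filter.1 (Basic_mem_of_ne hx h)).2
  · rintro ⟨hU, h1, h2⟩
    refine Basic_mem_filter.2 ⟨hU, ?_⟩
    rintro ⟨_ | γ, l, k⟩ hp
    · by_contra hn
      exact hp (by simpa using (h1 l k hn).2)
    · by_contra hn
      exact hp (by simpa using h2 γ l k hn)
theorem j_gau_mem {sl : β → Λ} {u : Matrix (β ⊕ τ) (β ⊕ τ) ℂ} (hu : u ∈ D.K sl) :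
    gau u ∈ KG (D.Jlb sl) := by
  refine ⟨D.gau_unitary (D.K_subset sl hu), fun k l h => ?_⟩
  by_contra hn
  have h1 := D.gau_block hu hn
  exact h (Prod.ext h1.1 h1.2)
theorem j_JK_subset (sl : β → Λ) (ρ : β → ℕ) : D.JK sl ρ ⊆ D.K sl :=
  D.K_mono (sl' := fun k => (sl k, ρ k)) fun _ _ h => congrArg Prod.fst h
theorem j_isAct_JK (sl : β → Λ) (ρ : β → ℕ) : IsAct (D.JK sl ρ) D.act :=
  D.isAct_K fun k => (sl k, ρ k)
theorem j_mem_JK {sl : β → Λ} {ρ : β → ℕ} {u : Matrix (β ⊕ τ) (β ⊕ τ) ℂ} (hu : u ∈ D.K sl) :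
    u ∈ D.JK sl ρ ↔ ∀ l k, gau u l k ≠ 0 → ρ l = ρ k := by
  constructor
  · intro h l k h0
    exact congrArg Prod.snd (D.gau_block (sl := fun k => (sl k, ρ k)) h h0).2
  · intro h
    refine ⟨hu.1, ?_⟩
    rintro (k | a) (l | b) hkl
    · by_contra hn
      have h1 := D.gau_block hu (k := k) (l := l) hn
      have h2 := h k l hn
      exact hkl (by simp [lab, h1.1, h1.2, h2])
    · exact D.Basic_lr hu k b
    · exact D.Basic_rl hu a l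
    · exact D.Basic_rr hu fun e => hkl (by rw [e])

theorem JStrata_finite (sl : β → Λ) : {ρ | D.Decr sl ρ}.Finite :=
  (Set.Finite.pi' fun _ : β => Set.finite_lt_nat (Fintype.card β)).subset
    fun _ h k => Decr.lt_card h k

theorem JStrata_chr_ne {sl : β → Λ} {u : Matrix (β ⊕ τ) (β ⊕ τ) ℂ} (hu : u ∈ D.K sl)
    (γ : Gam Ar) : chr (Sum.elim 0 (D.w3 γ)) u ≠ 0 := by
  intro h
  have h1 := D.norm_chr_w3 (D.K_subset sl hu) γ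
  rw [h, norm_zero] at h1
  exact zero_ne_one h1

theorem JStrata_decr {sl : β → Λ} {ρ : β → ℕ} {a : Matrix β β ℂ} (ha : a ∈ JCO (D.Jlb sl) ρ) :
    D.Decr sl ρ := by
  obtain ⟨g, -, hg⟩ := ha
  intro i j m
  have h := j_decr hg (i, j) m
  simpa only [Jlb, Prod.mk.injEq, and_assoc] using h

theorem JStrata_type {sl : β → Λ} {x : UU β Ar} (hx : x ∈ D.Om sl) :
    ∃ ρ, D.Decr sl ρ ∧ x none ∈ JCO (D.Jlb sl) ρ := by
  obtain ⟨ρ, h⟩ := j_exists_type (lb := D.Jlb sl) (fun l k h => D.j_U_none hx.1 h) hx.2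
  exact ⟨ρ, D.JStrata_decr h, h⟩

theorem JStrata_kr_perm {sl : β → Λ} {kr : (β → ℕ) → ℕ} (hk : D.IsKr sl kr) {ρ ρ' : β → ℕ} :
    kr ρ = kr ρ' ↔ ∃ σ : Equiv.Perm β, (∀ k, D.Jlb sl (σ k) = D.Jlb sl k) ∧
      ∀ k, ρ' k = ρ (σ k) := by
  rw [hk.eq_iff]
  constructor
  · rintro ⟨w, hw, rfl⟩
    obtain ⟨g, hg, rfl⟩ := D.mem_Wl_lab.1 hw
    exact ⟨g, fun k => Prod.ext (hg k).1 (hg k).2, fun _ => rfl⟩
  · rintro ⟨g, hg, h⟩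
    exact ⟨_, D.mem_Wl_lab.2 ⟨g, fun k => ⟨congrArg Prod.fst (hg k), congrArg Prod.snd (hg k)⟩,
      rfl⟩, funext h⟩

/-- The type of a conjugate of a level lowering matrix is at most the type of the levels. -/
theorem JStrata_kr_le {sl : β → Λ} {kr : (β → ℕ) → ℕ} (hk : D.IsKr sl kr) {ρ ρ' : β → ℕ}
    {a : Matrix β β ℂ} (ha : a ∈ JCO (D.Jlb sl) ρ) (ha' : a ∈ JCN (D.Jlb sl) ρ') :
    kr ρ ≤ kr ρ' := by
  obtain ⟨h1, h2⟩ := j_compare ha ha'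
  rcases h1.lt_or_eq with h | h
  · exact (hk.lt _ _ h).le
  · exact ((D.JStrata_kr_perm hk).2 (h2 h).2).le

theorem j_isClosed_JC (sl : β → Λ) (kr : (β → ℕ) → ℕ) (c : ℕ) : IsClosed (D.JC sl kr c) := by
  have e : D.JC sl kr c = D.U sl ∩ ⋃ ρ ∈ {ρ | D.Decr sl ρ ∧ kr ρ < c},
      (fun x : UU β Ar => x none) ⁻¹' JCN (D.Jlb sl) ρ := by
    ext x
    simp only [JC, mem_ofPred_eq, mem_inter_iff, mem_iUnion, mem_preimage, exists_prop, and_assoc]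
  rw [e]
  refine (D.amb.isClosed _).inter (Set.Finite.isClosed_biUnion
    ((D.JStrata_finite sl).subset fun _ h => h.1) fun ρ _ => ?_)
  exact (j_isClosed_CN _ ρ).preimage (continuous_apply none)
theorem j_invX_JC (sl : β → Λ) (kr : (β → ℕ) → ℕ) (c : ℕ) :
    InvX (D.K sl) D.act (D.JC sl kr c) := by
  rintro u hu x ⟨hx, ρ, h1, h2, h3⟩
  exact ⟨D.invX_U sl u hu x hx, ρ, h1, h2, j_CN_conj (D.j_gau_mem hu) _ h3⟩
theorem j_JC_subset (sl : β → Λ) (kr : (β → ℕ) → ℕ) (c : ℕ) : D.JC sl kr c ⊆ D.Om sl := by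
  rintro x ⟨hx, ρ, -, -, h3⟩
  exact ⟨hx, j_CN_nilp h3⟩
theorem j_JC_mono (sl : β → Λ) (kr : (β → ℕ) → ℕ) {c c' : ℕ} (h : c ≤ c') :
    D.JC sl kr c ⊆ D.JC sl kr c' := by
  rintro x ⟨hx, ρ, h1, h2, h3⟩
  exact ⟨hx, ρ, h1, h2.trans_le h, h3⟩
theorem j_JC_zero (sl : β → Λ) (kr : (β → ℕ) → ℕ) : D.JC sl kr 0 = ∅ := by
  refine eq_empty_of_forall_notMem ?_
  rintro x ⟨-, ρ, -, h2, -⟩
  exact Nat.not_lt_zero _ h2
theorem j_JC_top (sl : β → Λ) (kr : (β → ℕ) → ℕ) : ∃ c, D.JC sl kr c = D.Om sl := by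
  obtain ⟨c, hc⟩ := ((D.JStrata_finite sl).image kr).bddAbove
  refine ⟨c + 1, Subset.antisymm (D.j_JC_subset sl kr _) fun x hx => ?_⟩
  obtain ⟨ρ, h1, h2⟩ := D.JStrata_type hx
  exact ⟨hx.1, ρ, h1, Nat.lt_succ_of_le (hc ⟨ρ, h1, rfl⟩), j_CO_subset _ _ h2⟩
theorem j_JC_succ (sl : β → Λ) (kr : (β → ℕ) → ℕ) {c : ℕ} (h : ∀ ρ, D.Decr sl ρ → kr ρ ≠ c) :
    D.JC sl kr (c + 1) = D.JC sl kr c := by
  refine Subset.antisymm ?_ (D.j_JC_mono sl kr (Nat.le_succ c))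
  rintro x ⟨hx, ρ, h1, h2, h3⟩
  exact ⟨hx, ρ, h1, lt_of_le_of_ne (Nat.lt_succ_iff.1 h2) (h ρ h1), h3⟩
theorem j_JC_diff {sl : β → Λ} {kr : (β → ℕ) → ℕ} (hk : D.IsKr sl kr) {ρ : β → ℕ}
    (hρ : D.Decr sl ρ) : D.JC sl kr (kr ρ + 1) \ D.JC sl kr (kr ρ) = D.JS sl ρ := by
  ext x
  constructor
  · rintro ⟨hx, hn⟩
    obtain ⟨ρ₀, h1, h2⟩ := D.JStrata_type (D.j_JC_subset sl kr _ hx)
    obtain ⟨hU, ρ', -, k2, k3⟩ := hx
    have a1 : kr ρ₀ ≤ kr ρ := (D.JStrata_kr_le hk h2 k3).trans (Nat.lt_succ_iff.1 k2)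
    have a2 : kr ρ₀ = kr ρ := by
      by_contra hne
      exact hn ⟨hU, ρ₀, h1, lt_of_le_of_ne a1 hne, j_CO_subset _ _ h2⟩
    obtain ⟨σ, hσ, e⟩ := (D.JStrata_kr_perm hk).1 a2
    refine ⟨hU, ?_⟩
    rw [show ρ = fun k => ρ₀ (σ k) from funext e, j_CO_perm hσ]
    exact h2
  · rintro ⟨hU, hx⟩
    refine ⟨⟨hU, ρ, hρ, Nat.lt_succ_self _, j_CO_subset _ _ hx⟩, ?_⟩
    rintro ⟨-, ρ', -, k2, k3⟩
    exact absurd (D.JStrata_kr_le hk hx k3) (not_le.2 k2)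
theorem j_openIn_JS {sl : β → Λ} {kr : (β → ℕ) → ℕ} (hk : D.IsKr sl kr) {ρ : β → ℕ}
    (hρ : D.Decr sl ρ) : OpenIn (D.JS sl ρ) (D.JC sl kr (kr ρ + 1)) :=
  ⟨(D.JC sl kr (kr ρ))ᶜ, (D.j_isClosed_JC sl kr _).isOpen_compl, (D.j_JC_diff hk hρ).symm⟩

theorem JStrata_Wf {sl : β → Λ} {ρ : β → ℕ} {x : UU β Ar} (hx : x ∈ D.JY sl ρ) :
    0 ≤ (Wf x).re := ((D.PY_subset_Zs sl ρ).1 hx).2

theorem j_good_JC {sl : β → Λ} (kr : (β → ℕ) → ℕ) {ρ : β → ℕ} (hρ : D.Decr sl ρ) :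
    D.JGood sl ρ (D.JC sl kr (kr ρ + 1)) := by
  refine ⟨D.j_isClosed_JC sl kr _, D.j_invX_JC sl kr _, fun x hx => hx.1, fun x hx => ?_⟩
  obtain ⟨h1, h2, -⟩ := D.j_mem_JY.1 hx
  exact ⟨⟨h1, ρ, hρ, Nat.lt_succ_self _, j_Nr_subset _ _ h2⟩, D.JStrata_Wf hx⟩
theorem j_good_Om (sl : β → Λ) (ρ : β → ℕ) : D.JGood sl ρ (D.Om sl) :=
  ⟨D.isClosed_Om sl, D.invX_Om sl, fun _ hx => hx.1, (D.PY_subset_Zs sl ρ).1⟩
theorem j_JY_inter (sl : β → Λ) (ρ : β → ℕ) :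
    D.JY sl ρ ∩ Zs (D.JS sl ρ) = D.JYo sl ρ := by
  ext x
  constructor
  · rintro ⟨h1, h2, -⟩
    exact ⟨h1, j_No_of_CO (D.j_mem_JY.1 h1).2.1 h2.2⟩
  · rintro ⟨h1, h2⟩
    exact ⟨h1, ⟨(D.j_mem_JY.1 h1).1, j_No_subset _ _ h2⟩, D.JStrata_Wf h1⟩
theorem j_invX_JS (sl : β → Λ) (ρ : β → ℕ) : InvX (D.K sl) D.act (D.JS sl ρ) :=
  fun u hu x hx => ⟨D.invX_U sl u hu x hx.1,
    j_CO_conj (D.j_gau_mem hu) (D.JStrata_chr_ne hu none) hx.2⟩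
theorem j_invX_JYo (sl : β → Λ) (ρ : β → ℕ) : InvX (D.JK sl ρ) D.act (D.JYo sl ρ) := by
  intro u hu x hx
  rw [← D.j_JY_inter] at hx ⊢
  have hu' := D.j_JK_subset sl ρ hu
  exact ⟨D.invX_PY sl ρ u hu x hx.1,
    D.invX_Zs (D.K_subset sl) (D.j_invX_JS sl ρ) u hu' x hx.2⟩
theorem j_openIn_JYo (sl : β → Λ) (ρ : β → ℕ) : OpenIn (D.JYo sl ρ) (D.JY sl ρ) := by
  refine ⟨{x | (JP ρ (x none)).det ≠ 0}, isOpen_ne_fun ?_ continuous_const, ?_⟩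
  · exact ((j_continuous_P ρ).comp (continuous_apply none)).matrix_det
  · ext x
    constructor
    · rintro ⟨h1, h2⟩
      exact ⟨h1, (j_mem_No_iff_det.1 h2).2⟩
    · rintro ⟨h1, h2⟩
      exact ⟨h1, j_mem_No_iff_det.2 ⟨(D.j_mem_JY.1 h1).2.1, h2⟩⟩
theorem j_lc_JS {sl : β → Λ} {ρ : β → ℕ} (hρ : D.Decr sl ρ) : LC (D.JS sl ρ) := by
  obtain ⟨kr, hk⟩ := D.exists_kr sl
  refine LC.openIn ?_ (D.j_openIn_JS hk hρ)
  exact (D.amb.lc (D.PU sl)).closedIn ⟨_, D.j_isClosed_JC sl kr (kr ρ + 1),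
    (inter_eq_right.2 fun x hx => hx.1).symm⟩
theorem j_lc_JYo (sl : β → Λ) (ρ : β → ℕ) : LC (D.JYo sl ρ) :=
  (D.amb.lc (D.PY sl ρ)).openIn (D.j_openIn_JYo sl ρ)
theorem j_locEuc_JYo (sl : β → Λ) (ρ : β → ℕ) : LocEuc (D.JYo sl ρ) := by
  have h : LocEuc (D.JY sl ρ) := fun _ hy => ⟨_, _, OpenIn.refl _, hy, D.amb.convChart _⟩
  exact h.openIn (D.j_openIn_JYo sl ρ)
theorem j_stab_JYo {sl : β → Λ} {ρ : β → ℕ} {u : Matrix (β ⊕ τ) (β ⊕ τ) ℂ} (hu : u ∈ D.K sl)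
    {y : UU β Ar} (hy : y none ∈ JNo (D.Jlb sl) ρ) (h : D.act u y none ∈ JNr (D.Jlb sl) ρ) :
    u ∈ D.JK sl ρ :=
  (D.j_mem_JK hu).2 fun _ _ h0 =>
    j_stab hy (D.j_gau_mem hu) (D.JStrata_chr_ne hu none) h h0
theorem j_invX_JKY (sl : β → Λ) (ρ : β → ℕ) : InvX (D.K sl) D.act (D.JKY sl ρ) := by
  rintro u hu _ ⟨v, hv, y, hy, rfl⟩
  exact ⟨u * v, (isGrp_KG _).mul u hu v hv, y, hy, ((D.isAct_K sl).mul u hu v hv y).symm⟩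

theorem JStrata_star {sl : β → Λ} {u : Matrix (β ⊕ τ) (β ⊕ τ) ℂ} (hu : u ∈ D.K sl)
    (x : UU β Ar) : D.act (star u) (D.act u x) = x := by
  have h := D.isAct_K sl
  rw [← h.mul _ (h.grp.star u hu) u hu, h.grp.star_mul hu, h.one]

theorem JStrata_isClosed_sat (sl : β → Λ) {F : Set (UU β Ar)} (hF : IsClosed F) :
    IsClosed {x | ∃ u ∈ D.K sl, D.act u x ∈ F} := by
  have h := D.isAct_K sl
  have h0 : CompactSpace (D.K sl) := isCompact_iff_compactSpace.1 h.grp.isCompact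
  have h1 : {x | ∃ u ∈ D.K sl, D.act u x ∈ F} =
      Prod.snd '' ((fun p : D.K sl × UU β Ar => D.act p.1 p.2) ⁻¹' F) := by
    ext q
    constructor
    · rintro ⟨u, hu, h1⟩
      exact ⟨(⟨u, hu⟩, q), h1, rfl⟩
    · rintro ⟨p, hp, rfl⟩
      exact ⟨p.1, p.1.2, hp⟩
  rw [h1]
  refine isClosedMap_snd_of_compactSpace _ (hF.preimage ?_)
  exact h.cont.comp_continuous (f := fun p : D.K sl × UU β Ar => (p.1.1, p.2))
    ((continuous_subtype_val.comp continuous_fst).prodMk continuous_snd)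
    fun p => ⟨p.1.2, trivial⟩

theorem j_closedIn_JKY (sl : β → Λ) (ρ : β → ℕ) :
    ClosedIn (D.JKY sl ρ) (Zs (D.JS sl ρ)) := by
  refine ⟨_, D.JStrata_isClosed_sat sl (D.amb.isClosed (D.PY sl ρ)), ?_⟩
  have hi := D.invX_Zs (D.K_subset sl) (D.j_invX_JS sl ρ)
  have hg := isGrp_KG (D.lab sl)
  ext x
  constructor
  · rintro ⟨u, hu, y, hy, rfl⟩
    rw [← D.j_JY_inter] at hy
    refine ⟨hi u hu y hy.2, star u, hg.star u hu, ?_⟩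
    rw [D.JStrata_star hu]
    exact hy.1
  · rintro ⟨hx, u, hu, h⟩
    refine ⟨star u, hg.star u hu, D.act u x, ?_, (D.JStrata_star hu x).symm⟩
    rw [← D.j_JY_inter]
    exact ⟨h, hi u hu x hx⟩
theorem j_mem_JKY {sl : β → Λ} {ρ : β → ℕ} {x : UU β Ar} (hx : x none ∈ JNo (D.Jlb sl) ρ) :
    x ∈ D.JKY sl ρ ↔ x ∈ D.JY sl ρ := by
  constructor
  · rintro ⟨u, hu, y, hy, rfl⟩
    exact D.invX_PY sl ρ u (D.j_stab_JYo hu hy.2 hx.1) y hy.1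
  · intro h
    exact ⟨1, (isGrp_KG _).one, x, ⟨h, hx⟩, ((D.isAct_K sl).one x).symm⟩

end HD

end Pool.Agent.HK
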