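import Pool.Agent.P.MP_1206ce_ag.JO.Strata

/-! Vanishing off the flag preserving locus. -/

open scoped Topology
open Filter Set

set_option linter.unusedSectionVars false

noncomputable section

namespace Pool.Agent.HK

namespace HD

variable {β I Ar τ Λ Λ' : Type} [Fintype β] [DecidableEq β] [Fintype I] [DecidableEq I] [Fintype Ar]
  [DecidableEq Ar] [Fintype τ] [DecidableEq τ] [DecidableEq Λ] [DecidableEq Λ'] (D : HD β I Ar τ)

/-- A point with prescribed loop. -/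
def JVan_mk (a : Matrix β β ℂ) (ξ : Ar ⊕ Ar → β → β → ℂ) : UU β Ar :=
  fun γ => γ.elim a fun δ => Matrix.of (ξ δ)

/-- The doubled part of a point. -/
def JVan_pr (x : UU β Ar) : Ar ⊕ Ar → β → β → ℂ := fun δ l k => x (some δ) l k

theorem JVan_cont_mk (a : Matrix β β ℂ) :
    Continuous (JVan_mk a : (Ar ⊕ Ar → β → β → ℂ) → UU β Ar) := by
  refine continuous_pi fun γ => ?_
  rcases γ with _ | δ
  · exact continuous_const
  · exact continuous_apply δ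

theorem JVan_cont_pr : Continuous (JVan_pr : UU β Ar → (Ar ⊕ Ar → β → β → ℂ)) :=
  continuous_pi fun δ => continuous_apply (some δ)

theorem JVan_mk_pr (x : UU β Ar) : JVan_mk (x none) (JVan_pr x) = x := by
  funext γ
  rcases γ with _ | δ <;> rfl

theorem JVan_pr_mk (a : Matrix β β ℂ) (ξ : Ar ⊕ Ar → β → β → ℂ) :
    JVan_pr (JVan_mk a ξ) = ξ := rfl

/-- The linear term of the potential. -/
def JVan_L (a : Matrix β β ℂ) (ξ v : Ar ⊕ Ar → β → β → ℂ) : ℂ :=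
  ∑ h, (Matrix.trace ((a * Matrix.of (ξ (Sum.inl h)) - Matrix.of (ξ (Sum.inl h)) * a) *
      Matrix.of (v (Sum.inr h))) -
    Matrix.trace ((a * Matrix.of (ξ (Sum.inr h)) - Matrix.of (ξ (Sum.inr h)) * a) *
      Matrix.of (v (Sum.inl h))))

theorem JVan_swap (a A B : Matrix β β ℂ) :
    Matrix.trace ((a * A - A * a) * B) = -Matrix.trace ((a * B - B * a) * A) := by
  rw [Matrix.sub_mul, Matrix.sub_mul, Matrix.trace_sub, Matrix.trace_sub, neg_sub,
    Matrix.trace_mul_comm (B * a) A, Matrix.trace_mul_comm (a * B) A, ← Matrix.mul_assoc,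
    ← Matrix.mul_assoc, Matrix.trace_mul_comm (A * B) a, ← Matrix.mul_assoc]

theorem JVan_Wf_add (a : Matrix β β ℂ) (ξ v : Ar ⊕ Ar → β → β → ℂ) :
    Wf (JVan_mk a (ξ + v)) = Wf (JVan_mk a ξ) + JVan_L a ξ v + Wf (JVan_mk a v) := by
  rw [Wf_eq, Wf_eq, Wf_eq, JVan_L, ← Finset.sum_add_distrib, ← Finset.sum_add_distrib]
  refine Finset.sum_congr rfl fun h _ => ?_
  change Matrix.trace ((a * (Matrix.of (ξ (Sum.inl h)) + Matrix.of (v (Sum.inl h))) -
      (Matrix.of (ξ (Sum.inl h)) + Matrix.of (v (Sum.inl h))) * a) *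
      (Matrix.of (ξ (Sum.inr h)) + Matrix.of (v (Sum.inr h)))) =
    Matrix.trace ((a * Matrix.of (ξ (Sum.inl h)) - Matrix.of (ξ (Sum.inl h)) * a) *
      Matrix.of (ξ (Sum.inr h))) + _ +
    Matrix.trace ((a * Matrix.of (v (Sum.inl h)) - Matrix.of (v (Sum.inl h)) * a) *
      Matrix.of (v (Sum.inr h)))
  rw [sub_eq_add_neg (Matrix.trace _), ← JVan_swap, ← Matrix.trace_add, ← Matrix.trace_add,
    ← Matrix.trace_add]
  congr 1
  noncomm_ring

theorem JVan_L_add (a : Matrix β β ℂ) (ξ v w : Ar ⊕ Ar → β → β → ℂ) :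
    JVan_L a ξ (v + w) = JVan_L a ξ v + JVan_L a ξ w := by
  rw [JVan_L, JVan_L, JVan_L, ← Finset.sum_add_distrib]
  refine Finset.sum_congr rfl fun h _ => ?_
  have e : ∀ δ, Matrix.of ((v + w) δ) = Matrix.of (v δ) + Matrix.of (w δ) := fun _ => rfl
  rw [e, e, Matrix.mul_add, Matrix.mul_add, Matrix.trace_add, Matrix.trace_add]
  ring

theorem JVan_L_smul (a : Matrix β β ℂ) (ξ v : Ar ⊕ Ar → β → β → ℂ) (c : ℝ) :
    JVan_L a ξ (c • v) = c • JVan_L a ξ v := by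
  rw [JVan_L, JVan_L, Finset.smul_sum]
  refine Finset.sum_congr rfl fun h _ => ?_
  have e : ∀ δ, Matrix.of ((c • v) δ) = c • Matrix.of (v δ) := fun _ => rfl
  rw [e, e, Matrix.mul_smul, Matrix.mul_smul, Matrix.trace_smul, Matrix.trace_smul, smul_sub]

/-- The real part of the linear term. -/
def JVan_ell (a : Matrix β β ℂ) (ξ : Ar ⊕ Ar → β → β → ℂ) : (Ar ⊕ Ar → β → β → ℂ) →ₗ[ℝ] ℝ where
  toFun v := (JVan_L a ξ v).re
  map_add' v w := by rw [JVan_L_add, Complex.add_re]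
  map_smul' c v := by rw [JVan_L_smul, Complex.smul_re]; rfl

/-- A single entry. -/
def JVan_E (δ : Ar ⊕ Ar) (k l : β) (t : ℂ) : Ar ⊕ Ar → β → β → ℂ :=
  fun δ' i j => if δ' = δ then Matrix.single k l t i j else 0

theorem JVan_of_E (δ δ' : Ar ⊕ Ar) (k l : β) (t : ℂ) :
    Matrix.of (JVan_E δ k l t δ') = if δ' = δ then Matrix.single k l t else 0 := by
  ext i j
  by_cases h : δ' = δ <;> simp [JVan_E, h]

theorem JVan_E_ne {δ δ' : Ar ⊕ Ar} {k l i j : β} {t : ℂ} (h : JVan_E δ k l t δ' i j ≠ 0) :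
    δ' = δ ∧ i = k ∧ j = l := by
  by_cases h1 : δ' = δ
  · refine ⟨h1, ?_⟩
    by_contra h2
    refine h ?_
    rw [JVan_E, if_pos h1, Matrix.single_apply_of_ne]
    exact fun h3 => h2 ⟨h3.1.symm, h3.2.symm⟩
  · exact absurd (if_neg h1) h

theorem JVan_L_E_inr (a : Matrix β β ℂ) (ξ : Ar ⊕ Ar → β → β → ℂ) (h : Ar) (k l : β) (t : ℂ) :
    JVan_L a ξ (JVan_E (Sum.inr h) k l t) =
      (a * Matrix.of (ξ (Sum.inl h)) - Matrix.of (ξ (Sum.inl h)) * a) l k * t := by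
  rw [JVan_L, Finset.sum_eq_single h]
  · rw [JVan_of_E, JVan_of_E, if_pos rfl, if_neg (by simp), Matrix.mul_zero, Matrix.trace_zero,
      sub_zero, Matrix.trace_mul_single, MulOpposite.smul_eq_mul_unop, MulOpposite.unop_op]
  · intro h' _ hh
    rw [JVan_of_E, JVan_of_E, if_neg (by simpa using hh), if_neg (by simp), Matrix.mul_zero,
      Matrix.mul_zero, Matrix.trace_zero, sub_zero]
  · exact fun hh => absurd (Finset.mem_univ h) hh

theorem JVan_L_E_inl (a : Matrix β β ℂ) (ξ : Ar ⊕ Ar → β → β → ℂ) (h : Ar) (k l : β) (t : ℂ) :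
    JVan_L a ξ (JVan_E (Sum.inl h) k l t) =
      -((a * Matrix.of (ξ (Sum.inr h)) - Matrix.of (ξ (Sum.inr h)) * a) l k * t) := by
  rw [JVan_L, Finset.sum_eq_single h]
  · rw [JVan_of_E, JVan_of_E, if_pos rfl, if_neg (by simp), Matrix.mul_zero, Matrix.trace_zero,
      zero_sub, Matrix.trace_mul_single, MulOpposite.smul_eq_mul_unop, MulOpposite.unop_op]
  · intro h' _ hh
    rw [JVan_of_E, JVan_of_E, if_neg (by simp), if_neg (by simpa using hh), Matrix.mul_zero,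
      Matrix.mul_zero, Matrix.trace_zero, sub_zero]
  · exact fun hh => absurd (Finset.mem_univ h) hh

theorem JVan_re_ne {z : ℂ} (hz : z ≠ 0) : (z * star z).re ≠ 0 := by
  have h1 : z * star z = (Complex.normSq z : ℂ) := Complex.mul_conj z
  rw [h1, Complex.ofReal_re]
  exact (Complex.normSq_pos.2 hz).ne'

theorem JVan_ell_ne (a : Matrix β β ℂ) (ξ : Ar ⊕ Ar → β → β → ℂ) (δ : Ar ⊕ Ar) {k l : β}
    (h : (a * Matrix.of (ξ δ) - Matrix.of (ξ δ) * a) l k ≠ 0) :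
    ∃ t, JVan_ell a ξ (JVan_E δ.swap k l t) ≠ 0 := by
  refine ⟨star ((a * Matrix.of (ξ δ) - Matrix.of (ξ δ) * a) l k), ?_⟩
  change (JVan_L a ξ _).re ≠ 0
  rcases δ with h' | h'
  · rw [Sum.swap_inl, JVan_L_E_inr]
    exact JVan_re_ne h
  · rw [Sum.swap_inr, JVan_L_E_inl, Complex.neg_re, neg_ne_zero]
    exact JVan_re_ne h

/-- Flag preserving tuples at allowed positions. -/
def JVan_Lam (sl : β → Λ) (ρ : β → ℕ) : Submodule ℝ (Ar ⊕ Ar → β → β → ℂ) where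
  carrier := {v | ∀ δ l k, (some δ, l, k) ∉ D.PY sl ρ → v δ l k = 0}
  add_mem' := fun {v w} hv hw δ l k h => by
    change v δ l k + w δ l k = 0
    rw [hv δ l k h, hw δ l k h, add_zero]
  zero_mem' := fun _ _ _ _ => rfl
  smul_mem' := fun c v hv δ l k h => by
    change c • v δ l k = 0
    rw [hv δ l k h, smul_zero]

theorem JVan_add_mem {sl : β → Λ} {ρ : β → ℕ} {J : Finset (Gam Ar × β × β)}
    (hJ : D.PY sl ρ ⊆ J) {a : Matrix β β ℂ} {ξ v : Ar ⊕ Ar → β → β → ℂ}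
    (hξ : JVan_mk a ξ ∈ LinS co J) (hv : v ∈ D.JVan_Lam sl ρ) :
    JVan_mk a (ξ + v) ∈ LinS co J := by
  rintro ⟨γ, l, k⟩ hp
  rcases γ with _ | δ
  · exact hξ _ hp
  · have h1 : ξ δ l k = 0 := hξ _ hp
    have h2 : v δ l k = 0 := hv δ l k fun h => hp (hJ h)
    change ξ δ l k + v δ l k = 0
    rw [h1, h2, add_zero]

theorem JVan_comm_pos {sl : β → Λ} {x : UU β Ar} (hx : x ∈ D.U sl) (δ : Ar ⊕ Ar) {l k : β}
    (h : (x none * x (some δ) - x (some δ) * x none) l k ≠ 0) :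
    (some δ.swap, k, l) ∈ D.PU sl := by
  have h1 : (some δ, l, k) ∈ D.PU sl := by
    rw [Matrix.sub_apply] at h
    by_cases h2 : (x none * x (some δ)) l k = 0
    · have h3 : (x (some δ) * x none) l k ≠ 0 := fun h3 => h (by rw [h2, h3, sub_self])
      obtain ⟨m, hm1, hm2⟩ := Basic_mul_ne h3
      have h4 := Prod.mk.inj (D.j_U_none hx hm2)
      exact D.Basic_PU_inv sl _ l m l k rfl rfl h4.1 h4.2 (Basic_mem_of_ne hx hm1)
    · obtain ⟨m, hm1, hm2⟩ := Basic_mul_ne h2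
      have h4 := Prod.mk.inj (D.j_U_none hx hm1)
      exact D.Basic_PU_inv sl _ m k l k h4.1.symm h4.2.symm rfl rfl (Basic_mem_of_ne hx hm2)
  rw [Basic_mem_PU] at h1 ⊢
  refine ⟨?_, h1.2.symm⟩
  have h5 := h1.1
  rcases δ with h' | h' <;> simp only [ok, Sum.swap_inl, Sum.swap_inr, decide_eq_true_eq] at h5 ⊢ <;>
    exact h5.symm

theorem JVan_affine {sl : β → Λ} {ρ : β → ℕ} {a : Matrix β β ℂ} (ha : a ∈ JNo (D.Jlb sl) ρ)
    (hLC : LC ({p : (Ar ⊕ Ar → β → β → ℂ) × Unit |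
      JVan_mk a p.1 ∈ D.U sl ∧ JVan_mk a p.1 ∉ D.JY sl ρ} ∩
        {p | 0 ≤ (Wf (JVan_mk a p.1)).re})) :
    Subsingleton (Hc ({p : (Ar ⊕ Ar → β → β → ℂ) × Unit |
      JVan_mk a p.1 ∈ D.U sl ∧ JVan_mk a p.1 ∉ D.JY sl ρ} ∩
        {p | 0 ≤ (Wf (JVan_mk a p.1)).re})) := by
  refine vanish_affine (D.JVan_Lam sl ρ) (W := fun p => (Wf (JVan_mk a p.1)).re) ?_ ?_ hLC
  · rintro ⟨ξ, u⟩ ⟨h1, h2⟩ v hv
    refine ⟨D.JVan_add_mem (Finset.filter_subset _ _) h1 hv, fun h3 => h2 ?_⟩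
    have h4 := D.JVan_add_mem (Finset.Subset.refl _) h3 (neg_mem hv)
    rwa [add_neg_cancel_right] at h4
  · rintro ⟨ξ, u⟩ ⟨h1, h2⟩
    refine ⟨JVan_ell a ξ ∘ₗ (D.JVan_Lam sl ρ).subtype, ?_, fun v => ?_⟩
    · have h3 : ∃ δ l k, JVan_mk a ξ (some δ) l k ≠ 0 ∧ ¬ ρ l ≤ ρ k := by
        by_contra h3
        refine h2 (D.j_mem_JY.2 ⟨h1, ha.1, fun δ l k h4 => ?_⟩)
        by_contra h5
        exact h3 ⟨δ, l, k, h4, h5⟩
      obtain ⟨δ, l, k, h4, h5⟩ := h3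
      have h6 : ∃ l' k', (a * Matrix.of (ξ δ) - Matrix.of (ξ δ) * a) l' k' ≠ 0 ∧
          ¬ ρ l' < ρ k' := by
        by_contra h6
        refine h5 (j_pres ha (ξ := Matrix.of (ξ δ)) (fun l' k' h7 => ?_) h4)
        by_contra h8
        exact h6 ⟨l', k', h7, h8⟩
      obtain ⟨l', k', h7, h8⟩ := h6
      obtain ⟨t, ht⟩ := JVan_ell_ne a ξ δ h7
      have h9 : JVan_E δ.swap k' l' t ∈ D.JVan_Lam sl ρ := by
        intro δ' i j hp
        by_contra h10
        obtain ⟨rfl, rfl, rfl⟩ := JVan_E_ne h10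
        refine hp (Finset.mem_filter.2 ⟨D.JVan_comm_pos h1 δ h7, ?_⟩)
        rw [if_neg (Option.some_ne_none _)]
        exact not_lt.1 h8
      intro h0
      exact ht (LinearMap.congr_fun h0 ⟨_, h9⟩)
    · have h3 : JVan_mk a v.1 ∈ D.JY sl ρ := by
        rintro ⟨γ, l, k⟩ hp
        rcases γ with _ | δ
        · by_contra h4
          have h5 : a l k ≠ 0 := h4
          refine hp (Finset.mem_filter.2 ⟨Basic_mem_of_ne h1 (γ := none) h5, ?_⟩)
          rw [if_pos rfl]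
          exact (ha.1 l k h5).2
        · exact v.2 δ l k hp
      change (Wf (JVan_mk a (ξ + v.1))).re = (Wf (JVan_mk a ξ)).re + (JVan_L a ξ v.1).re
      rw [JVan_Wf_add, (D.PY_subset_Zs sl ρ).2 _ h3, add_zero, Complex.add_re]

theorem JVan_fibre {sl : β → Λ} {ρ : β → ℕ} (hLC : LC (Zs (D.JS sl ρ) \ D.JKY sl ρ))
    {a : Matrix β β ℂ} (ha : a ∈ JNo (D.Jlb sl) ρ) :
    Subsingleton (Hc ((Zs (D.JS sl ρ) \ D.JKY sl ρ) ∩ (fun x : UU β Ar => x none) ⁻¹' {a})) := by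
  have hh : HomeoOn (fun x : UU β Ar => (JVan_pr x, ())) (fun p => JVan_mk a p.1)
      ((Zs (D.JS sl ρ) \ D.JKY sl ρ) ∩ (fun x : UU β Ar => x none) ⁻¹' {a})
      ({p : (Ar ⊕ Ar → β → β → ℂ) × Unit | JVan_mk a p.1 ∈ D.U sl ∧ JVan_mk a p.1 ∉ D.JY sl ρ} ∩
        {p | 0 ≤ (Wf (JVan_mk a p.1)).re}) := by
    have e : ∀ x : UU β Ar, x none = a → JVan_mk a (JVan_pr x) = x := fun x hx => by
      rw [← hx]; exact JVan_mk_pr x
    refine ⟨(JVan_cont_pr.prodMk continuous_const).continuousOn,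
      ((JVan_cont_mk a).comp continuous_fst).continuousOn, ?_, ?_, fun x hx => e x hx.2,
      fun p _ => rfl⟩
    · rintro x ⟨⟨⟨h1, h2⟩, h3⟩, h4⟩
      have h5 : x none = a := h4
      refine ⟨⟨?_, ?_⟩, ?_⟩
      · change JVan_mk a (JVan_pr x) ∈ D.U sl
        rw [e x h5]; exact h1.1
      · change JVan_mk a (JVan_pr x) ∉ D.JY sl ρ
        rw [e x h5]
        exact fun h6 => h3 ((D.j_mem_JKY (h5 ▸ ha)).2 h6)
      · change 0 ≤ (Wf (JVan_mk a (JVan_pr x))).re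
        rw [e x h5]; exact h2
    · rintro p ⟨⟨h1, h2⟩, h3⟩
      exact ⟨⟨⟨⟨h1, j_No_subset _ _ ha⟩, h3⟩,
        fun h6 => h2 ((D.j_mem_JKY (x := JVan_mk a p.1) ha).1 h6)⟩, rfl⟩
  refine hh.subsingleton (D.JVan_affine ha (LC.of_homeoOn hh.symm (hLC.closedIn ?_)))
  exact ⟨_, isClosed_singleton.preimage (continuous_apply none), rfl⟩

/-- Conjugation by a gauge matrix. -/
def JVan_cj (g : Matrix β β ℂ) (x : UU β Ar) : UU β Ar := fun γ => g * x γ * star g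

theorem JVan_cont_cj (g : Matrix β β ℂ) : Continuous (JVan_cj g : UU β Ar → UU β Ar) :=
  continuous_pi fun γ =>
    (continuous_const.matrix_mul (continuous_apply γ)).matrix_mul continuous_const

theorem JVan_cancel {g : Matrix β β ℂ} (hg : star g * g = 1) (A : Matrix β β ℂ) :
    star g * (g * A * star g) * star (star g) = A := by
  rw [star_star]
  calc star g * (g * A * star g) * g = (star g * g) * A * (star g * g) := by
        simp only [Matrix.mul_assoc]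
    _ = A := by rw [hg, Matrix.one_mul, Matrix.mul_one]

theorem JVan_cj_cj {g : Matrix β β ℂ} (hg : star g * g = 1) (x : UU β Ar) :
    JVan_cj (star g) (JVan_cj g x) = x := funext fun γ => JVan_cancel hg (x γ)

theorem JVan_cj_inv {sl : β → Λ} {S : Set (UU β Ar)} (hS : InvX (D.K sl) D.act S)
    {g : Matrix β β ℂ} (hg : g ∈ KG (D.Jlb sl)) {x : UU β Ar} (hx : x ∈ S) : JVan_cj g x ∈ S := by
  obtain ⟨h1, -, h2⟩ := D.fromBlocks_mem_K (sl := sl) hg.1 fun k l h => by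
    by_contra h3
    exact h (hg.2 k l fun h4 => h3 (Prod.mk.inj h4))
  have h3 := hS _ h1 x hx
  have h4 : D.act (Matrix.fromBlocks g 0 0 (1 : Matrix τ τ ℂ)) x = JVan_cj g x := funext (h2 x)
  rwa [h4] at h3

theorem JVan_cj_mem {sl : β → Λ} {ρ : β → ℕ} {g : Matrix β β ℂ} (hg : g ∈ KG (D.Jlb sl))
    {x : UU β Ar} (hx : x ∈ Zs (D.JS sl ρ) \ D.JKY sl ρ) :
    JVan_cj g x ∈ Zs (D.JS sl ρ) \ D.JKY sl ρ := by
  refine ⟨D.JVan_cj_inv (D.invX_Zs (D.K_subset sl) (D.j_invX_JS sl ρ)) hg hx.1, fun h => hx.2 ?_⟩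
  have h1 := D.JVan_cj_inv (D.j_invX_JKY sl ρ) ((isGrp_KG _).star g hg) h
  rwa [JVan_cj_cj (Matrix.mem_unitaryGroup_iff'.1 hg.1)] at h1

theorem j_vanish {sl : β → Λ} {ρ : β → ℕ} (hρ : D.Decr sl ρ) :
    Subsingleton (Hc (Zs (D.JS sl ρ) \ D.JKY sl ρ)) := by
  have hLC : LC (Zs (D.JS sl ρ) \ D.JKY sl ρ) :=
    ((D.j_lc_JS hρ).closedIn (closedIn_Zs _)).openIn (D.j_closedIn_JKY sl ρ).diff
  refine vanish (f := fun x : UU β Ar => x none) hLC (continuous_apply none).continuousOn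
    fun a => ?_
  rcases ((Zs (D.JS sl ρ) \ D.JKY sl ρ) ∩
      (fun x : UU β Ar => x none) ⁻¹' {a}).eq_empty_or_nonempty with he | ⟨x₀, hx₀, hq⟩
  · rw [he]; infer_instance
  have hq' : x₀ none = a := hq
  obtain ⟨g, hg, ha⟩ : a ∈ JCO (D.Jlb sl) ρ := hq' ▸ hx₀.1.1.2
  have hg1 : star g * g = 1 := Matrix.mem_unitaryGroup_iff'.1 hg.1
  have hg2 : star (star g) * star g = 1 := by
    rw [star_star]; exact Matrix.mem_unitaryGroup_iff.1 hg.1
  refine HomeoOn.subsingleton (f := JVan_cj g) (g := JVan_cj (star g))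
    ⟨(JVan_cont_cj _).continuousOn, (JVan_cont_cj _).continuousOn, ?_, ?_,
      fun x _ => JVan_cj_cj hg1 x, fun x _ => ?_⟩ (D.JVan_fibre hLC ha)
  · rintro x ⟨h1, h2⟩
    have h3 : x none = a := h2
    refine ⟨D.JVan_cj_mem hg h1, ?_⟩
    change g * x none * star g = g * a * star g
    rw [h3]
  · rintro x ⟨h1, h2⟩
    have h3 : x none = g * a * star g := h2
    refine ⟨D.JVan_cj_mem ((isGrp_KG _).star g hg) h1, ?_⟩
    change star g * x none * star (star g) = a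
    rw [h3, JVan_cancel hg1]
  · have h1 := JVan_cj_cj hg2 x
    rwa [star_star] at h1

end HD

end Pool.Agent.HK
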